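import Pool.Agent.Lib.MP_90aff6_co.CT.Iface

set_option autoImplicit false

/-!
Row ACY: cycles with fewer vertices than slots are boundaries.
-/

namespace Pool.Agent.Lib.MP_90aff6_co.CT

open scoped BigOperators

section Acy

variable {p : ℕ} {X Q : Type}

theorem CC_mono (cl : X → Q) {A A' : Finset X} {B B' : Finset (Q × ZMod p)} (j : ℕ)
    (hA : A ⊆ A') (hB : B ⊆ B') : CC cl A B j ≤ CC cl A' B' j := by
  refine Submodule.span_mono ?_
  rintro z ⟨l, ⟨hl1, hl2, hl3, hl4⟩, hl5, rfl⟩
  exact ⟨l, ⟨hl1, hl2, fun v hv => hA (hl3 v hv), fun v hv => hB (hl4 v hv)⟩, hl5, rfl⟩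

theorem acy (h1 : ExtStatement) (h2 : SplitStatement) (h3 : DecStatement) : AcyStatement := by
  intro p _ X Q _ _ cl
  have key : ∀ (n : ℕ) (A : Finset X) (B : Finset (Q × ZMod p)) (j : ℕ) (z : EA p X),
      B.card = n →
      (∀ y ∈ B, 2 * (B.filter (fun y' => y'.1 = y.1)).card ≤
        (A.filter (fun x => cl x = y.1)).card + 1) →
      j + 1 ≤ B.card → z ∈ CC cl A B j → bd p X z = 0 →
      z ∈ (CC cl A B (j + 1)).map (bd p X) := by
    intro n
    induction n with
    | zero =>
      intro A B j z hB _ hj
      omega
    | succ n ih =>
      intro A B j z hB hyp hj hz hb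
      obtain ⟨y, hy⟩ : B.Nonempty := by
        rw [← Finset.card_pos]; omega
      have hBe : (B.erase y).card = n := by
        rw [Finset.card_erase_of_mem hy, hB]
        rfl
      obtain ⟨sp1, sp2, -, sp4, -⟩ := h2 p X Q cl A B j z hz
      set I := A.filter (fun x => cl x = y.1) with hI
      have hyx : ∀ x ∈ I, (cl x, y.2) = y := by
        intro x hx
        rw [hI, Finset.mem_filter] at hx
        rw [hx.2]
      have hBf : ((B.erase y).filter (fun y' => y'.1 = y.1)).card + 1 =
          (B.filter (fun y' => y'.1 = y.1)).card := by
        rw [Finset.filter_erase]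
        exact Finset.card_erase_add_one (by simp [hy])
      -- the chains `w_x`
      have hw : ∀ x ∈ I, ∃ w ∈ CC cl (A.erase x) (B.erase y) j,
          bd p X w = lk (x, y.2) z := by
        intro x hx
        rcases Nat.eq_zero_or_pos j with hj0 | hj0
        · exact ⟨0, Submodule.zero_mem _, by rw [map_zero, sp1 (x, y.2) hj0]⟩
        · obtain ⟨i, rfl⟩ : ∃ i, j = i + 1 := ⟨j - 1, by omega⟩
          have hlk : lk (x, y.2) z ∈ CC cl (A.erase x) (B.erase y) i := by
            have := sp2 (x, y.2) i rfl
            simpa only [hyx x hx] using this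
          have hlkb : bd p X (lk (x, y.2) z) = 0 := by
            have := (h1 p X).2.2.1 (x, y.2) z
            rw [hb, map_zero] at this
            exact neg_eq_zero.1 this.symm
          have hx' := hx
          rw [hI, Finset.mem_filter] at hx'
          have := ih (A.erase x) (B.erase y) i (lk (x, y.2) z) hBe ?_ (by omega) hlk hlkb
          · obtain ⟨w, hw, hw'⟩ := this
            exact ⟨w, hw, hw'⟩
          · intro y' hy'
            have hy'B := Finset.mem_of_mem_erase hy'
            have hh := hyp y' hy'B
            by_cases hc : y'.1 = y.1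
            · rw [hc] at hh ⊢
              have hAf : ((A.erase x).filter (fun x => cl x = y.1)).card + 1 =
                  (A.filter (fun x => cl x = y.1)).card := by
                rw [Finset.filter_erase]
                exact Finset.card_erase_add_one hx
              omega
            · have e1 : (B.erase y).filter (fun y'' => y''.1 = y'.1) =
                  B.filter (fun y'' => y''.1 = y'.1) := by
                rw [Finset.filter_erase]
                exact Finset.erase_eq_of_notMem (by simp [Ne.symm hc])
              have e2 : (A.erase x).filter (fun x => cl x = y'.1) =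
                  A.filter (fun x => cl x = y'.1) := by
                rw [Finset.filter_erase]
                refine Finset.erase_eq_of_notMem ?_
                rw [Finset.mem_filter]
                rintro ⟨-, h⟩
                exact hc (h.symm.trans hx'.2)
              rw [e1, e2]
              exact hh
      choose! w hw1 hw2 using hw
      -- the cones
      have hcone : ∀ x ∈ I, gen (x, y.2) * w x ∈ CC cl A B (j + 1) := by
        intro x hx
        have hxA : x ∈ A := (Finset.mem_filter.1 hx).1
        obtain ⟨-, -, -, -, co⟩ := h2 p X Q cl (A.erase x) (B.erase y) j (w x) (hw1 x hx)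
        exact co x A B y.2 (by simp) (by rw [hyx x hx]; simp)
          (by rw [Finset.insert_erase hxA]) (by rw [hyx x hx, Finset.insert_erase hy])
      have hW : ∑ x ∈ I, gen (x, y.2) * w x ∈ CC cl A B (j + 1) := Submodule.sum_mem _ hcone
      set W := ∑ x ∈ I, gen (x, y.2) * w x with hWdef
      have hbW : bd p X W = ∑ x ∈ I, (w x - gen (x, y.2) * lk (x, y.2) z) := by
        rw [hWdef, map_sum]
        refine Finset.sum_congr rfl fun x hx => ?_
        rw [(h1 p X).1, hw2 x hx]
      have hz' : z + bd p X W ∈ CC cl A (B.erase y) j := by
        have e : z + bd p X W =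
            (z - ∑ x ∈ I, gen (x, y.2) * lk (x, y.2) z) + ∑ x ∈ I, w x := by
          rw [hbW, Finset.sum_sub_distrib]
          abel
        rw [e]
        refine Submodule.add_mem _ (sp4 y hy) (Submodule.sum_mem _ fun x hx => ?_)
        exact CC_mono cl j (Finset.erase_subset _ _) (Finset.Subset.refl _) (hw1 x hx)
      have hz'b : bd p X (z + bd p X W) = 0 := by
        rw [map_add, hb, (h1 p X).2.2.2.1, add_zero]
      suffices hmem : z + bd p X W ∈ (CC cl A B (j + 1)).map (bd p X) by
        have := Submodule.sub_mem _ hmem (Submodule.mem_map_of_mem (f := bd p X) hW)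
        rwa [add_sub_cancel_right] at this
      by_cases hjn : j + 1 ≤ (B.erase y).card
      · have := ih A (B.erase y) j _ hBe ?_ hjn hz' hz'b
        · exact Submodule.map_mono (CC_mono cl (j + 1) (Finset.Subset.refl _)
            (Finset.erase_subset _ _)) this
        · intro y' hy'
          have hh := hyp y' (Finset.mem_of_mem_erase hy')
          have hle : ((B.erase y).filter (fun y'' => y''.1 = y'.1)).card ≤
              (B.filter (fun y'' => y''.1 = y'.1)).card :=
            Finset.card_le_card (Finset.filter_subset_filter _ (Finset.erase_subset _ _))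
          omega
      · have hjeq : j = (B.erase y).card := by omega
        have hh := hyp y hy
        rw [hjeq] at hz'
        have hd := h3 p X Q cl y.1 A (B.erase y) 1 _ (by omega) hz' hz'b
        refine (Submodule.span_le.2 ?_) hd
        rintro u ⟨hub, S, hS, hSc, huS⟩
        obtain ⟨x', rfl⟩ := Finset.card_eq_one.1 hSc
        have hx'I : x' ∈ I := hS (by simp)
        have hx'A : x' ∈ A := (Finset.mem_filter.1 hx'I).1
        obtain ⟨-, -, -, -, co⟩ :=
          h2 p X Q cl (A \ {x'}) (B.erase y) (B.erase y).card u huS
        have hmem := co x' A B y.2 (by simp) (by rw [hyx x' hx'I]; simp)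
          (by
            intro x hx
            rw [Finset.mem_insert, Finset.mem_sdiff] at hx
            rcases hx with rfl | hx
            · exact hx'A
            · exact hx.1) (by rw [hyx x' hx'I, Finset.insert_erase hy])
        refine ⟨gen (x', y.2) * u, ?_, ?_⟩
        · rw [hjeq]
          exact hmem
        · rw [(h1 p X).1, hub]
          simp
  intro A B j z hyp hj hz hb
  obtain ⟨w, hw, hw'⟩ := key _ A B j z rfl hyp hj hz hb
  exact ⟨w, hw, hw'⟩

end Acy

end Pool.Agent.Lib.MP_90aff6_co.CT
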