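import Pool.Agent.Lib.MP_90aff6_co.CT.Iface

/-!
MP_90aff6_co, board CT, row CHN: the chains of the periodic resolution.
-/

set_option autoImplicit false

namespace Pool.Agent.Lib.MP_90aff6_co.CT

open scoped BigOperators

variable {p : ℕ} {X Q : Type}

theorem chn_isFace_sh (cl : X → Q) [Fintype X] [Fintype Q] [NeZero p] [DecidableEq X]
    (a : ZMod p) (l : List (Vx p X)) (hl : IsFace cl Finset.univ Finset.univ l) :
    IsFace cl Finset.univ Finset.univ (l.map (sh a)) := by
  obtain ⟨h1, h2, -, -⟩ := hl
  refine ⟨?_, ?_, fun v _ => Finset.mem_univ _, fun v _ => Finset.mem_univ _⟩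
  · rw [List.map_map]
    exact h1
  · rw [List.map_map]
    have e : (l.map ((fun v : Vx p X => (cl v.1, v.2)) ∘ sh a)) =
        (l.map fun v => (cl v.1, v.2)).map (fun y : Q × ZMod p => (y.1, y.2 + a)) := by
      rw [List.map_map]; rfl
    rw [e]
    refine h2.map ?_
    rintro ⟨x, i⟩ ⟨y, j⟩ h
    simp only [Prod.mk.injEq, add_left_inj] at h
    exact Prod.ext h.1 h.2

theorem chn_act_mem (h1 : ExtStatement) (cl : X → Q) [Fintype X] [Fintype Q] [NeZero p]
    [DecidableEq X] (a : ZMod p) (j : ℕ) (z : EA p X)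
    (hz : z ∈ CC cl Finset.univ Finset.univ j) :
    act a z ∈ CC cl Finset.univ Finset.univ j := by
  obtain ⟨-, -, -, -, -, -, -, hw, -⟩ := h1 p X
  unfold CC at hz ⊢
  induction hz using Submodule.span_induction with
  | mem x hx =>
    obtain ⟨l, hl, hj, rfl⟩ := hx
    refine Submodule.subset_span ⟨l.map (sh a), chn_isFace_sh cl a l hl, by simpa using hj, hw a l⟩
  | zero => simp
  | add x y _ _ hx hy => rw [map_add]; exact Submodule.add_mem _ hx hy
  | smul c x _ hx => rw [map_smul]; exact Submodule.smul_mem _ _ hx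

theorem chn (h1 : ExtStatement) (h2 : AcyStatement) : ChnStatement := by
  intro p _ X Q _ _ _ _ _ cl hcl
  have hp : p.Prime := Fact.out
  have : NeZero p := ⟨hp.ne_zero⟩
  obtain ⟨hbd, -, -, hbb, hab, haa, ha0, hw, -⟩ := h1 p X
  have acy : ∀ (j : ℕ) (z : EA p X), j + 1 ≤ p * Fintype.card Q →
      z ∈ CC cl Finset.univ Finset.univ j → bd p X z = 0 →
      ∃ w ∈ CC cl Finset.univ Finset.univ (j + 1), bd p X w = z := by
    intro j z hj hz hz0
    refine h2 p X Q cl Finset.univ Finset.univ j z ?_ ?_ hz hz0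
    · intro y _
      have e : (Finset.univ.filter (fun y' : Q × ZMod p => y'.1 = y.1)).card = p := by
        have : (Finset.univ.filter (fun y' : Q × ZMod p => y'.1 = y.1)) =
            ({y.1} : Finset Q) ×ˢ (Finset.univ : Finset (ZMod p)) := by
          ext z
          simp only [Finset.mem_filter, Finset.mem_univ, true_and, Finset.mem_product,
            Finset.mem_singleton, and_true]
        rw [this, Finset.card_product, Finset.card_singleton, one_mul, Finset.card_univ,
          ZMod.card]
      rw [e]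
      exact hcl y.1
    · rw [Finset.card_univ, Fintype.card_prod, ZMod.card, mul_comm]
      exact hj
  -- the differential of the resolution
  let D : ℕ → EA p X → EA p X := fun j x =>
    if Even j then act 1 x - x else ∑ a : ZMod p, act a x
  let Inv : ℕ → EA p X → Prop := fun j x =>
    x ∈ CC cl Finset.univ Finset.univ (j + 1) ∧ (Even j → act 1 (bd p X x) = bd p X x) ∧
      (¬ Even j → ∑ a : ZMod p, act a (bd p X x) = 0)
  have sum_act : ∀ x : EA p X, ∑ a : ZMod p, act a (act 1 x) = ∑ a : ZMod p, act a x := by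
    intro x
    simp only [haa]
    exact Fintype.sum_equiv (Equiv.addRight (1 : ZMod p)) _ _ fun a => rfl
  have act_sum : ∀ x : EA p X, act 1 (∑ a : ZMod p, act a x) = ∑ a : ZMod p, act a x := by
    intro x
    rw [map_sum]
    simp only [haa]
    exact Fintype.sum_equiv (Equiv.addLeft (1 : ZMod p)) _ _ fun a => rfl
  have step : ∀ (j : ℕ) (x : EA p X), ∃ x' : EA p X, Inv j x →
      j + 2 ≤ p * Fintype.card Q → Inv (j + 1) x' ∧ bd p X x' = D j x := by
    intro j x
    by_cases hx : Inv j x ∧ j + 2 ≤ p * Fintype.card Q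
    · obtain ⟨⟨hm, he, ho⟩, hj⟩ := hx
      by_cases hev : Even j
      · obtain ⟨w, hwm, hwb⟩ := acy (j + 1) (act 1 x - x) (by omega)
          (Submodule.sub_mem _ (chn_act_mem h1 cl 1 _ x hm) hm)
          (by rw [map_sub, ← hab, he hev, sub_self])
        refine ⟨w, fun _ _ => ⟨⟨hwm, fun h => ?_, fun _ => ?_⟩, ?_⟩⟩
        · exact absurd h (by rw [Nat.even_add_one]; exact fun h' => h' hev)
        · rw [hwb]
          simp only [map_sub, Finset.sum_sub_distrib]
          rw [sum_act, sub_self]
        · simp only [D, if_pos hev]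
          exact hwb
      · obtain ⟨w, hwm, hwb⟩ := acy (j + 1) (∑ a : ZMod p, act a x) (by omega)
          (Submodule.sum_mem _ fun a _ => chn_act_mem h1 cl a _ x hm)
          (by rw [map_sum, ← ho hev]; exact Finset.sum_congr rfl fun a _ => (hab a x).symm)
        refine ⟨w, fun _ _ => ⟨⟨hwm, fun _ => ?_, fun h => ?_⟩, ?_⟩⟩
        · rw [hwb, act_sum]
        · exact absurd (Nat.even_add_one.2 hev) h
        · simp only [D, if_neg hev]
          exact hwb
    · exact ⟨0, fun h h' => absurd ⟨h, h'⟩ hx⟩
  choose F hF using step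
  have hx0 : ∃ x0 : X, True := by
    have := hcl (Classical.arbitrary Q)
    have h2 := hp.two_le
    have h3 : 0 < (Finset.univ.filter (fun x => cl x = Classical.arbitrary Q)).card := by omega
    obtain ⟨x, -⟩ := Finset.card_pos.1 h3
    exact ⟨x, trivial⟩
  obtain ⟨x0, -⟩ := hx0
  let c : ℕ → EA p X := fun n => Nat.rec (gen (x0, 0)) (fun j x => F j x) n
  have hc0 : c 0 = gen (x0, 0) := rfl
  have hcs : ∀ n, c (n + 1) = F n (c n) := fun n => rfl
  have hb1 : bd p X (1 : EA p X) = 0 := CliffordAlgebra.contractLeft_one _ (eps p X)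
  have hb0 : bd p X (c 0) = 1 := by
    have := hbd (x0, 0) 1
    rw [hb1, mul_zero, sub_zero, mul_one] at this
    rw [hc0]
    exact this
  have inv : ∀ j, j + 1 ≤ p * Fintype.card Q → Inv j (c j) := by
    intro j
    induction j with
    | zero =>
      intro _
      refine ⟨?_, fun _ => ?_, fun h => absurd (by simp) h⟩
      · rw [hc0]
        refine Submodule.subset_span ⟨[(x0, 0)], ⟨by simp, by simp, by simp, by simp⟩, rfl, ?_⟩
        simp [word]
      · rw [hb0]
        exact map_one (ExteriorAlgebra.map (Finsupp.lmapDomain (ZMod p) (ZMod p)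
          (sh (X := X) (1 : ZMod p))))
    | succ n ih =>
      intro hn
      rw [hcs]
      exact (hF n (c n) (ih (by omega)) (by omega)).1
  have hbc : ∀ j, j + 2 ≤ p * Fintype.card Q → bd p X (c (j + 1)) = D j (c j) := by
    intro j hj
    rw [hcs]
    exact (hF j (c j) (inv j (by omega)) hj).2
  refine ⟨c, hb0, fun j hj => (inv j hj).1, fun i hi => ?_, fun i hi => ?_⟩
  · rw [hbc (2 * i) hi]
    simp only [D, if_pos (even_two_mul i)]
  · rw [show 2 * i + 2 = (2 * i + 1) + 1 from rfl, hbc (2 * i + 1) hi]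
    have : ¬ Even (2 * i + 1) := by
      rw [Nat.even_add_one]; exact fun h => h (even_two_mul i)
    simp only [D, if_neg this]

end Pool.Agent.Lib.MP_90aff6_co.CT
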