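import Pool.Agent.Lib.MP_90aff6_co.CT.Iface

set_option autoImplicit false

/-!
Row DEC: top cycles are sums of cycles that miss `s` points of a class.
-/

namespace Pool.Agent.Lib.MP_90aff6_co.CT

open scoped BigOperators

section Dec

variable {p : ℕ} {X Q : Type} [DecidableEq X] [DecidableEq Q]

/-- The cycles that miss `s` points of the class `c`. -/
def decSet (cl : X → Q) (c : Q) (A : Finset X) (B : Finset (Q × ZMod p)) (s : ℕ) :
    Set (EA p X) :=
  {u : EA p X | bd p X u = 0 ∧
      ∃ S : Finset X, S ⊆ A.filter (fun x => cl x = c) ∧ S.card = s ∧ u ∈ CC cl (A \ S) B B.card}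

theorem bd_decSpan (cl : X → Q) (c : Q) (A : Finset X) (B : Finset (Q × ZMod p)) (s : ℕ)
    {u : EA p X} (hu : u ∈ Submodule.span (ZMod p) (decSet cl c A B s)) : bd p X u = 0 := by
  induction hu using Submodule.span_induction with
  | mem x hx => exact hx.1
  | zero => simp
  | add x y _ _ hx hy => rw [map_add, hx, hy, add_zero]
  | smul a x _ hx => rw [map_smul, hx, smul_zero]

theorem dec (h1 : ExtStatement) (h2 : SplitStatement) : DecStatement := by
  intro p _ X Q _ _ cl c A B s z
  have key : ∀ (n : ℕ) (A : Finset X) (B : Finset (Q × ZMod p)) (s : ℕ) (z : EA p X),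
      (A.filter (fun x => cl x = c)).card = n →
      2 * (B.filter (fun y => y.1 = c)).card + s ≤ n →
      z ∈ CC cl A B B.card → bd p X z = 0 →
      z ∈ Submodule.span (ZMod p) (decSet cl c A B s) := by
    intro n
    induction n with
    | zero =>
      intro A B s z _ hn hz hb
      have hs : s = 0 := by omega
      subst hs
      refine Submodule.subset_span ⟨hb, ∅, by simp, by simp, ?_⟩
      simpa using hz
    | succ n ih =>
      intro A B s z hA hn hz hb
      rcases Nat.eq_zero_or_pos s with hs | hs
      · subst hs
        refine Submodule.subset_span ⟨hb, ∅, by simp, by simp, ?_⟩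
        simpa using hz
      obtain ⟨s, rfl⟩ : ∃ t, s = t + 1 := ⟨s - 1, by omega⟩
      have hne : (A.filter (fun x => cl x = c)).Nonempty := by
        rw [← Finset.card_pos]; omega
      obtain ⟨x1, hx1⟩ := hne
      rw [Finset.mem_filter] at hx1
      obtain ⟨hx1A, hx1c⟩ := hx1
      have hA' : ((A.erase x1).filter (fun x => cl x = c)).card = n := by
        rw [Finset.filter_erase, Finset.card_erase_of_mem (by simp [hx1A, hx1c]), hA]
        simp
      obtain ⟨-, sp2, sp3, -, -⟩ := h2 p X Q cl A B B.card z hz
      -- the cone part
      have cone : ∀ y ∈ B.filter (fun y => y.1 = cl x1),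
          ∃ r ∈ CC cl (A.erase x1) B B.card,
            gen (x1, y.2) * lk (x1, y.2) z - r
              ∈ Submodule.span (ZMod p) (decSet cl c A B (s + 1)) := by
        intro y hy
        rw [Finset.mem_filter] at hy
        obtain ⟨hyB, hyc⟩ := hy
        have hyeq : (cl x1, y.2) = y := by
          rw [← hyc]
        have hBc : (B.erase y).card + 1 = B.card := Finset.card_erase_add_one hyB
        have hlk : lk (x1, y.2) z ∈ CC cl (A.erase x1) (B.erase y) (B.erase y).card := by
          have := sp2 (x1, y.2) (B.erase y).card hBc.symm
          simpa only [hyeq] using this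
        have hlkb : bd p X (lk (x1, y.2) z) = 0 := by
          have := (h1 p X).2.2.1 (x1, y.2) z
          rw [hb, map_zero] at this
          exact neg_eq_zero.1 this.symm
        have hBf : ((B.erase y).filter (fun y => y.1 = c)).card + 1
            = (B.filter (fun y => y.1 = c)).card := by
          rw [Finset.filter_erase]
          exact Finset.card_erase_add_one (by simp [hyB, hyc, hx1c])
        have hu := ih (A.erase x1) (B.erase y) (s + 2) (lk (x1, y.2) z) hA' (by omega) hlk hlkb
        generalize lk (x1, y.2) z = u at hu
        induction hu using Submodule.span_induction with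
        | mem u hu =>
          obtain ⟨hub, S, hS, hSc, huS⟩ := hu
          have hSne : S.Nonempty := by rw [← Finset.card_pos]; omega
          obtain ⟨x', hx'⟩ := hSne
          have hx'A := hS hx'
          rw [Finset.mem_filter] at hx'A
          have hSA : ∀ x ∈ S, x ∈ A.erase x1 ∧ cl x = c := by
            intro x hx
            have := hS hx
            rwa [Finset.mem_filter] at this
          obtain ⟨-, -, -, -, co⟩ :=
            h2 p X Q cl (A.erase x1 \ S) (B.erase y) (B.erase y).card u huS
          have hy1 : (cl x1, y.2) ∉ B.erase y := by rw [hyeq]; simp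
          have hx'eq : (cl x', y.2) = y := by rw [hx'A.2, ← hx1c, hyeq]
          have hy2 : (cl x', y.2) ∉ B.erase y := by rw [hx'eq]; simp
          have hins : insert y (B.erase y) ⊆ B := by rw [Finset.insert_erase hyB]
          refine ⟨gen (x', y.2) * u, ?_, ?_⟩
          · have := co x' (A.erase x1) B y.2 (by simp [hx']) hy2
              (by
                intro x hx
                rw [Finset.mem_insert, Finset.mem_sdiff] at hx
                rcases hx with rfl | hx
                · exact hx'A.1
                · exact hx.1) (by rw [hx'eq]; exact hins)
            rwa [hBc] at this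
          · refine Submodule.subset_span ⟨?_, S.erase x', ?_, ?_, ?_⟩
            · rw [map_sub, (h1 p X).1, (h1 p X).1, hub]
              simp
            · intro x hx
              have hx2 := hSA x (Finset.mem_of_mem_erase hx)
              rw [Finset.mem_filter]
              exact ⟨Finset.mem_of_mem_erase hx2.1, hx2.2⟩
            · rw [Finset.card_erase_of_mem hx', hSc]
              rfl
            · refine Submodule.sub_mem _ ?_ ?_
              · have := co x1 (A \ S.erase x') B y.2 (by simp) hy1
                  (by
                    intro x hx
                    rw [Finset.mem_insert, Finset.mem_sdiff] at hx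
                    rw [Finset.mem_sdiff]
                    rcases hx with rfl | hx
                    · refine ⟨hx1A, fun h => ?_⟩
                      have := (hSA _ (Finset.mem_of_mem_erase h)).1
                      simp at this
                    · exact ⟨Finset.mem_of_mem_erase hx.1,
                        fun h => hx.2 (Finset.mem_of_mem_erase h)⟩)
                  (by rw [hyeq]; exact hins)
                rwa [hBc] at this
              · have := co x' (A \ S.erase x') B y.2 (by simp [hx']) hy2
                  (by
                    intro x hx
                    rw [Finset.mem_insert, Finset.mem_sdiff] at hx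
                    rw [Finset.mem_sdiff]
                    rcases hx with rfl | hx
                    · exact ⟨Finset.mem_of_mem_erase hx'A.1, by simp⟩
                    · exact ⟨Finset.mem_of_mem_erase hx.1,
                        fun h => hx.2 (Finset.mem_of_mem_erase h)⟩)
                  (by rw [hx'eq]; exact hins)
                rwa [hBc] at this
        | zero => exact ⟨0, Submodule.zero_mem _, by simp⟩
        | add u v _ _ hu hv =>
          obtain ⟨r, hr, hr'⟩ := hu
          obtain ⟨t, ht, ht'⟩ := hv
          refine ⟨r + t, Submodule.add_mem _ hr ht, ?_⟩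
          have := Submodule.add_mem _ hr' ht'
          rwa [sub_add_sub_comm, ← mul_add] at this
        | smul a u _ hu =>
          obtain ⟨r, hr, hr'⟩ := hu
          refine ⟨a • r, Submodule.smul_mem _ _ hr, ?_⟩
          have := Submodule.smul_mem _ a hr'
          rwa [smul_sub, ← mul_smul_comm] at this
      choose! r hr1 hr2 using cone
      set I := B.filter (fun y => y.1 = cl x1) with hI
      have hT : ∑ y ∈ I, (gen (x1, y.2) * lk (x1, y.2) z - r y)
          ∈ Submodule.span (ZMod p) (decSet cl c A B (s + 1)) :=
        Submodule.sum_mem _ hr2
      have hz'b : bd p X (z - ∑ y ∈ I, (gen (x1, y.2) * lk (x1, y.2) z - r y)) = 0 := by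
        rw [map_sub, hb, bd_decSpan cl c A B (s + 1) hT, sub_zero]
      have hz'C : z - ∑ y ∈ I, (gen (x1, y.2) * lk (x1, y.2) z - r y)
          ∈ CC cl (A.erase x1) B B.card := by
        have e : z - ∑ y ∈ I, (gen (x1, y.2) * lk (x1, y.2) z - r y)
            = (z - ∑ y ∈ I, gen (x1, y.2) * lk (x1, y.2) z) + ∑ y ∈ I, r y := by
          rw [Finset.sum_sub_distrib]; abel
        rw [e]
        exact Submodule.add_mem _ (sp3 x1 hx1A) (Submodule.sum_mem _ hr1)
      have hfin := ih (A.erase x1) B s _ hA' (by omega) hz'C hz'b
      have hle : Submodule.span (ZMod p) (decSet cl c (A.erase x1) B s)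
          ≤ Submodule.span (ZMod p) (decSet cl c A B (s + 1)) := by
        refine Submodule.span_mono ?_
        rintro u ⟨hub, S, hS, hSc, huS⟩
        have hx1S : x1 ∉ S := fun h => by
          have := hS h
          simp at this
        refine ⟨hub, insert x1 S, ?_, ?_, ?_⟩
        · intro x hx
          rw [Finset.mem_insert] at hx
          rcases hx with rfl | hx
          · simp [hx1A, hx1c]
          · have := hS hx
            rw [Finset.mem_filter] at this ⊢
            exact ⟨Finset.mem_of_mem_erase this.1, this.2⟩
        · rw [Finset.card_insert_of_notMem hx1S, hSc]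
        · have e : A \ insert x1 S = A.erase x1 \ S := by
            ext x
            simp only [Finset.mem_sdiff, Finset.mem_insert, Finset.mem_erase]
            tauto
          rw [e]; exact huS
      have := Submodule.add_mem _ (hle hfin) hT
      rwa [sub_add_cancel] at this
  intro hn hz hb
  exact key _ A B s z rfl hn hz hb

end Dec

end Pool.Agent.Lib.MP_90aff6_co.CT
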