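import Pool.Agent.Lib.MP_90aff6_co.CT.Iface

/-!
MP_90aff6_co, board CT, row EV: an alternating function on tuples of vertices gives a linear
functional on the exterior algebra.
-/

set_option autoImplicit false

namespace Pool.Agent.Lib.MP_90aff6_co.CT

open scoped BigOperators

/-- The multilinear map of a function on tuples of vertices. -/
noncomputable def evMul (p : ℕ) [NeZero p] (V : Type) [Fintype V] [DecidableEq V] (q : ℕ)
    (g : (Fin q → V) → ZMod p) : MultilinearMap (ZMod p) (fun _ : Fin q => V →₀ ZMod p) (ZMod p) :=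
  ∑ w : Fin q → V, g w • (MultilinearMap.mkPiAlgebra (ZMod p) (Fin q) (ZMod p)).compLinearMap
    (fun i => Finsupp.lapply (w i))

theorem evMul_apply (p : ℕ) [NeZero p] (V : Type) [Fintype V] [DecidableEq V] (q : ℕ)
    (g : (Fin q → V) → ZMod p) (m : Fin q → V →₀ ZMod p) :
    evMul p V q g m = ∑ w : Fin q → V, g w * ∏ i, m i (w i) := by
  simp [evMul]

theorem evMul_alt (p : ℕ) [NeZero p] (V : Type) [Fintype V] [DecidableEq V] (q : ℕ)
    (g : (Fin q → V) → ZMod p)
    (h1 : ∀ (w : Fin q → V) (σ : Equiv.Perm (Fin q)),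
      g (w ∘ σ) = ((Equiv.Perm.sign σ : ℤ) : ZMod p) * g w)
    (h2 : ∀ w : Fin q → V, ¬ Function.Injective w → g w = 0)
    (m : Fin q → V →₀ ZMod p) (i j : Fin q) (hij : m i = m j) (hne : i ≠ j) :
    evMul p V q g m = 0 := by
  rw [evMul_apply]
  have hm : ∀ k, m (Equiv.swap i j k) = m k := by
    intro k
    rcases eq_or_ne k i with rfl | hki
    · rw [Equiv.swap_apply_left, hij]
    · rcases eq_or_ne k j with rfl | hkj
      · rw [Equiv.swap_apply_right, hij]
      · rw [Equiv.swap_apply_of_ne_of_ne hki hkj]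
  refine Finset.sum_involution (fun w _ => w ∘ Equiv.swap i j) ?_ ?_ ?_ ?_
  · intro w _
    have e1 : ∏ k, m k ((w ∘ Equiv.swap i j) k) = ∏ k, m k (w k) := by
      rw [← Equiv.prod_comp (Equiv.swap i j) (fun k => m k (w k))]
      refine Finset.prod_congr rfl fun k _ => ?_
      rw [hm]
      rfl
    rw [e1, h1, Equiv.Perm.sign_swap hne]
    simp
  · intro w _ hw heq
    apply hw
    have : g w = 0 := by
      apply h2
      intro hinj
      apply hne
      apply hinj
      have := congrFun heq i
      simp only [Function.comp_apply, Equiv.swap_apply_left] at this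
      exact this.symm
    rw [this, zero_mul]
  · intro w _
    exact Finset.mem_univ _
  · intro w _
    funext k
    simp only [Function.comp_apply, Equiv.swap_apply_self]

theorem ev : EvStatement := by
  intro p _ X _ _ q g h1 h2
  let A : (Vx p X →₀ ZMod p) [⋀^Fin q]→ₗ[ZMod p] ZMod p :=
    { evMul p (Vx p X) q g with
      map_eq_zero_of_eq' := fun m i j hij hne =>
        evMul_alt p (Vx p X) q g h1 h2 m i j hij hne }
  let f : ∀ i, (Vx p X →₀ ZMod p) [⋀^Fin i]→ₗ[ZMod p] ZMod p := Pi.single q A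
  refine ⟨ExteriorAlgebra.liftAlternating f, fun w => ?_⟩
  have e1 : word (List.ofFn w) =
      ExteriorAlgebra.ιMulti (ZMod p) q (fun i => Finsupp.single (w i) (1 : ZMod p)) := by
    rw [ExteriorAlgebra.ιMulti_apply, word, List.map_ofFn]
    rfl
  rw [e1, ExteriorAlgebra.liftAlternating_apply_ιMulti]
  have e2 : f q = A := Pi.single_eq_same (M := fun i => (Vx p X →₀ ZMod p) [⋀^Fin i]→ₗ[ZMod p] ZMod p) q A
  rw [e2]
  change evMul p (Vx p X) q g (fun i => Finsupp.single (w i) (1 : ZMod p)) = g w
  rw [evMul_apply, Finset.sum_eq_single w]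
  · simp
  · intro w' _ hw'
    obtain ⟨i, hi⟩ := Function.ne_iff.1 hw'
    rw [Finset.prod_eq_zero (Finset.mem_univ i), mul_zero]
    exact Finsupp.single_eq_of_ne hi
  · intro h
    exact absurd (Finset.mem_univ _) h

end Pool.Agent.Lib.MP_90aff6_co.CT
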