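import Pool.Agent.Lib.MP_90aff6_co.CT.Iface

set_option autoImplicit false

/-!
Board CT, row EXT: calculus of words in the exterior algebra.
-/

namespace Pool.Agent.Lib.MP_90aff6_co.CT.Ext

open scoped BigOperators

variable {p : ℕ} {X : Type}

theorem eps_single (v : Vx p X) : eps p X (Finsupp.single v (1 : ZMod p)) = 1 := by
  unfold eps
  rw [Finsupp.linearCombination_single, smul_eq_mul, mul_one]

theorem bd_gen_mul (v : Vx p X) (x : EA p X) :
    bd p X (gen v * x) = x - gen v * bd p X x := by
  have h := CliffordAlgebra.contractLeft_ι_mul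
    (Q := (0 : QuadraticForm (ZMod p) (Vx p X →₀ ZMod p))) (d := eps p X)
    (Finsupp.single v (1 : ZMod p)) x
  rw [eps_single, one_smul] at h
  exact h

theorem bd_one : bd p X 1 = 0 :=
  CliffordAlgebra.contractLeft_one (Q := (0 : QuadraticForm (ZMod p) (Vx p X →₀ ZMod p))) _

theorem lk_gen_mul [DecidableEq X] (v w : Vx p X) (x : EA p X) :
    lk v (gen w * x) = (if v = w then x else 0) - gen w * lk v x := by
  have h := CliffordAlgebra.contractLeft_ι_mul
    (Q := (0 : QuadraticForm (ZMod p) (Vx p X →₀ ZMod p)))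
    (d := (Finsupp.lapply v : (Vx p X →₀ ZMod p) →ₗ[ZMod p] ZMod p))
    (Finsupp.single w (1 : ZMod p)) x
  have h2 : (Finsupp.lapply v : (Vx p X →₀ ZMod p) →ₗ[ZMod p] ZMod p)
      (Finsupp.single w (1 : ZMod p)) • x = (if v = w then x else 0) := by
    rw [Finsupp.lapply_apply, Finsupp.single_apply]
    by_cases hvw : w = v
    · rw [if_pos hvw, if_pos hvw.symm, one_smul]
    · rw [if_neg hvw, if_neg (fun h => hvw h.symm), zero_smul]
  rw [h2] at h
  exact h

theorem lk_bd (v : Vx p X) (x : EA p X) : lk v (bd p X x) = - bd p X (lk v x) :=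
  CliffordAlgebra.contractLeft_comm _ _ _

theorem bd_bd (x : EA p X) : bd p X (bd p X x) = 0 :=
  CliffordAlgebra.contractLeft_contractLeft _ _

theorem eps_map (a : ZMod p) (m : Vx p X →₀ ZMod p) :
    eps p X (Finsupp.lmapDomain (ZMod p) (ZMod p) (sh (X := X) a) m) = eps p X m := by
  have h : (eps p X) ∘ₗ (Finsupp.lmapDomain (ZMod p) (ZMod p) (sh (X := X) a)) = eps p X := by
    refine Finsupp.lhom_ext fun v b => ?_
    rw [LinearMap.comp_apply, Finsupp.lmapDomain_apply, Finsupp.mapDomain_single]
    unfold eps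
    rw [Finsupp.linearCombination_single, Finsupp.linearCombination_single]
  exact LinearMap.congr_fun h m

theorem act_ι_mul (a : ZMod p) (m : Vx p X →₀ ZMod p) (x : EA p X) :
    act a (ExteriorAlgebra.ι (ZMod p) m * x) =
      ExteriorAlgebra.ι (ZMod p) (Finsupp.lmapDomain (ZMod p) (ZMod p) (sh (X := X) a) m) *
        act a x := by
  show (ExteriorAlgebra.map _) (ExteriorAlgebra.ι (ZMod p) m * x) = _
  rw [map_mul, ExteriorAlgebra.map_apply_ι]
  rfl

theorem act_bd (a : ZMod p) (x : EA p X) : act a (bd p X x) = bd p X (act a x) := by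
  induction x using CliffordAlgebra.left_induction with
  | algebraMap r =>
    have h1 : bd p X (algebraMap (ZMod p) (EA p X) r) = 0 :=
      CliffordAlgebra.contractLeft_algebraMap _ _ _
    have h2 : act a (algebraMap (ZMod p) (EA p X) r) = algebraMap (ZMod p) (EA p X) r :=
      AlgHom.commutes _ _
    have h3 : act a (bd p X (algebraMap (ZMod p) (EA p X) r)) =
        bd p X (act a (algebraMap (ZMod p) (EA p X) r)) := by
      rw [h1, h2, h1, map_zero]
    exact h3
  | add x y hx hy => rw [map_add, map_add, map_add, map_add, hx, hy]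
  | ι_mul x m hx =>
    have h1 : ∀ (m : Vx p X →₀ ZMod p) (x : EA p X),
        bd p X (ExteriorAlgebra.ι (ZMod p) m * x) =
          eps p X m • x - ExteriorAlgebra.ι (ZMod p) m * bd p X x := fun m x =>
      CliffordAlgebra.contractLeft_ι_mul
        (Q := (0 : QuadraticForm (ZMod p) (Vx p X →₀ ZMod p))) (d := eps p X) m x
    have h2 : act a (bd p X (ExteriorAlgebra.ι (ZMod p) m * x)) =
        bd p X (act a (ExteriorAlgebra.ι (ZMod p) m * x)) := by
      rw [h1, act_ι_mul, h1, eps_map, map_sub, map_smul, act_ι_mul, hx]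
    exact h2

theorem act_act (a b : ZMod p) (x : EA p X) : act a (act b x) = act (a + b) x := by
  have h : (ExteriorAlgebra.map (Finsupp.lmapDomain (ZMod p) (ZMod p) (sh (X := X) a))).comp
      (ExteriorAlgebra.map (Finsupp.lmapDomain (ZMod p) (ZMod p) (sh (X := X) b))) =
      ExteriorAlgebra.map (Finsupp.lmapDomain (ZMod p) (ZMod p) (sh (X := X) (a + b))) := by
    rw [ExteriorAlgebra.map_comp_map, ← Finsupp.lmapDomain_comp]
    congr 2
    funext v
    show ((v.1, v.2 + b + a) : Vx p X) = (v.1, v.2 + (a + b))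
    rw [add_assoc, add_comm b a]
  exact AlgHom.congr_fun h x

theorem act_zero (x : EA p X) : act 0 x = x := by
  have h : ExteriorAlgebra.map (Finsupp.lmapDomain (ZMod p) (ZMod p) (sh (X := X) (0 : ZMod p))) =
      AlgHom.id (ZMod p) (EA p X) := by
    have h1 : (sh (X := X) (0 : ZMod p)) = id := by
      funext v
      show ((v.1, v.2 + 0) : Vx p X) = v
      rw [add_zero]
    rw [h1, Finsupp.lmapDomain_id, ExteriorAlgebra.map_id]
  exact AlgHom.congr_fun h x

theorem word_cons (v : Vx p X) (l : List (Vx p X)) : word (v :: l) = gen v * word l := by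
  unfold word
  rw [List.map_cons, List.prod_cons]

theorem word_nil : word ([] : List (Vx p X)) = 1 := rfl

theorem act_gen_mul (a : ZMod p) (v : Vx p X) (x : EA p X) :
    act a (gen v * x) = gen (sh a v) * act a x := by
  unfold gen
  rw [act_ι_mul, Finsupp.lmapDomain_apply, Finsupp.mapDomain_single]

theorem act_one (a : ZMod p) : act a (1 : EA p X) = 1 :=
  map_one (ExteriorAlgebra.map (Finsupp.lmapDomain (ZMod p) (ZMod p) (sh (X := X) a)))

theorem act_word (a : ZMod p) (l : List (Vx p X)) : act a (word l) = word (l.map (sh a)) := by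
  induction l with
  | nil => exact act_one a
  | cons v l ih => rw [List.map_cons, word_cons, word_cons, act_gen_mul, ih]

theorem bd_word (n : ℕ) : ∀ w : Fin (n + 1) → Vx p X, bd p X (word (List.ofFn w)) =
    ∑ i : Fin (n + 1), (-1 : ZMod p) ^ (i : ℕ) • word (List.ofFn (w ∘ i.succAbove)) := by
  induction n with
  | zero =>
    intro w
    rw [List.ofFn_succ, List.ofFn_zero, word_cons, bd_gen_mul, word_nil, bd_one, mul_zero,
      sub_zero, Fin.sum_univ_one]
    simp [word_nil]
  | succ n ih =>
    intro w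
    rw [List.ofFn_succ, word_cons, bd_gen_mul, ih]
    conv_rhs => rw [Fin.sum_univ_succ]
    have h0 : (-1 : ZMod p) ^ (((0 : Fin (n + 2)) : ℕ)) •
        word (List.ofFn (w ∘ (0 : Fin (n + 2)).succAbove)) =
        word (List.ofFn fun i : Fin (n + 1) => w i.succ) := by
      rw [Fin.val_zero, pow_zero, one_smul]
      congr 1
    rw [h0, Finset.mul_sum, sub_eq_add_neg, ← Finset.sum_neg_distrib]
    congr 1
    refine Finset.sum_congr rfl fun i _ => ?_
    rw [List.ofFn_succ, word_cons, mul_smul_comm, Fin.val_succ, pow_succ, mul_neg_one, neg_smul]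
    congr 2
    show _ * _ = gen (w (i.succ.succAbove 0)) * word (List.ofFn fun j : Fin n =>
      w (i.succ.succAbove j.succ))
    rw [Fin.succ_succAbove_zero]
    congr 3
    funext j
    show w (i.succAbove j).succ = w (i.succ.succAbove j.succ)
    rw [Fin.succ_succAbove_succ]

theorem ext : ExtStatement := by
  intro p X _
  exact ⟨bd_gen_mul, lk_gen_mul, lk_bd, bd_bd, act_bd, act_act, act_zero, act_word, bd_word⟩

end Pool.Agent.Lib.MP_90aff6_co.CT.Ext
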