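import Pool.Agent.Lib.MP_90aff6_co.CT.Iface

/-!
Board CT, row FOU: real vectors whose Fourier coefficients at `1, .., (p - 1) / 2` vanish are
constant.
-/

set_option autoImplicit false

namespace Pool.Agent.Lib.MP_90aff6_co.CT

open scoped BigOperators ZMod ComplexConjugate

theorem fou : FouStatement := by
  intro p hp hp2 Y hY
  haveI : NeZero p := ⟨hp.out.ne_zero⟩
  have hodd : p % 2 = 1 := Nat.odd_iff.1 (hp.out.odd_of_ne_two hp2)
  let Φ : ZMod p → ℂ := fun i => (Y i : ℂ)
  have hneg : ∀ x : ZMod p, zt p (-x) = conj (zt p x) := by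
    intro x
    exact AddChar.map_neg_eq_conj _ _
  have hconj : ∀ x : ZMod p, conj (∑ i : ZMod p, zt p (x * i) * (Y i : ℂ)) =
      ∑ i : ZMod p, zt p (-(x * i)) * (Y i : ℂ) := by
    intro x
    rw [map_sum]
    refine Finset.sum_congr rfl fun i _ => ?_
    rw [map_mul, Complex.conj_ofReal, hneg]
  have hz : ∀ k : ZMod p, k ≠ 0 → 𝓕 Φ k = 0 := by
    intro k hk
    have h1 : 𝓕 Φ k = ∑ i : ZMod p, zt p (-(k * i)) * (Y i : ℂ) := by
      rw [ZMod.dft_apply]
      refine Finset.sum_congr rfl fun i _ => ?_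
      rw [mul_comm i k]
      rfl
    rw [h1]
    by_cases h2 : k.val ≤ (p - 1) / 2
    · have h3 := hY k.val (Nat.pos_of_ne_zero fun h => hk ((ZMod.val_eq_zero k).1 h)) h2
      rw [ZMod.natCast_zmod_val] at h3
      rw [← hconj, h3, map_zero]
    · have hkn : (-k) ≠ 0 := neg_ne_zero.2 hk
      have h4 : (-k).val = p - k.val := by
        haveI : NeZero k := ⟨hk⟩
        exact ZMod.val_neg_of_ne_zero k
      have h5 := hY (-k).val (Nat.pos_of_ne_zero fun h => hkn ((ZMod.val_eq_zero (-k)).1 h))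
        (by rw [h4]; omega)
      rw [ZMod.natCast_zmod_val] at h5
      rw [← h5]
      refine Finset.sum_congr rfl fun i _ => ?_
      rw [neg_mul]
  have hinv : ∀ j : ZMod p, Φ j = (p : ℂ)⁻¹ * 𝓕 Φ 0 := by
    intro j
    have h1 : 𝓕⁻ (𝓕 Φ) j = Φ j := by
      rw [LinearEquiv.symm_apply_apply]
    rw [← h1, ZMod.invDFT_apply]
    rw [Finset.sum_eq_single 0]
    · simp
    · intro k _ hk
      rw [hz k hk, smul_zero]
    · intro h
      exact absurd (Finset.mem_univ _) h
  intro i j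
  have h1 := hinv i
  rw [← hinv j] at h1
  exact Complex.ofReal_injective h1

end Pool.Agent.Lib.MP_90aff6_co.CT
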