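import Pool.Agent.Lib.MP_90aff6_co.CT.Iface

set_option autoImplicit false

/-!
Row HA: alternation of `HH`, invariance under linear maps of positive determinant, and the
positive relation.
-/

namespace Pool.Agent.Lib.MP_90aff6_co.CT

open scoped BigOperators

section Ha

variable {q : ℕ}

/-- The matrix of the vectors `a r` with a first column `v`. -/
noncomputable def cm (v : Fin (q + 1) → ℝ) (a : Fin (q + 1) → Fin q → ℝ) :
    Matrix (Fin (q + 1)) (Fin (q + 1)) ℝ :=
  Matrix.of fun r => Fin.cons (v r) (a r)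

theorem det_cm (v : Fin (q + 1) → ℝ) (a : Fin (q + 1) → Fin q → ℝ) :
    (cm v a).det = ∑ i, v i * mu a i := by
  rw [Matrix.det_succ_column_zero]
  refine Finset.sum_congr rfl fun i _ => ?_
  have e : (cm v a).submatrix i.succAbove Fin.succ = Matrix.of fun r => a (i.succAbove r) := by
    ext r c
    simp [cm]
  rw [e]
  simp only [cm, mu, Matrix.of_apply, Fin.cons_zero]
  ring

theorem mu_eq_det (a : Fin (q + 1) → Fin q → ℝ) (i : Fin (q + 1)) :
    mu a i = (cm (fun r => if r = i then 1 else 0) a).det := by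
  rw [det_cm]
  simp

/-- The linear relation given by the minors. -/
theorem mu_rel (a : Fin (q + 1) → Fin q → ℝ) (r : Fin q) : ∑ i, mu a i * a i r = 0 := by
  have h : (cm (fun i => a i r) a).det = 0 := by
    refine Matrix.det_zero_of_column_eq (i := 0) (j := r.succ) (Fin.succ_ne_zero r).symm ?_
    intro i
    simp [cm]
  rw [det_cm] at h
  rw [← h]
  exact Finset.sum_congr rfl fun i _ => mul_comm _ _

/-- Alternation of the minors. -/
theorem mu_perm (a : Fin (q + 1) → Fin q → ℝ) (σ : Equiv.Perm (Fin (q + 1))) (i : Fin (q + 1)) :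
    mu (fun i => a (σ i)) i = ((Equiv.Perm.sign σ : ℤ) : ℝ) * mu a (σ i) := by
  rw [mu_eq_det, mu_eq_det]
  have e : cm (fun r => if r = i then (1 : ℝ) else 0) (fun i => a (σ i))
      = (cm (fun r => if r = σ i then (1 : ℝ) else 0) a).submatrix σ id := by
    ext r c
    simp [cm]
  rw [e, Matrix.det_permute]

/-- The minors of the images under a linear map. -/
theorem mu_lin (T : Matrix (Fin q) (Fin q) ℝ) (a : Fin (q + 1) → Fin q → ℝ) (i : Fin (q + 1)) :
    mu (fun i => T.mulVec (a i)) i = T.det * mu a i := by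
  unfold mu
  have e : (Matrix.of fun r => T.mulVec (a (i.succAbove r)))
      = (Matrix.of fun r => a (i.succAbove r)) * T.transpose := by
    ext r c
    simp [Matrix.mul_apply, Matrix.mulVec, dotProduct, mul_comm]
  rw [e, Matrix.det_mul, Matrix.det_transpose]
  ring

theorem HH_pos {a : Fin (q + 1) → Fin q → ℝ} (h : ∀ i, 0 < mu a i) : HH a = 1 := by
  unfold HH; rw [if_pos h]

theorem HH_neg {a : Fin (q + 1) → Fin q → ℝ} (h : ∀ i, mu a i < 0) : HH a = -1 := by
  unfold HH
  rw [if_neg, if_pos h]
  intro h'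
  exact lt_asymm (h 0) (h' 0)

theorem HH_none {a : Fin (q + 1) → Fin q → ℝ} (h : ¬ ∀ i, 0 < mu a i) (h' : ¬ ∀ i, mu a i < 0) :
    HH a = 0 := by
  unfold HH; rw [if_neg h, if_neg h']

theorem ha : HaStatement := by
  intro q a σ
  rcases Int.units_eq_one_or (Equiv.Perm.sign σ) with hs | hs
  · have hm : ∀ i, mu (fun i => a (σ i)) i = mu a (σ i) := by
      intro i; rw [mu_perm, hs]; simp
    rw [hs]
    by_cases h : ∀ i, 0 < mu a i
    · rw [HH_pos h, HH_pos fun i => by rw [hm]; exact h _]; simp
    by_cases h' : ∀ i, mu a i < 0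
    · rw [HH_neg h', HH_neg fun i => by rw [hm]; exact h' _]; simp
    rw [HH_none h h', HH_none]
    · simp
    · intro g
      refine h fun i => ?_
      have := g (σ.symm i)
      rwa [hm, Equiv.apply_symm_apply] at this
    · intro g
      refine h' fun i => ?_
      have := g (σ.symm i)
      rwa [hm, Equiv.apply_symm_apply] at this
  · have hm : ∀ i, mu (fun i => a (σ i)) i = - mu a (σ i) := by
      intro i; rw [mu_perm, hs]; simp
    rw [hs]
    by_cases h : ∀ i, 0 < mu a i
    · rw [HH_pos h, HH_neg fun i => by rw [hm]; exact neg_neg_of_pos (h _)]; simp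
    by_cases h' : ∀ i, mu a i < 0
    · rw [HH_neg h', HH_pos fun i => by rw [hm]; exact neg_pos_of_neg (h' _)]; simp
    rw [HH_none h h', HH_none]
    · simp
    · intro g
      refine h' fun i => ?_
      have := g (σ.symm i)
      rw [hm, Equiv.apply_symm_apply] at this
      linarith
    · intro g
      refine h fun i => ?_
      have := g (σ.symm i)
      rw [hm, Equiv.apply_symm_apply] at this
      linarith

theorem ht : HtStatement := by
  intro q T hT a
  have hm : ∀ i, mu (fun i => T.mulVec (a i)) i = T.det * mu a i := mu_lin T a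
  by_cases h : ∀ i, 0 < mu a i
  · rw [HH_pos h, HH_pos fun i => by rw [hm]; exact mul_pos hT (h i)]
  by_cases h' : ∀ i, mu a i < 0
  · rw [HH_neg h', HH_neg fun i => by rw [hm]; exact mul_neg_of_pos_of_neg hT (h' i)]
  rw [HH_none h h', HH_none]
  · intro g
    refine h fun i => ?_
    have := g i
    rw [hm] at this
    exact (mul_pos_iff_of_pos_left hT).1 this
  · intro g
    refine h' fun i => ?_
    have := g i
    rw [hm] at this
    by_contra hc
    exact absurd this (not_lt.2 (mul_nonneg hT.le (not_lt.1 hc)))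

theorem hr : HrStatement := by
  intro q a hne
  by_cases h : ∀ i, 0 < mu a i
  · exact ⟨mu a, h, mu_rel a⟩
  by_cases h' : ∀ i, mu a i < 0
  · refine ⟨fun i => - mu a i, fun i => neg_pos_of_neg (h' i), fun r => ?_⟩
    have := mu_rel a r
    simp only [neg_mul, Finset.sum_neg_distrib, this, neg_zero]
  exact absurd (HH_none h h') hne

end Ha

end Pool.Agent.Lib.MP_90aff6_co.CT
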