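import Pool.Agent.Lib.MP_90aff6_co.CT.Iface

/-!
Board CT, row HC: the cocycle identity for the signed indicator `HH`.
-/

set_option autoImplicit false

namespace Pool.Agent.Lib.MP_90aff6_co.CT

open scoped BigOperators

namespace Hc

/-! ### Planar configurations -/

/-- Antisymmetric matrix with the three term Plücker relations. -/
structure Pl {ι : Type} (N : ι → ι → ℝ) : Prop where
  anti : ∀ i j, N i j = - N j i
  ne : ∀ i j, i ≠ j → N i j ≠ 0
  plu : ∀ i j k l, N j k * N i l = N i k * N j l - N i j * N k l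

theorem Pl.neg {ι : Type} {N : ι → ι → ℝ} (h : Pl N) : Pl (fun i j => - N i j) where
  anti i j := by rw [h.anti i j]
  ne i j hij := neg_ne_zero.2 (h.ne i j hij)
  plu i j k l := by
    have := h.plu i j k l
    simp only [neg_mul_neg]
    exact this

theorem Pl.exists_neg {ι : Type} [Fintype ι] [DecidableEq ι] {N : ι → ι → ℝ} (h : Pl N) {i l : ι}
    (hl : l ≠ i) (hi : ∀ j, j ≠ i → 0 < N i j) : ∃ k, ∀ j, j ≠ k → N k j < 0 := by
  have hne : (Finset.univ.erase i).Nonempty := ⟨l, Finset.mem_erase.2 ⟨hl, Finset.mem_univ _⟩⟩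
  obtain ⟨k, hk, hmin⟩ := Finset.exists_min_image (Finset.univ.erase i) (fun j => N j l / N i j) hne
  have hki : k ≠ i := Finset.ne_of_mem_erase hk
  refine ⟨k, fun j hj => ?_⟩
  by_cases hji : j = i
  · subst hji
    rw [h.anti]
    have := hi k hki
    linarith
  · have h1 := hmin j (Finset.mem_erase.2 ⟨hji, Finset.mem_univ _⟩)
    have h2 := hi j hji
    have h3 := hi k hki
    have h4 := hi l hl
    rw [div_le_div_iff₀ h3 h2] at h1
    have h5 := h.plu i j k l
    have h6 : 0 ≤ N j k * N i l := by rw [h5]; linarith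
    have h7 : 0 ≤ N j k := by
      by_contra h8
      have := mul_neg_of_neg_of_pos (not_le.1 h8) h4
      linarith
    have h8 : N j k ≠ 0 := h.ne j k hj
    have h9 : 0 < N j k := lt_of_le_of_ne h7 (Ne.symm h8)
    rw [h.anti]
    linarith

open Classical in
/-- The value of a row. -/
noncomputable def val {ι : Type} (N : ι → ι → ℝ) (i : ι) : ℤ :=
  if ∀ j, j ≠ i → 0 < N i j then 1 else if ∀ j, j ≠ i → N i j < 0 then -1 else 0

theorem Pl.sum {ι : Type} [Fintype ι] [DecidableEq ι] [Nontrivial ι] {N : ι → ι → ℝ} (h : Pl N) :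
    ∑ i, val N i = 0 := by
  classical
  by_cases hp : ∃ i, ∀ j, j ≠ i → 0 < N i j
  · obtain ⟨i, hi⟩ := hp
    obtain ⟨l, hl⟩ := exists_ne i
    obtain ⟨k, hk⟩ := h.exists_neg hl hi
    have hik : i ≠ k := by
      rintro rfl
      have h1 := hi l hl
      have h2 := hk l hl
      linarith
    have hvi : val N i = 1 := if_pos hi
    have hvk : val N k = -1 := by
      unfold val
      rw [if_neg, if_pos hk]
      intro h1
      have h2 := h1 i hik
      have h3 := hk i hik
      linarith
    have hv0 : ∀ j ∈ Finset.univ, j ∉ ({i, k} : Finset ι) → val N j = 0 := by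
      intro j _ hj
      rw [Finset.mem_insert, Finset.mem_singleton, not_or] at hj
      unfold val
      rw [if_neg, if_neg]
      · intro h1
        have h2 := h1 k (Ne.symm hj.2)
        have h3 := hk j hj.2
        rw [h.anti] at h3
        linarith
      · intro h1
        have h2 := h1 i (Ne.symm hj.1)
        have h3 := hi j hj.1
        rw [h.anti] at h3
        linarith
    rw [← Finset.sum_subset (Finset.subset_univ _) hv0, Finset.sum_pair hik, hvi, hvk]
    norm_num
  · by_cases hn : ∃ i, ∀ j, j ≠ i → N i j < 0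
    · exfalso
      obtain ⟨i, hi⟩ := hn
      obtain ⟨l, hl⟩ := exists_ne i
      obtain ⟨k, hk⟩ := h.neg.exists_neg hl (fun j hj => by have := hi j hj; linarith)
      exact hp ⟨k, fun j hj => by have := hk j hj; linarith⟩
    · refine Finset.sum_eq_zero fun i _ => ?_
      unfold val
      rw [if_neg (fun h1 => hp ⟨i, h1⟩), if_neg (fun h1 => hn ⟨i, h1⟩)]

/-! ### Minors -/

theorem rel {q : ℕ} (b : Fin (q + 1) → Fin q → ℝ) (c : Fin q) : ∑ r, mu b r * b r c = 0 := by
  let B : Matrix (Fin (q + 1)) (Fin (q + 1)) ℝ := Matrix.of fun r => Fin.cons (b r c) (b r)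
  have h0 : B.det = 0 := by
    refine Matrix.det_zero_of_column_eq (i := 0) (j := c.succ) (Fin.succ_ne_zero c).symm fun r => ?_
    simp [B]
  rw [Matrix.det_succ_column_zero] at h0
  rw [← h0]
  refine Finset.sum_congr rfl fun r _ => ?_
  unfold mu
  have h1 : (Matrix.of fun t => b (r.succAbove t)) = B.submatrix r.succAbove Fin.succ := by
    ext s t
    simp [B]
  rw [h1]
  simp [B]
  ring

/-- The rows of minors. -/
noncomputable def NN {q : ℕ} (a : Fin (q + 2) → Fin q → ℝ) (i : Fin (q + 2)) : Fin (q + 2) → ℝ :=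
  i.insertNth (α := fun _ => ℝ) (0 : ℝ) (fun r => (-1 : ℝ) ^ (i : ℕ) * mu (fun r => a (i.succAbove r)) r)

variable {q : ℕ} (a : Fin (q + 2) → Fin q → ℝ)

theorem NN_same (i : Fin (q + 2)) : NN a i i = 0 := by
  unfold NN
  exact Fin.insertNth_apply_same _ _ _

theorem NN_sa (i : Fin (q + 2)) (r : Fin (q + 1)) : NN a i (i.succAbove r) =
    (-1 : ℝ) ^ (i : ℕ) * mu (fun r => a (i.succAbove r)) r := by
  unfold NN
  exact Fin.insertNth_apply_succAbove _ _ _ _

theorem NN_anti_aux (i : Fin (q + 2)) (r : Fin (q + 1)) :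
    NN a (i.succAbove r) i = - NN a i (i.succAbove r) := by
  have e1 : (i.succAbove r).succAbove (r.predAbove i) = i := Fin.succAbove_succAbove_predAbove i r
  have h1 := NN_sa a (i.succAbove r) (r.predAbove i)
  rw [e1] at h1
  rw [h1, NN_sa]
  unfold mu
  have h2 : (Matrix.of fun t => a ((i.succAbove r).succAbove ((r.predAbove i).succAbove t))) =
      Matrix.of fun t => a (i.succAbove (r.succAbove t)) := by
    ext s t
    simp only [Matrix.of_apply]
    rw [Fin.succAbove_succAbove_succAbove_predAbove]
  simp only at h2 ⊢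
  rw [h2, ← mul_assoc, ← mul_assoc, ← pow_add, ← pow_add,
    Fin.neg_one_pow_succAbove_add_predAbove]
  ring

theorem NN_anti (i j : Fin (q + 2)) : NN a i j = - NN a j i := by
  rcases Fin.eq_self_or_eq_succAbove i j with rfl | ⟨r, rfl⟩
  · rw [NN_same]; ring
  · rw [NN_anti_aux]; ring

theorem NN_rel (i : Fin (q + 2)) (c : Fin q) : ∑ k, NN a i k * a k c = 0 := by
  rw [Fin.sum_univ_succAbove _ i, NN_same, zero_mul, zero_add]
  have h := rel (fun r => a (i.succAbove r)) c
  have h1 : ∑ r, NN a i (i.succAbove r) * a (i.succAbove r) c =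
      (-1 : ℝ) ^ (i : ℕ) * ∑ r, mu (fun r => a (i.succAbove r)) r * a (i.succAbove r) c := by
    rw [Finset.mul_sum]
    refine Finset.sum_congr rfl fun r _ => ?_
    rw [NN_sa]; ring
  rw [h1, h, mul_zero]

theorem NN_ne (ha : ∀ s : Fin q → Fin (q + 2), Function.Injective s →
    Matrix.det (Matrix.of fun r => a (s r)) ≠ 0) (i j : Fin (q + 2)) (hij : i ≠ j) :
    NN a i j ≠ 0 := by
  rcases Fin.eq_self_or_eq_succAbove i j with rfl | ⟨r, rfl⟩
  · exact absurd rfl hij
  · rw [NN_sa]
    unfold mu
    refine mul_ne_zero (pow_ne_zero _ (by norm_num)) (mul_ne_zero (pow_ne_zero _ (by norm_num)) ?_)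
    exact ha (fun t => i.succAbove (r.succAbove t))
      (Fin.succAbove_right_injective.comp Fin.succAbove_right_injective)

/-- A relation with two zero coordinates vanishes. -/
theorem rel_zero (ha : ∀ s : Fin q → Fin (q + 2), Function.Injective s →
    Matrix.det (Matrix.of fun r => a (s r)) ≠ 0) (V : Fin (q + 2) → ℝ)
    (hV : ∀ c, ∑ k, V k * a k c = 0) {i l : Fin (q + 2)} (hil : i ≠ l) (hi : V i = 0)
    (hl : V l = 0) (k : Fin (q + 2)) : V k = 0 := by
  rcases Fin.eq_self_or_eq_succAbove i l with rfl | ⟨r, rfl⟩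
  · exact absurd rfl hil
  · have hdet := ha (fun t => i.succAbove (r.succAbove t))
      (Fin.succAbove_right_injective.comp Fin.succAbove_right_injective)
    have h1 : Matrix.vecMul (fun t => V (i.succAbove (r.succAbove t)))
        (Matrix.of fun t => a (i.succAbove (r.succAbove t))) = 0 := by
      funext c
      have h2 := hV c
      rw [Fin.sum_univ_succAbove _ i, Fin.sum_univ_succAbove _ r, hi, hl] at h2
      simp only [zero_mul, zero_add] at h2
      show ∑ t, V (i.succAbove (r.succAbove t)) * a (i.succAbove (r.succAbove t)) c = 0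
      exact h2
    have h3 := Matrix.eq_zero_of_vecMul_eq_zero hdet h1
    rcases Fin.eq_self_or_eq_succAbove i k with rfl | ⟨s, rfl⟩
    · exact hi
    · rcases Fin.eq_self_or_eq_succAbove r s with rfl | ⟨t, rfl⟩
      · exact hl
      · exact congrFun h3 t

theorem NN_pl (ha : ∀ s : Fin q → Fin (q + 2), Function.Injective s →
    Matrix.det (Matrix.of fun r => a (s r)) ≠ 0) : Pl (NN a) where
  anti := NN_anti a
  ne := NN_ne a ha
  plu := by
    intro i j k l
    by_cases hil : i = l
    · subst hil
      rw [NN_same, NN_anti a j i, NN_anti a k i]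
      ring
    · have h := rel_zero a ha
        (fun k => NN a i l * NN a j k - NN a j l * NN a i k - NN a i j * NN a l k) (by
          intro c
          have h1 := NN_rel a j c
          have h2 := NN_rel a i c
          have h3 := NN_rel a l c
          have h4 : ∑ k, (NN a i l * NN a j k - NN a j l * NN a i k - NN a i j * NN a l k) * a k c =
              NN a i l * ∑ k, NN a j k * a k c - NN a j l * ∑ k, NN a i k * a k c -
                NN a i j * ∑ k, NN a l k * a k c := by
            rw [Finset.mul_sum, Finset.mul_sum, Finset.mul_sum, ← Finset.sum_sub_distrib,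
              ← Finset.sum_sub_distrib]
            refine Finset.sum_congr rfl fun k _ => ?_
            ring
          rw [h4, h1, h2, h3]; ring) hil (by
          rw [NN_same, NN_anti a j i, NN_anti a l i]; ring) (by
          rw [NN_same]; ring) k
      rw [NN_anti a l k] at h
      linarith

theorem val_NN (i : Fin (q + 2)) : val (NN a) i =
    (-1 : ℤ) ^ (i : ℕ) * HH (fun r => a (i.succAbove r)) := by
  classical
  have h1 : (∀ j, j ≠ i → 0 < NN a i j) ↔
      ∀ r, 0 < (-1 : ℝ) ^ (i : ℕ) * mu (fun r => a (i.succAbove r)) r := by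
    constructor
    · intro h r
      rw [← NN_sa]
      exact h _ (Fin.succAbove_ne i r)
    · intro h j hj
      rcases Fin.eq_self_or_eq_succAbove i j with rfl | ⟨r, rfl⟩
      · exact absurd rfl hj
      · rw [NN_sa]; exact h r
  have h2 : (∀ j, j ≠ i → NN a i j < 0) ↔
      ∀ r, (-1 : ℝ) ^ (i : ℕ) * mu (fun r => a (i.succAbove r)) r < 0 := by
    constructor
    · intro h r
      rw [← NN_sa]
      exact h _ (Fin.succAbove_ne i r)
    · intro h j hj
      rcases Fin.eq_self_or_eq_succAbove i j with rfl | ⟨r, rfl⟩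
      · exact absurd rfl hj
      · rw [NN_sa]; exact h r
  unfold val HH
  simp only [h1, h2]
  rcases Nat.even_or_odd (i : ℕ) with he | ho
  · simp only [he.neg_one_pow, one_mul]
  · simp only [ho.neg_one_pow, neg_one_mul, neg_pos, neg_neg_iff_pos]
    by_cases h3 : ∀ r, mu (fun r => a (i.succAbove r)) r < 0
    · rw [if_pos h3, if_neg, if_pos h3]
      · norm_num
      · intro h4
        have h5 := h3 0
        have h6 := h4 0
        linarith
    · rw [if_neg h3]
      by_cases h4 : ∀ r, 0 < mu (fun r => a (i.succAbove r)) r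
      · rw [if_pos h4, if_pos h4]
      · rw [if_neg h4, if_neg h4, if_neg h3]
        norm_num

end Hc

open Hc in
/-- HC: the cocycle identity. -/
theorem hc : HcStatement := by
  intro q a ha
  have h := (NN_pl a ha).sum
  rw [← h]
  exact Finset.sum_congr rfl fun i _ => (val_NN a i).symm

end Pool.Agent.Lib.MP_90aff6_co.CT
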