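import Pool.Agent.Lib.MP_90aff6_co.CT.Iface

set_option autoImplicit false

/-! The determinant with two rows in the last plane. -/

namespace Pool.Agent.Lib.MP_90aff6_co.CT

open scoped BigOperators

lemma vec_castAdd (q : ℕ) (z : ℕ → ℂ) (i : Fin q) :
    vec (q + 2) z (Fin.castAdd 2 i) = vec q z i := by
  simp [vec]

lemma vec_natAdd_zero (m : ℕ) (z : ℕ → ℂ) :
    vec (2 * m + 2) z (Fin.natAdd (2 * m) (0 : Fin 2)) = (z m).re := by
  have h1 : (2 * m) % 2 = 0 := by omega
  have h2 : (2 * m) / 2 = m := by omega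
  simp [vec, h2]

lemma vec_natAdd_one (m : ℕ) (z : ℕ → ℂ) :
    vec (2 * m + 2) z (Fin.natAdd (2 * m) (1 : Fin 2)) = (z m).im := by
  have h1 : (2 * m + 1) % 2 = 1 := by omega
  have h2 : (2 * m + 1) / 2 = m := by omega
  simp [vec, h1, h2]

/-- Block determinant: two rows supported in the plane number `m`. -/
theorem det_rays (m : ℕ) (b : Fin (2 * m) → ℕ → ℂ) (z1 z2 : ℂ) :
    Matrix.det (Matrix.of fun s : Fin (2 * m + 2) => vec (2 * m + 2)
      ((Fin.snoc (α := fun _ => ℕ → ℂ) (Fin.snoc (α := fun _ => ℕ → ℂ) b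
        (fun i => if i = m then z1 else 0)) (fun i => if i = m then z2 else 0) :
        Fin (2 * m + 1 + 1) → ℕ → ℂ) s)) =
      Matrix.det (Matrix.of fun s => vec (2 * m) (b s)) * (z1.re * z2.im - z1.im * z2.re) := by
  classical
  set M := (Matrix.of fun s : Fin (2 * m + 2) => vec (2 * m + 2)
      ((Fin.snoc (α := fun _ => ℕ → ℂ) (Fin.snoc (α := fun _ => ℕ → ℂ) b
        (fun i => if i = m then z1 else 0)) (fun i => if i = m then z2 else 0) :
        Fin (2 * m + 1 + 1) → ℕ → ℂ) s)) with hM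
  have hr1 : ∀ i : Fin (2 * m), (Fin.snoc (α := fun _ => ℕ → ℂ)
      (Fin.snoc (α := fun _ => ℕ → ℂ) b
        (fun i => if i = m then z1 else 0)) (fun i => if i = m then z2 else 0) :
        Fin (2 * m + 1 + 1) → ℕ → ℂ) (Fin.castAdd 2 i) = b i := by
    intro i
    have : (Fin.castAdd 2 i : Fin (2 * m + 1 + 1)) = Fin.castSucc (Fin.castSucc i) := rfl
    rw [this]
    simp
  have hr2 : (Fin.snoc (α := fun _ => ℕ → ℂ)
      (Fin.snoc (α := fun _ => ℕ → ℂ) b
        (fun i => if i = m then z1 else 0)) (fun i => if i = m then z2 else 0) :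
        Fin (2 * m + 1 + 1) → ℕ → ℂ) (Fin.natAdd (2 * m) (0 : Fin 2)) =
        (fun i => if i = m then z1 else 0) := by
    have : (Fin.natAdd (2 * m) (0 : Fin 2) : Fin (2 * m + 1 + 1)) =
        Fin.castSucc (Fin.last (2 * m)) := by ext; simp
    rw [this]
    simp
  have hr3 : (Fin.snoc (α := fun _ => ℕ → ℂ)
      (Fin.snoc (α := fun _ => ℕ → ℂ) b
        (fun i => if i = m then z1 else 0)) (fun i => if i = m then z2 else 0) :
        Fin (2 * m + 1 + 1) → ℕ → ℂ) (Fin.natAdd (2 * m) (1 : Fin 2)) =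
        (fun i => if i = m then z2 else 0) := by
    have : (Fin.natAdd (2 * m) (1 : Fin 2) : Fin (2 * m + 1 + 1)) =
        Fin.last (2 * m + 1) := by ext; simp
    rw [this]
    simp
  have hblock : M.submatrix (finSumFinEquiv (m := 2 * m) (n := 2))
      (finSumFinEquiv (m := 2 * m) (n := 2)) =
      Matrix.fromBlocks (Matrix.of fun s => vec (2 * m) (b s))
        (Matrix.of fun (s : Fin (2 * m)) (c : Fin 2) =>
          vec (2 * m + 2) (b s) (Fin.natAdd (2 * m) c)) 0
        !![z1.re, z1.im; z2.re, z2.im] := by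
    ext r c
    rcases r with r | r <;> rcases c with c | c
    · simp only [Matrix.submatrix_apply, finSumFinEquiv_apply_left, Matrix.fromBlocks_apply₁₁,
        Matrix.of_apply, hM]
      rw [hr1, vec_castAdd]
    · simp only [Matrix.submatrix_apply, finSumFinEquiv_apply_left, finSumFinEquiv_apply_right,
        Matrix.fromBlocks_apply₁₂, Matrix.of_apply, hM]
      rw [hr1]
    · simp only [Matrix.submatrix_apply, finSumFinEquiv_apply_left, finSumFinEquiv_apply_right,
        Matrix.fromBlocks_apply₂₁, Matrix.of_apply, hM, Matrix.zero_apply]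
      have hc : ((c : ℕ)) / 2 ≠ m := by have := c.2; omega
      obtain rfl | rfl : r = 0 ∨ r = 1 := by fin_cases r <;> simp
      · rw [hr2, vec_castAdd]
        simp [vec, hc]
      · rw [hr3, vec_castAdd]
        simp [vec, hc]
    · simp only [Matrix.submatrix_apply, finSumFinEquiv_apply_right,
        Matrix.fromBlocks_apply₂₂, Matrix.of_apply, hM]
      obtain rfl | rfl : r = 0 ∨ r = 1 := by fin_cases r <;> simp
      all_goals obtain rfl | rfl : c = 0 ∨ c = 1 := by fin_cases c <;> simp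
      · rw [hr2, vec_natAdd_zero]; simp
      · rw [hr2, vec_natAdd_one]; simp
      · rw [hr3, vec_natAdd_zero]; simp
      · rw [hr3, vec_natAdd_one]; simp
  rw [← Matrix.det_submatrix_equiv_self (finSumFinEquiv (m := 2 * m) (n := 2)) M, hblock,
    Matrix.det_fromBlocks_zero₂₁, Matrix.det_fin_two_of]

end Pool.Agent.Lib.MP_90aff6_co.CT
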