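import Pool.Agent.Lib.MP_90aff6_co.CT.IndAux
import Pool.Agent.Lib.MP_90aff6_co.CT.Block

set_option autoImplicit false

/-! IND: a generic test map has a zero. -/

namespace Pool.Agent.Lib.MP_90aff6_co.CT

open scoped BigOperators

/-- `snoc` for sequences of complex numbers. -/
abbrev sn {N : ℕ} (b : Fin N → ℕ → ℂ) (x : ℕ → ℂ) : Fin (N + 1) → ℕ → ℂ :=
  Fin.snoc (α := fun _ => ℕ → ℂ) b x

lemma vec_sn {N : ℕ} (q : ℕ) (b : Fin N → ℕ → ℂ) (x : ℕ → ℂ) :
    (fun s => vec q (sn b x s)) =
      (Fin.snoc (α := fun _ => Fin q → ℝ) (fun r => vec q (b r)) (vec q x) :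
        Fin (N + 1) → Fin q → ℝ) := by
  funext s
  refine Fin.lastCases ?_ (fun s => ?_) s
  · simp [sn]
  · simp [sn]

lemma vec_neg (q : ℕ) (x : ℕ → ℂ) : vec q (-x) = - vec q x := by
  funext i
  simp only [vec, Pi.neg_apply]
  split_ifs <;> simp

lemma det_snoc_neg {K : ℕ} (b : Fin K → Fin (K + 1) → ℝ) (x : Fin (K + 1) → ℝ) :
    Matrix.det (Matrix.of (Fin.snoc (α := fun _ => Fin (K + 1) → ℝ) b (-x))) =
      - Matrix.det (Matrix.of (Fin.snoc (α := fun _ => Fin (K + 1) → ℝ) b x)) := by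
  have h1 : Matrix.of (Fin.snoc (α := fun _ => Fin (K + 1) → ℝ) b (-x)) =
      (Matrix.of (Fin.snoc (α := fun _ => Fin (K + 1) → ℝ) b x)).updateRow (Fin.last K)
        ((-1 : ℝ) • x) := by
    ext r c
    refine Fin.lastCases ?_ (fun r => ?_) r
    · simp
    · rw [Matrix.updateRow_ne (Fin.castSucc_lt_last r).ne]
      simp
  have h2 : (Matrix.of (Fin.snoc (α := fun _ => Fin (K + 1) → ℝ) b x)).updateRow (Fin.last K) x =
      Matrix.of (Fin.snoc (α := fun _ => Fin (K + 1) → ℝ) b x) := by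
    ext r c
    refine Fin.lastCases ?_ (fun r => ?_) r
    · simp
    · rw [Matrix.updateRow_ne (Fin.castSucc_lt_last r).ne]
  rw [h1, Matrix.det_updateRow_smul, h2]
  ring

section faces

variable {p : ℕ} {X Q : Type}

lemma isFace_ofFn {cl : X → Q} {A : Finset X} {B : Finset (Q × ZMod p)} {q : ℕ}
    {w : Fin q → Vx p X} :
    IsFace cl A B (List.ofFn w) ↔ Function.Injective (fun i => (w i).1) ∧
      Function.Injective (fun i => (cl (w i).1, (w i).2)) ∧
      (∀ i, (w i).1 ∈ A) ∧ ∀ i, (cl (w i).1, (w i).2) ∈ B := by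
  unfold IsFace
  rw [List.map_ofFn, List.map_ofFn, List.nodup_ofFn, List.nodup_ofFn, List.forall_mem_ofFn_iff,
    List.forall_mem_ofFn_iff]
  rfl

lemma isFace_comp {cl : X → Q} {A : Finset X} {B : Finset (Q × ZMod p)} {q q' : ℕ}
    {w : Fin q → Vx p X} (hw : IsFace cl A B (List.ofFn w)) (t : Fin q' → Fin q)
    (ht : Function.Injective t) : IsFace cl A B (List.ofFn (fun i => w (t i))) := by
  rw [isFace_ofFn] at hw ⊢
  obtain ⟨h1, h2, h3, h4⟩ := hw
  exact ⟨h1.comp ht, h2.comp ht, fun i => h3 _, fun i => h4 _⟩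

end faces

section defs

variable {p : ℕ} [NeZero p] {X : Type}

/-- The index cochain. -/
noncomputable def hh (e : ℕ → ZMod p) (f : X → ℕ → ℂ) (m : ℕ) (w : Fin (2 * m + 1) → Vx p X) :
    ℤ := HH (fun s => vec (2 * m) (FF e f (w s)))

/-- The ray cochain. -/
noncomputable def gg (e : ℕ → ZMod p) (f : X → ℕ → ℂ) (m : ℕ) (j : ZMod p)
    (w : Fin (2 * m + 2) → Vx p X) : ℤ :=
  HH (fun s : Fin (2 * m + 2 + 1) => vec (2 * m + 2)
    (sn (fun r => FF e f (w r)) (- ray p m j) s))

/-- The sector cochain. -/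
noncomputable def ee (e : ℕ → ZMod p) (f : X → ℕ → ℂ) (m : ℕ) (j : ZMod p)
    (w : Fin (2 * m + 1) → Vx p X) : ℤ :=
  HH (fun s : Fin (2 * m + 2 + 1) => vec (2 * m + 2)
    (sn (sn (fun r => FF e f (w r)) (- ray p m j)) (- ray p m (j + 1)) s))

lemma hh_alt (hHa : HaStatement) (e : ℕ → ZMod p) (f : X → ℕ → ℂ) (m : ℕ)
    (w : Fin (2 * m + 1) → Vx p X) (σ : Equiv.Perm (Fin (2 * m + 1))) :
    hh e f m (w ∘ σ) = (Equiv.Perm.sign σ : ℤ) * hh e f m w :=
  hHa (2 * m) (fun s => vec (2 * m) (FF e f (w s))) σ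

lemma gg_alt (hHa : HaStatement) (e : ℕ → ZMod p) (f : X → ℕ → ℂ) (m : ℕ) (j : ZMod p)
    (w : Fin (2 * m + 2) → Vx p X) (σ : Equiv.Perm (Fin (2 * m + 2))) :
    gg e f m j (w ∘ σ) = (Equiv.Perm.sign σ : ℤ) * gg e f m j w := by
  obtain ⟨τ, hs, h1, h2⟩ := exists_extend σ
  have h3 := snoc_perm (fun r => FF e f (w r)) (- ray p m j) σ τ h1 h2
  have h4 := hHa (2 * m + 2) (fun s : Fin (2 * m + 2 + 1) => vec (2 * m + 2)
    (sn (fun r => FF e f (w r)) (- ray p m j) s)) τ
  rw [hs] at h4
  unfold gg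
  rw [← h4]
  congr 1
  funext s
  exact congrArg (vec (2 * m + 2)) (congrFun h3 s)

lemma ee_alt (hHa : HaStatement) (e : ℕ → ZMod p) (f : X → ℕ → ℂ) (m : ℕ) (j : ZMod p)
    (w : Fin (2 * m + 1) → Vx p X) (σ : Equiv.Perm (Fin (2 * m + 1))) :
    ee e f m j (w ∘ σ) = (Equiv.Perm.sign σ : ℤ) * ee e f m j w := by
  obtain ⟨τ, hs, h1, h2⟩ := exists_extend σ
  obtain ⟨τ', hs', h1', h2'⟩ := exists_extend τ
  have h3 := snoc_perm (fun r => FF e f (w r)) (- ray p m j) σ τ h1 h2
  have h3' := snoc_perm (sn (fun r => FF e f (w r)) (- ray p m j)) (- ray p m (j + 1)) τ τ' h1' h2'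
  have h4 := hHa (2 * m + 2) (fun s : Fin (2 * m + 2 + 1) => vec (2 * m + 2)
    (sn (sn (fun r => FF e f (w r)) (- ray p m j)) (- ray p m (j + 1)) s)) τ'
  rw [hs', hs] at h4
  unfold ee
  rw [← h4]
  congr 1
  funext s
  refine congrArg (vec (2 * m + 2)) ?_
  have h5 : (sn (fun r => FF e f ((w ∘ σ) r)) (- ray p m j)) =
      (sn (fun r => FF e f (w r)) (- ray p m j)) ∘ τ := h3
  rw [h5]
  exact congrFun h3' s

lemma exists_ev [Fintype X] [DecidableEq X] (hEv : EvStatement) {q : ℕ}
    (G : (Fin q → Vx p X) → ℤ)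
    (hG : ∀ (w : Fin q → Vx p X) (σ : Equiv.Perm (Fin q)),
      G (w ∘ σ) = (Equiv.Perm.sign σ : ℤ) * G w) :
    ∃ φ : EA p X →ₗ[ZMod p] ZMod p, ∀ w : Fin q → Vx p X, φ (word (List.ofFn w)) = (G w : ZMod p) := by
  refine hEv p X q (fun w => (G w : ZMod p)) (fun w σ => ?_) (fun w hw => ?_)
  · rw [hG]; push_cast; ring
  · rw [zero_of_alt G hG w hw]; simp

lemma zt_add (a b : ZMod p) : zt p (a + b) = zt p a * zt p b := by
  unfold zt
  exact AddChar.map_add_eq_mul _ _ _

lemma norm_zt (a : ZMod p) : ‖zt p a‖ = 1 := by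
  unfold zt
  exact AddChar.norm_apply _ _

lemma FF_sh (e : ℕ → ZMod p) (f : X → ℕ → ℂ) (a : ZMod p) (v : Vx p X) (i : ℕ) :
    FF e f (sh a v) i = zt p (e i * a) * FF e f v i := by
  simp only [FF, sh]
  rw [mul_add, zt_add]
  ring

lemma ray_sh (e : ℕ → ZMod p) (m : ℕ) (a j : ZMod p) (i : ℕ) :
    ray p m j i = zt p (e i * a) * ray p m (j - e m * a) i := by
  unfold ray
  split_ifs with h
  · subst h
    rw [← zt_add]
    congr 1
    ring
  · simp

lemma gg_sh (hRot : RotStatement) (e : ℕ → ZMod p) (f : X → ℕ → ℂ) (m : ℕ) (j a : ZMod p)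
    (w : Fin (2 * m + 2) → Vx p X) :
    gg e f m j (fun s => sh a (w s)) = gg e f m (j - e m * a) w := by
  have hfam : ∀ s : Fin (2 * m + 2 + 1), (fun i => zt p (e i * a) *
      sn (fun r => FF e f (w r)) (- ray p m (j - e m * a)) s i) =
      sn (fun r => FF e f (sh a (w r))) (- ray p m j) s := by
    intro s
    funext i
    refine Fin.lastCases ?_ (fun s => ?_) s
    · simp only [sn, Fin.snoc_last, Pi.neg_apply]
      rw [ray_sh e m a j i]
      ring
    · simp only [sn, Fin.snoc_castSucc]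
      rw [FF_sh]
  have h1 := hRot (m + 1) (fun i => zt p (e i * a)) (fun i => norm_zt _)
    (sn (fun r => FF e f (w r)) (- ray p m (j - e m * a)))
  unfold gg
  refine Eq.trans ?_ h1
  congr 1
  funext s
  exact congrArg (vec (2 * m + 2)) (hfam s).symm

lemma ee_sh (hRot : RotStatement) (e : ℕ → ZMod p) (f : X → ℕ → ℂ) (m : ℕ) (j a : ZMod p)
    (w : Fin (2 * m + 1) → Vx p X) :
    ee e f m j (fun s => sh a (w s)) = ee e f m (j - e m * a) w := by
  have hfam : ∀ s : Fin (2 * m + 2 + 1), (fun i => zt p (e i * a) *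
      sn (sn (fun r => FF e f (w r)) (- ray p m (j - e m * a))) (- ray p m (j - e m * a + 1)) s i) =
      sn (sn (fun r => FF e f (sh a (w r))) (- ray p m j)) (- ray p m (j + 1)) s := by
    intro s
    funext i
    refine Fin.lastCases ?_ (fun s => ?_) s
    · simp only [sn, Fin.snoc_last, Pi.neg_apply]
      rw [ray_sh e m a (j + 1) i, show j + 1 - e m * a = j - e m * a + 1 by ring]
      ring
    · refine Fin.lastCases ?_ (fun s => ?_) s
      · simp only [sn, Fin.snoc_castSucc, Fin.snoc_last, Pi.neg_apply]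
        rw [ray_sh e m a j i]
        ring
      · simp only [sn, Fin.snoc_castSucc]
        rw [FF_sh]
  have h1 := hRot (m + 1) (fun i => zt p (e i * a)) (fun i => norm_zt _)
    (sn (sn (fun r => FF e f (w r)) (- ray p m (j - e m * a))) (- ray p m (j - e m * a + 1)))
  unfold ee
  refine Eq.trans ?_ h1
  congr 1
  funext s
  exact congrArg (vec (2 * m + 2)) (hfam s).symm

end defs

lemma sector_pos {p : ℕ} [Fact p.Prime] (hp2 : p ≠ 2) (j : ZMod p) :
    0 < (zt p j).re * (zt p (j + 1)).im - (zt p j).im * (zt p (j + 1)).re := by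
  have h1 : zt p (j + 1) = zt p j * zt p 1 := zt_add _ _
  have h2 : (zt p j).re ^ 2 + (zt p j).im ^ 2 = 1 := by
    have := norm_zt (p := p) j
    have h3 : Complex.normSq (zt p j) = 1 := by
      rw [Complex.normSq_eq_norm_sq, this]; norm_num
    rw [Complex.normSq_apply] at h3
    nlinarith
  have h3 : zt p 1 = Complex.exp ((2 * Real.pi / p : ℝ) * Complex.I) := by
    unfold zt
    have := ZMod.stdAddChar_coe (N := p) 1
    simp only [Int.cast_one] at this
    rw [this]
    congr 1
    push_cast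
    ring
  have hp3 : 3 ≤ p := by
    have := (Fact.out : p.Prime).two_le
    omega
  have h4 : 0 < (zt p 1).im := by
    rw [h3, Complex.exp_ofReal_mul_I_im]
    apply Real.sin_pos_of_pos_of_lt_pi
    · positivity
    · rw [div_lt_iff₀ (by positivity)]
      have : (3 : ℝ) ≤ p := by exact_mod_cast hp3
      nlinarith [Real.pi_pos]
  have h5 : (zt p j).re * (zt p (j + 1)).im - (zt p j).im * (zt p (j + 1)).re =
      (zt p 1).im := by
    rw [h1]
    simp only [Complex.mul_re, Complex.mul_im]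
    linear_combination (zt p 1).im * h2
  rw [h5]
  exact h4

section main

variable {p : ℕ} [Fact p.Prime] {X Q : Type} [Fintype X] [Fintype Q]
  {cl : X → Q} {e : ℕ → ZMod p} {n : ℕ} {f : X → ℕ → ℂ}

lemma gen1 (hGen : Gen cl e n f) {m : ℕ} (hm : m ≤ n) {N : ℕ} {w : Fin N → Vx p X}
    (hw : IsFace cl Finset.univ Finset.univ (List.ofFn w)) (t : Fin (2 * m) → Fin N)
    (ht : Function.Injective t) :
    Matrix.det (Matrix.of fun r => vec (2 * m) (FF e f (w (t r)))) ≠ 0 :=
  hGen.1 m hm (fun r => w (t r)) (isFace_comp hw t ht)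

lemma gen2 (hGen : Gen cl e n f) {m : ℕ} (hm : m < n) {N : ℕ} {w : Fin N → Vx p X}
    (hw : IsFace cl Finset.univ Finset.univ (List.ofFn w)) (t : Fin (2 * m + 1) → Fin N)
    (ht : Function.Injective t) (j : ZMod p) :
    Matrix.det (Matrix.of (Fin.snoc (α := fun _ => Fin (2 * m + 2) → ℝ)
      (fun r => vec (2 * m + 2) (FF e f (w (t r)))) (vec (2 * m + 2) (- ray p m j)))) ≠ 0 := by
  have h := hGen.2 m hm (fun r => w (t r)) (isFace_comp hw t ht) j
  rw [vec_neg, det_snoc_neg, neg_ne_zero]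
  have h2 := vec_sn (2 * m + 2) (fun r => FF e f (w (t r))) (ray p m j)
  rw [← h2]
  exact h

lemma gp_one (hGen : Gen cl e n f) {m : ℕ} (hm : m < n) {N : ℕ} {w : Fin N → Vx p X}
    (hw : IsFace cl Finset.univ Finset.univ (List.ofFn w)) (j : ZMod p)
    (s : Fin (2 * m + 2) → Fin (N + 1)) (hs : Function.Injective s) :
    Matrix.det (Matrix.of fun r => vec (2 * m + 2)
      (sn (fun r => FF e f (w r)) (- ray p m j) (s r))) ≠ 0 := by
  have h := gp_snoc (K := 2 * m + 1) (fun r => vec (2 * m + 2) (FF e f (w r)))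
    (vec (2 * m + 2) (- ray p m j)) (fun t ht => gen1 hGen (m := m + 1) hm hw t ht)
    (fun t ht => gen2 hGen hm hw t ht j) s hs
  have h2 := vec_sn (2 * m + 2) (fun r => FF e f (w r)) (- ray p m j)
  rw [← h2] at h
  exact h

lemma gp_two (hp2 : p ≠ 2) (hGen : Gen cl e n f) {m : ℕ} (hm : m < n) {N : ℕ}
    {w : Fin N → Vx p X}
    (hw : IsFace cl Finset.univ Finset.univ (List.ofFn w)) (j : ZMod p)
    (s : Fin (2 * m + 2) → Fin (N + 2)) (hs : Function.Injective s) :
    Matrix.det (Matrix.of fun r => vec (2 * m + 2)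
      (sn (sn (fun r => FF e f (w r)) (- ray p m j)) (- ray p m (j + 1)) (s r))) ≠ 0 := by
  have hv := vec_sn (2 * m + 2) (fun r => FF e f (w r)) (- ray p m j)
  have h := gp_snoc (K := 2 * m + 1)
    (fun r => vec (2 * m + 2) (sn (fun r => FF e f (w r)) (- ray p m j) r))
    (vec (2 * m + 2) (- ray p m (j + 1))) (fun t ht => gp_one hGen hm hw j t ht)
    (fun t ht => ?_) s hs
  · have h2 := vec_sn (2 * m + 2) (sn (fun r => FF e f (w r)) (- ray p m j)) (- ray p m (j + 1))
    rw [← h2] at h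
    exact h
  · have h3 := gp_snoc2 (K := 2 * m) (fun r => vec (2 * m + 2) (FF e f (w r)))
      (vec (2 * m + 2) (- ray p m j)) (vec (2 * m + 2) (- ray p m (j + 1)))
      (fun t ht => gen2 hGen hm hw t ht (j + 1)) (fun t ht => ?_) t ht
    · rw [← hv] at h3
      exact h3
    · have h4 := det_rays m (fun r => FF e f (w (t r))) (- zt p j) (- zt p (j + 1))
      have h5 := gen1 hGen (m := m) hm.le hw t ht
      have h6 := sector_pos hp2 j
      have h7 : (fun s : Fin (2 * m + 2) => vec (2 * m + 2)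
          ((Fin.snoc (α := fun _ => ℕ → ℂ) (Fin.snoc (α := fun _ => ℕ → ℂ)
            (fun r => FF e f (w (t r)))
            (fun i => if i = m then - zt p j else 0)) (fun i => if i = m then - zt p (j + 1) else 0) :
            Fin (2 * m + 1 + 1) → ℕ → ℂ) s)) =
          (Fin.snoc (α := fun _ => Fin (2 * m + 2) → ℝ)
            (Fin.snoc (α := fun _ => Fin (2 * m + 2) → ℝ)
              (fun r => vec (2 * m + 2) (FF e f (w (t r)))) (vec (2 * m + 2) (- ray p m j)))
            (vec (2 * m + 2) (- ray p m (j + 1))) : Fin (2 * m + 1 + 1) → Fin (2 * m + 2) → ℝ) := by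
        have r1 : ∀ j : ZMod p, (fun i => if i = m then - zt p j else 0) = - ray p m j := by
          intro j; funext i; simp only [ray, Pi.neg_apply]; split_ifs <;> simp
        rw [r1, r1]
        have r2 := vec_sn (2 * m + 2) (sn (fun r => FF e f (w (t r))) (- ray p m j))
          (- ray p m (j + 1))
        have r3 := vec_sn (2 * m + 2) (fun r => FF e f (w (t r))) (- ray p m j)
        rw [r3] at r2
        exact r2
      rw [h7] at h4
      rw [h4]
      refine mul_ne_zero h5 ?_
      simp only [Complex.neg_re, Complex.neg_im]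
      intro h8
      nlinarith

/-- The coboundary of the ray cochain. -/
lemma cocyc_g (hHc : HcStatement) (hGen : Gen cl e n f) {m : ℕ} (hm : m < n) (j : ZMod p)
    (w : Fin (2 * m + 2 + 1) → Vx p X)
    (hw : IsFace cl Finset.univ Finset.univ (List.ofFn w)) :
    ∑ i : Fin (2 * m + 2 + 1), (-1 : ℤ) ^ (i : ℕ) * gg e f m j (w ∘ i.succAbove) =
      hh e f (m + 1) w := by
  have h := hHc (2 * m + 2) (fun s => vec (2 * m + 2)
    (sn (fun r => FF e f (w r)) (- ray p m j) s)) (fun s hs => gp_one hGen hm hw j s hs)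
  rw [Fin.sum_univ_castSucc] at h
  have h1 : ∀ i : Fin (2 * m + 2 + 1), HH (fun r : Fin (2 * m + 2 + 1) => vec (2 * m + 2)
      (sn (fun r => FF e f (w r)) (- ray p m j) (i.castSucc.succAbove r))) =
      gg e f m j (w ∘ i.succAbove) := by
    intro i
    unfold gg
    congr 1
    funext r
    exact congrArg (vec (2 * m + 2))
      (congrFun (snoc_succAbove (fun r => FF e f (w r)) (- ray p m j) i) r)
  have h2 : HH (fun r : Fin (2 * m + 2 + 1) => vec (2 * m + 2)
      (sn (fun r => FF e f (w r)) (- ray p m j) ((Fin.last (2 * m + 2 + 1)).succAbove r))) =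
      hh e f (m + 1) w := by
    unfold hh
    congr 1
    funext r
    refine congrArg (vec (2 * m + 2)) ?_
    rw [Fin.succAbove_last]
    simp [sn]
  rw [h2] at h
  rw [Finset.sum_congr rfl (fun i _ => by rw [h1 i])] at h
  have h3 : (-1 : ℤ) ^ ((Fin.last (2 * m + 2 + 1) : Fin (2 * m + 2 + 1 + 1)) : ℕ) = -1 := by
    rw [Fin.val_last]
    exact Odd.neg_one_pow ⟨m + 1, by ring⟩
  rw [h3] at h
  simp only [Fin.val_castSucc] at h
  linarith

/-- The coboundary of the sector cochain. -/
lemma cocyc_e (hp2 : p ≠ 2) (hHc : HcStatement) (hGen : Gen cl e n f) {m : ℕ} (hm : m < n)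
    (j : ZMod p) (w : Fin (2 * m + 1 + 1) → Vx p X)
    (hw : IsFace cl Finset.univ Finset.univ (List.ofFn w)) :
    ∑ i : Fin (2 * m + 1 + 1), (-1 : ℤ) ^ (i : ℕ) * ee e f m j (w ∘ i.succAbove) =
      gg e f m j w - gg e f m (j + 1) w := by
  have h := hHc (2 * m + 2) (fun s => vec (2 * m + 2)
    (sn (sn (fun r => FF e f (w r)) (- ray p m j)) (- ray p m (j + 1)) s))
    (fun s hs => gp_two hp2 hGen hm hw j s hs)
  rw [Fin.sum_univ_castSucc, Fin.sum_univ_castSucc] at h
  have h1 : ∀ i : Fin (2 * m + 1 + 1), HH (fun r : Fin (2 * m + 2 + 1) => vec (2 * m + 2)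
      (sn (sn (fun r => FF e f (w r)) (- ray p m j)) (- ray p m (j + 1))
        (i.castSucc.castSucc.succAbove r))) =
      ee e f m j (w ∘ i.succAbove) := by
    intro i
    unfold ee
    congr 1
    funext r
    refine congrArg (vec (2 * m + 2)) ?_
    have a1 := congrFun (snoc_succAbove (sn (fun r => FF e f (w r)) (- ray p m j))
      (- ray p m (j + 1)) i.castSucc) r
    have a2 := snoc_succAbove (fun r => FF e f (w r)) (- ray p m j) i
    refine a1.trans ?_
    have a3 : (fun r => sn (fun r => FF e f (w r)) (- ray p m j) (i.castSucc.succAbove r)) =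
      sn (fun r => FF e f ((w ∘ i.succAbove) r)) (- ray p m j) := a2
    rw [a3]
  have h2 : HH (fun r : Fin (2 * m + 2 + 1) => vec (2 * m + 2)
      (sn (sn (fun r => FF e f (w r)) (- ray p m j)) (- ray p m (j + 1))
        ((Fin.last (2 * m + 2 + 1)).succAbove r))) = gg e f m j w := by
    unfold gg
    congr 1
    funext r
    refine congrArg (vec (2 * m + 2)) ?_
    rw [Fin.succAbove_last]
    simp [sn]
  have h4 : HH (fun r : Fin (2 * m + 2 + 1) => vec (2 * m + 2)
      (sn (sn (fun r => FF e f (w r)) (- ray p m j)) (- ray p m (j + 1))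
        ((Fin.last (2 * m + 1 + 1)).castSucc.succAbove r))) = gg e f m (j + 1) w := by
    unfold gg
    congr 1
    funext r
    refine congrArg (vec (2 * m + 2)) ?_
    have a1 := congrFun (snoc_succAbove (sn (fun r => FF e f (w r)) (- ray p m j))
      (- ray p m (j + 1)) (Fin.last (2 * m + 1 + 1))) r
    refine a1.trans ?_
    have a3 : (fun r => sn (fun r => FF e f (w r)) (- ray p m j)
        ((Fin.last (2 * m + 1 + 1)).succAbove r)) = (fun r => FF e f (w r)) := by
      funext r
      rw [Fin.succAbove_last]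
      simp [sn]
    rw [a3]
  rw [h2, h4] at h
  rw [Finset.sum_congr rfl (fun i _ => by rw [h1 i])] at h
  have h3 : (-1 : ℤ) ^ ((Fin.last (2 * m + 2 + 1) : Fin (2 * m + 2 + 1 + 1)) : ℕ) = -1 := by
    rw [Fin.val_last]
    exact Odd.neg_one_pow ⟨m + 1, by ring⟩
  have h5 : (-1 : ℤ) ^ (((Fin.last (2 * m + 1 + 1) : Fin (2 * m + 1 + 1 + 1)).castSucc :
      Fin (2 * m + 1 + 1 + 1 + 1)) : ℕ) = 1 := by
    rw [Fin.val_castSucc, Fin.val_last]
    exact Even.neg_one_pow ⟨m + 1, by ring⟩
  rw [h3, h5] at h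
  simp only [Fin.val_castSucc] at h
  linarith

/-- IND. -/
theorem ind (hExt : ExtStatement) (hChn : ChnStatement) (hEv : EvStatement)
    (hHc : HcStatement) (hHa : HaStatement) (hHr : HrStatement) (hRot : RotStatement)
    (hSec : SecStatement) : IndStatement := by
  intro p _ hp2 X Q _ _ _ _ _ cl hcl n hn e he f hGen
  classical
  obtain ⟨-, -, -, -, -, -, -, hactw, hbdw⟩ := hExt p X
  obtain ⟨c, hc0, hcC, hc1, hc2⟩ := hChn p X Q cl hcl
  choose φh hφh using fun m => exists_ev (p := p) (X := X) hEv (hh e f m) (hh_alt hHa e f m)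
  choose φg hφg using fun m j => exists_ev (p := p) (X := X) hEv (gg e f m j) (gg_alt hHa e f m j)
  choose φe hφe using fun m j => exists_ev (p := p) (X := X) hEv (ee e f m j) (ee_alt hHa e f m j)
  -- the recursion
  have hrec : ∀ m, m < n → φh (m + 1) (c (2 * m + 2)) = e m * φh m (c (2 * m)) := by
    intro m hm
    have hcA : c (2 * m) ∈ CC cl Finset.univ Finset.univ (2 * m + 1) := hcC _ (by omega)
    have hcB : c (2 * m + 1) ∈ CC cl Finset.univ Finset.univ (2 * m + 2) := hcC _ (by omega)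
    have hcD : c (2 * m + 2) ∈ CC cl Finset.univ Finset.univ (2 * m + 2 + 1) := hcC _ (by omega)
    -- (i)
    have s1 : φh (m + 1) (c (2 * m + 2)) = φg m 0 (bd p X (c (2 * m + 2))) := by
      refine CC_ext (cl := cl) (φh (m + 1)) ((φg m 0) ∘ₗ (bd p X)) (fun w hw => ?_) _ hcD
      have h1 := hφh (m + 1) w
      rw [LinearMap.comp_apply, hbdw (2 * m + 2) w, map_sum]
      have h2 := cocyc_g hHc hGen hm 0 w hw
      have h3 : φh (m + 1) (word (List.ofFn w)) = (hh e f (m + 1) w : ZMod p) := h1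
      rw [h3, ← h2]
      push_cast
      refine Finset.sum_congr rfl (fun i _ => ?_)
      rw [map_smul, hφg, smul_eq_mul]
    -- (ii)
    have s2 : ∀ a : ZMod p, φg m 0 (act a (c (2 * m + 1))) =
        φg m (0 - e m * a) (c (2 * m + 1)) := by
      intro a
      refine CC_ext (cl := cl) ((φg m 0) ∘ₗ (act a)) (φg m (0 - e m * a)) (fun w hw => ?_) _ hcB
      rw [LinearMap.comp_apply, hactw, List.map_ofFn, hφg, hφg]
      have := gg_sh hRot e f m 0 a w
      have h2 : (sh a ∘ w) = fun s => sh a (w s) := rfl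
      rw [h2, this]
    have s3 : φh (m + 1) (c (2 * m + 2)) = ∑ j : ZMod p, φg m j (c (2 * m + 1)) := by
      rw [s1, hc2 m (by omega), map_sum, Finset.sum_congr rfl (fun a _ => s2 a)]
      refine Fintype.sum_bijective (fun a : ZMod p => 0 - e m * a) ?_ _ _ (fun a => rfl)
      constructor
      · intro a b hab
        have h1 : e m * a = e m * b := by
          have : (0 : ZMod p) - e m * a = 0 - e m * b := hab
          linear_combination -this
        exact mul_left_cancel₀ (he m) h1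
      · intro b
        refine ⟨-(e m)⁻¹ * b, ?_⟩
        have := he m
        field_simp
        ring
    have s4 : ∀ j : ZMod p, φg m j (c (2 * m + 1)) - φg m (j + 1) (c (2 * m + 1)) =
        φe m (j - e m) (c (2 * m)) - φe m j (c (2 * m)) := by
      intro j
      have h1 : (φg m j - φg m (j + 1)) (c (2 * m + 1)) = φe m j (bd p X (c (2 * m + 1))) := by
        refine CC_ext (cl := cl) (φg m j - φg m (j + 1)) ((φe m j) ∘ₗ (bd p X))
          (fun w hw => ?_) _ hcB
        rw [LinearMap.comp_apply, LinearMap.sub_apply, hφg, hφg]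
        have h2 := hbdw (2 * m + 1) w
        rw [h2, map_sum]
        have h3 := cocyc_e hp2 hHc hGen hm j w hw
        have h4 : ((gg e f m j w : ℤ) : ZMod p) - ((gg e f m (j + 1) w : ℤ) : ZMod p) =
          ((gg e f m j w - gg e f m (j + 1) w : ℤ) : ZMod p) := by push_cast; ring
        rw [h4, ← h3]
        push_cast
        refine Finset.sum_congr rfl (fun i _ => ?_)
        rw [map_smul, hφe, smul_eq_mul]
      rw [LinearMap.sub_apply] at h1
      rw [h1, hc1 m (by omega), map_sub]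
      have h5 : φe m j (act 1 (c (2 * m))) = φe m (j - e m * 1) (c (2 * m)) := by
        refine CC_ext (cl := cl) ((φe m j) ∘ₗ (act 1)) (φe m (j - e m * 1)) (fun w hw => ?_) _ hcA
        rw [LinearMap.comp_apply, hactw, List.map_ofFn, hφe, hφe]
        have := ee_sh hRot e f m j 1 w
        have h2 : (sh 1 ∘ w) = fun s => sh 1 (w s) := rfl
        rw [h2, this]
      rw [h5, mul_one]
    have s5 : ∑ j : ZMod p, φe m j (c (2 * m)) = φh m (c (2 * m)) := by
      have h1 : (∑ j : ZMod p, φe m j) (c (2 * m)) = φh m (c (2 * m)) := by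
        refine CC_ext (cl := cl) (∑ j : ZMod p, φe m j) (φh m) (fun w hw => ?_) _ hcA
        rw [LinearMap.sum_apply, hφh, Finset.sum_congr rfl (fun j _ => hφe m j w)]
        have h2 := hSec p hp2 m (fun r => FF e f (w r)) (fun i => ?_) (fun j => ?_)
        · have h3 : ∑ j : ZMod p, ee e f m j w = hh e f m w := h2
          rw [← h3]
          push_cast
          rfl
        · unfold mu
          refine mul_ne_zero (pow_ne_zero _ (by norm_num)) ?_
          exact gen1 hGen hm.le hw (fun r => i.succAbove r) (Fin.succAbove_right_injective)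
        · exact hGen.2 m hm w hw j
      rw [← h1, LinearMap.sum_apply]
    rw [s3, sum_alpha (fun j => φg m j (c (2 * m + 1))) (fun j => φe m j (c (2 * m))) (e m) s4, s5]
  -- the start
  have hstart : φh 0 (c 0) = 1 := by
    have h1 : (Algebra.linearMap (ZMod p) (EA p X)) (φh 0 (c 0)) = bd p X (c 0) := by
      have hcA : c 0 ∈ CC cl Finset.univ Finset.univ 1 := hcC 0 (by omega)
      refine LinearMap.eqOn_span (f := (Algebra.linearMap (ZMod p) (EA p X)) ∘ₗ (φh 0))
        (g := bd p X) ?_ hcA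
      rintro z ⟨l, hl, hlen, rfl⟩
      obtain ⟨v, rfl⟩ := List.length_eq_one_iff.1 hlen
      have h2 : word [v] = word (List.ofFn (fun _ : Fin 1 => v)) := by simp
      have h3 : φh 0 (word (List.ofFn (fun _ : Fin 1 => v))) =
          ((hh e f 0 (fun _ : Fin 1 => v) : ℤ) : ZMod p) := hφh 0 _
      have h4 : hh e f 0 (fun _ : Fin 1 => v) = 1 := by
        unfold hh HH mu
        simp
      rw [LinearMap.comp_apply, h2, h3, h4]
      have h5 := hbdw 0 (fun _ : Fin 1 => v)
      rw [h5]
      simp [word]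
    rw [hc0] at h1
    have h2 := congrArg ExteriorAlgebra.algebraMapInv h1
    rw [Algebra.linearMap_apply, ExteriorAlgebra.algebraMap_leftInverse, map_one] at h2
    exact h2
  have hprod : ∀ m, m ≤ n → φh m (c (2 * m)) ≠ 0 := by
    intro m
    induction m with
    | zero => intro _; rw [mul_zero, hstart]; exact one_ne_zero
    | succ m ih =>
      intro hm
      have h1 := hrec m hm
      have h2 : φh (m + 1) (c (2 * (m + 1))) = e m * φh m (c (2 * m)) := h1
      rw [h2]
      exact mul_ne_zero (he m) (ih (by omega))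
  -- the conclusion
  by_contra hcon
  push Not at hcon
  refine hprod n le_rfl ?_
  have hcA : c (2 * n) ∈ CC cl Finset.univ Finset.univ (2 * n + 1) := hcC _ hn
  have h1 := CC_ext (cl := cl) (φh n) 0 (fun w hw => ?_) _ hcA
  · rw [h1]; rfl
  · rw [hφh]
    by_cases h0 : hh e f n w = 0
    · rw [h0]; simp
    · exfalso
      obtain ⟨lam, hl, hrel⟩ := hHr (2 * n) (fun s => vec (2 * n) (FF e f (w s))) h0
      obtain ⟨m, hm, hne⟩ := hcon w hw lam hl
      apply hne
      have hre := hrel ⟨2 * m, by omega⟩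
      have him := hrel ⟨2 * m + 1, by omega⟩
      have e1 : (2 * m) % 2 = 0 := by omega
      have e2 : (2 * m) / 2 = m := by omega
      have e3 : (2 * m + 1) % 2 = 1 := by omega
      have e4 : (2 * m + 1) / 2 = m := by omega
      simp only [vec, e1, e2, e3, e4, if_true] at hre him
      apply Complex.ext
      · rw [Complex.re_sum]
        simpa using hre
      · rw [Complex.im_sum]
        simpa using him

end main

end Pool.Agent.Lib.MP_90aff6_co.CT
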