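import Pool.Agent.Lib.MP_90aff6_co.CT.Iface

set_option autoImplicit false

/-!
Row PLANE: the open sectors between consecutive rays tile the plane.
-/

namespace Pool.Agent.Lib.MP_90aff6_co.CT

open Real

section Plane

/-- The step of the angles. -/
noncomputable def th (p : ℕ) : ℝ := 2 * π / p

theorem zt_int (p : ℕ) [NeZero p] (k : ℤ) :
    (zt p (k : ZMod p)).re = cos (th p * k) ∧ (zt p (k : ZMod p)).im = sin (th p * k) := by
  have e : zt p (k : ZMod p) = Complex.exp ((th p * k : ℝ) * Complex.I) := by
    unfold zt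
    rw [ZMod.stdAddChar_coe]
    congr 1
    unfold th
    push_cast
    ring
  rw [e]
  exact ⟨Complex.exp_ofReal_mul_I_re _, Complex.exp_ofReal_mul_I_im _⟩

/-- The sign that decides the side of the line through the ray `j`. -/
noncomputable def sd (p : ℕ) [NeZero p] (z : ℂ) (j : ZMod p) : ℝ :=
  z.im * (zt p j).re - z.re * (zt p j).im

theorem sd_int (p : ℕ) [NeZero p] (z : ℂ) (k : ℤ) :
    sd p z (k : ZMod p) = ‖z‖ * sin (z.arg - th p * k) := by
  unfold sd
  rw [(zt_int p k).1, (zt_int p k).2, sin_sub]
  have h1 := Complex.norm_mul_cos_arg z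
  have h2 := Complex.norm_mul_sin_arg z
  rw [← h1, ← h2]
  ring

theorem th_pos (p : ℕ) [NeZero p] : 0 < th p := by
  have : (0 : ℝ) < p := by exact_mod_cast Nat.pos_of_ne_zero (NeZero.ne p)
  unfold th
  positivity

theorem th_mul (p : ℕ) [NeZero p] : th p * p = 2 * π := by
  have : (p : ℝ) ≠ 0 := by exact_mod_cast NeZero.ne p
  unfold th
  field_simp

theorem sin_th_pos (p : ℕ) [NeZero p] (hp : 3 ≤ p) : 0 < sin (th p) := by
  refine sin_pos_of_pos_of_lt_pi (th_pos p) ?_
  have h := th_mul p
  have h3 : (3 : ℝ) ≤ p := by exact_mod_cast hp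
  have := th_pos p
  have := pi_pos
  nlinarith

/-- A point is in the open sector number `k` iff it is on the right sides of the two rays. -/
theorem sector_iff (p : ℕ) [NeZero p] (hp : 3 ≤ p) (z : ℂ) (k : ℤ) :
    (∃ α β : ℝ, 0 < α ∧ 0 < β ∧ z = α * zt p (k : ZMod p) + β * zt p ((k : ZMod p) + 1)) ↔
      0 < sd p z (k : ZMod p) ∧ sd p z ((k : ZMod p) + 1) < 0 := by
  have hk : ((k : ZMod p) + 1) = ((k + 1 : ℤ) : ZMod p) := by push_cast; rfl
  have hS := sin_th_pos p hp
  obtain ⟨r1, i1⟩ := zt_int p k
  obtain ⟨r2, i2⟩ := zt_int p (k + 1)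
  rw [hk]
  have hdet : cos (th p * k) * sin (th p * ((k + 1 : ℤ) : ℝ))
      - sin (th p * k) * cos (th p * ((k + 1 : ℤ) : ℝ)) = sin (th p) := by
    have : th p = th p * ((k + 1 : ℤ) : ℝ) - th p * k := by push_cast; ring
    conv_rhs => rw [this, sin_sub]
    ring
  unfold sd
  rw [r1, i1, r2, i2]
  set c := cos (th p * k)
  set d := sin (th p * k)
  set c' := cos (th p * ((k + 1 : ℤ) : ℝ))
  set d' := sin (th p * ((k + 1 : ℤ) : ℝ))
  set S := sin (th p)
  constructor
  · rintro ⟨α, β, hα, hβ, hz⟩
    have hre : z.re = α * c + β * c' := by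
      rw [hz, Complex.add_re, Complex.re_ofReal_mul, Complex.re_ofReal_mul, r1, r2]
    have him : z.im = α * d + β * d' := by
      rw [hz, Complex.add_im, Complex.im_ofReal_mul, Complex.im_ofReal_mul, i1, i2]
    rw [hre, him]
    constructor
    · have : (α * d + β * d') * c - (α * c + β * c') * d = β * S := by
        rw [← hdet]; ring
      rw [this]; positivity
    · have : (α * d + β * d') * c' - (α * c + β * c') * d' = - (α * S) := by
        rw [← hdet]; ring
      rw [this]
      have : 0 < α * S := by positivity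
      linarith
  · rintro ⟨h1, h2⟩
    refine ⟨-(z.im * c' - z.re * d') / S, (z.im * c - z.re * d) / S, ?_, ?_, ?_⟩
    · exact div_pos (by linarith) hS
    · exact div_pos h1 hS
    · apply Complex.ext
      · simp only [Complex.add_re, Complex.mul_re, Complex.ofReal_re, Complex.ofReal_im, r1, r2]
        field_simp
        rw [← hdet]
        ring
      · simp only [Complex.add_im, Complex.mul_im, Complex.ofReal_re, Complex.ofReal_im, i1, i2]
        field_simp
        rw [← hdet]
        ring

theorem plane : PlaneStatement := by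
  intro p hpf hp2 z hz
  have hp3 : 3 ≤ p := by
    have := hpf.out.two_le
    omega
  have hz0 : z ≠ 0 := by
    rintro rfl
    have := hz 0
    simp at this
  have hn : 0 < ‖z‖ := norm_pos_iff.2 hz0
  have hth := th_pos p
  have hthp := th_mul p
  have hsd : ∀ j : ZMod p, sd p z j ≠ 0 := by
    intro j h
    refine hz j ?_
    unfold sd at h
    linarith
  set J : ℤ := ⌊z.arg / th p⌋ with hJ
  have ht0 : 0 ≤ z.arg - th p * J := by
    have := Int.floor_le (z.arg / th p)
    rw [le_div_iff₀ hth] at this
    rw [← hJ] at this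
    linarith
  have ht1 : z.arg - th p * J < th p := by
    have := Int.lt_floor_add_one (z.arg / th p)
    rw [div_lt_iff₀ hth] at this
    rw [← hJ] at this
    linarith
  set t : ℝ := z.arg - th p * J with ht
  have hthpi : th p < π := by
    have h3 : (3 : ℝ) ≤ p := by exact_mod_cast hp3
    have := pi_pos
    nlinarith
  have htpos : 0 < t := by
    rcases ht0.lt_or_eq with h | h
    · exact h
    · exfalso
      refine hsd (J : ZMod p) ?_
      rw [sd_int, ← ht, ← h]
      simp
  refine ⟨(J : ZMod p), ?_, ?_⟩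
  · refine (sector_iff p hp3 z J).2 ⟨?_, ?_⟩
    · rw [sd_int, ← ht]
      exact mul_pos hn (sin_pos_of_pos_of_lt_pi htpos (ht1.trans hthpi))
    · have e : ((J : ZMod p) + 1) = ((J + 1 : ℤ) : ZMod p) := by push_cast; rfl
      rw [e, sd_int]
      refine mul_neg_of_pos_of_neg hn ?_
      have e2 : z.arg - th p * ((J + 1 : ℤ) : ℝ) = t - th p := by
        rw [ht]; push_cast; ring
      rw [e2]
      exact sin_neg_of_neg_of_neg_pi_lt (by linarith) (by linarith)
  · intro j hj
    -- `m` = the distance from `j` to `J`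
    set m : ℕ := ((J : ZMod p) - j).val with hm
    have hmp : m < p := ZMod.val_lt _
    have hmc : ((m : ℤ) : ZMod p) = (J : ZMod p) - j := by
      rw [hm]; simp
    have hj' : j = ((J - m : ℤ) : ZMod p) := by
      rw [Int.cast_sub, hmc]; ring
    rcases Nat.eq_zero_or_pos m with h0 | h0
    · rw [hj', h0]; simp
    exfalso
    rw [hj'] at hj
    obtain ⟨h1, h2⟩ := (sector_iff p hp3 z (J - m)).1 hj
    have e : (((J - m : ℤ) : ZMod p) + 1) = ((J - m + 1 : ℤ) : ZMod p) := by push_cast; rfl
    rw [sd_int] at h1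
    rw [e, sd_int] at h2
    have e1 : z.arg - th p * ((J - m : ℤ) : ℝ) = t + th p * m := by
      rw [ht]; push_cast; ring
    have e2 : z.arg - th p * ((J - m + 1 : ℤ) : ℝ) = t + th p * m - th p := by
      rw [ht]; push_cast; ring
    rw [e1] at h1
    rw [e2] at h2
    have h1' : 0 < sin (t + th p * m) := (mul_pos_iff_of_pos_left hn).1 h1
    have h2' : sin (t + th p * m - th p) < 0 := by
      by_contra hc
      exact absurd h2 (not_lt.2 (mul_nonneg hn.le (not_lt.1 hc)))
    have hm1 : (1 : ℝ) ≤ m := by exact_mod_cast h0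
    have hmp' : (m : ℝ) + 1 ≤ p := by exact_mod_cast hmp
    -- the angle is below `π`
    have hu : t + th p * m < 2 * π := by
      rw [← hthp]
      nlinarith
    have hl : t + th p * m < π := by
      by_contra hc
      rw [not_lt] at hc
      have : sin (t + th p * m) ≤ 0 := by
        have h3 : 0 ≤ sin (t + th p * m - π) :=
          sin_nonneg_of_nonneg_of_le_pi (by linarith) (by linarith)
        rw [sin_sub_pi] at h3
        linarith
      linarith
    have : 0 ≤ sin (t + th p * m - th p) :=
      sin_nonneg_of_nonneg_of_le_pi (by nlinarith) (by linarith)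
    linarith

end Plane

end Pool.Agent.Lib.MP_90aff6_co.CT
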