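import Pool.Agent.Lib.MP_90aff6_co.CT.Iface

set_option autoImplicit false

/-!
Board CT, row PRIME: the coloured Tverberg theorem for odd primes, from the zeros of the test maps.
-/

namespace Pool.Agent.Lib.MP_90aff6_co.CT

open scoped BigOperators

namespace PrimeRow

/-- equal label sums -/
theorem label_sums (hF : FouStatement) (p : ℕ) [Fact p.Prime] (hp2 : p ≠ 2) {S : Type} [Fintype S]
    (lab : S → ZMod p) (lam u : S → ℝ)
    (h : ∀ a : ℕ, 1 ≤ a → a ≤ (p - 1) / 2 →
      ∑ s, (lam s : ℂ) * (zt p ((a : ZMod p) * lab s) * (u s : ℂ)) = 0) (i j : ZMod p) :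
    ∑ s ∈ Finset.univ.filter (fun s => lab s = i), lam s * u s =
      ∑ s ∈ Finset.univ.filter (fun s => lab s = j), lam s * u s := by
  refine hF p hp2 (fun i => ∑ s ∈ Finset.univ.filter (fun s => lab s = i), lam s * u s) ?_ i j
  intro a ha1 ha2
  rw [← h a ha1 ha2, ← Finset.sum_fiberwise Finset.univ lab]
  refine Finset.sum_congr rfl fun i _ => ?_
  push_cast
  rw [Finset.mul_sum]
  refine Finset.sum_congr rfl fun s hs => ?_
  rw [(Finset.mem_filter.1 hs).2]
  ring

/-- completion of an injection defined on a subset -/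
theorem complete (p : ℕ) [Fact p.Prime] {S α : Type} [DecidableEq α] (T : Finset S)
    (lab : S → ZMod p) (pt : S → α) (C : Finset α) (hC : p ≤ C.card)
    (h1 : ∀ s ∈ T, ∀ t ∈ T, lab s = lab t → s = t) (h2 : ∀ s ∈ T, ∀ t ∈ T, pt s = pt t → s = t)
    (h3 : ∀ s ∈ T, pt s ∈ C) :
    ∃ g : ZMod p → α, Function.Injective g ∧ (∀ i, g i ∈ C) ∧ ∀ s ∈ T, g (lab s) = pt s := by
  classical
  have hC0 : 0 < C.card := lt_of_lt_of_le (Fact.out : p.Prime).pos hC
  obtain ⟨x0, hx0⟩ := Finset.card_pos.1 hC0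
  let f : ZMod p → α := fun i => if h : ∃ s ∈ T, lab s = i then pt h.choose else x0
  have hf : ∀ s ∈ T, f (lab s) = pt s := by
    intro s hs
    have h : ∃ t ∈ T, lab t = lab s := ⟨s, hs, rfl⟩
    have h4 : f (lab s) = pt h.choose := dif_pos h
    rw [h4, h1 _ h.choose_spec.1 s hs h.choose_spec.2]
  have hsub : (T.image lab).image f ⊆ C := by
    intro x hx
    obtain ⟨i, hi, rfl⟩ := Finset.mem_image.1 hx
    obtain ⟨s, hs, rfl⟩ := Finset.mem_image.1 hi
    rw [hf s hs]
    exact h3 s hs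
  have hcard : ((T.image lab).image f).card ≤ p := by
    refine Finset.card_image_le.trans ?_
    have := Finset.card_le_univ (T.image lab)
    rwa [ZMod.card] at this
  obtain ⟨t, ht1, ht2, ht3⟩ := Finset.exists_subsuperset_card_eq hsub hcard hC
  have hinj : Set.InjOn f (T.image lab : Finset (ZMod p)) := by
    intro i hi j hj hij
    obtain ⟨s, hs, rfl⟩ := Finset.mem_image.1 (Finset.mem_coe.1 hi)
    obtain ⟨s', hs', rfl⟩ := Finset.mem_image.1 (Finset.mem_coe.1 hj)
    rw [hf s hs, hf s' hs'] at hij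
    rw [h2 s hs s' hs' hij]
  obtain ⟨g, hg⟩ := Finset.exists_equiv_extend_of_card_eq (by rw [ZMod.card, ht3]) ht1 hinj
  refine ⟨fun i => (g i : α), ?_, fun i => ht2 (g i).2, fun s hs => ?_⟩
  · intro i j hij
    exact g.injective (Subtype.ext hij)
  · show (g (lab s) : α) = pt s
    rw [hg _ (Finset.mem_image_of_mem _ hs), hf s hs]

end PrimeRow

open PrimeRow in
theorem prime_proof (hZ : ZeroStatement) (hF : FouStatement) : PrimeStatement := by
  classical
  intro p hp hp2 k d hkd C hdisj hcard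
  have : Fact p.Prime := ⟨hp⟩
  let X : Type := Σ j : Fin (k + 1), {x // x ∈ C j}
  let cl : X → Fin (k + 1) := Sigma.fst
  let n : ℕ := (p - 1) / 2 * (d + 1)
  let e : ℕ → ZMod p := fun m => if m < n then ((m / (d + 1) + 1 : ℕ) : ZMod p) else 1
  let co : X → ℕ → ℝ := fun x l => if h : l < d then (x.2 : EuclideanSpace ℝ (Fin d)) ⟨l, h⟩ else 1
  let f : X → ℕ → ℂ := fun x m => ((co x (m % (d + 1)) : ℝ) : ℂ)
  have hodd : 2 * ((p - 1) / 2) + 1 = p := by
    have h1 := hp.eq_two_or_odd
    have h2 := hp.two_le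
    omega
  have hn : 2 * n + 1 ≤ p * Fintype.card (Fin (k + 1)) := by
    rw [Fintype.card_fin]
    show 2 * ((p - 1) / 2 * (d + 1)) + 1 ≤ p * (k + 1)
    have h1 : 2 * ((p - 1) / 2 * (d + 1)) = (2 * ((p - 1) / 2)) * (d + 1) := by ring
    have h2 : 2 * ((p - 1) / 2) = p - 1 := by omega
    rw [h1, h2]
    obtain ⟨q, hq⟩ : ∃ q, p = q + 1 := ⟨p - 1, by have := hp.two_le; omega⟩
    subst hq
    rw [Nat.add_sub_cancel]
    nlinarith
  have he : ∀ m, e m ≠ 0 := by
    intro m
    by_cases hm : m < n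
    · have h1 : e m = ((m / (d + 1) + 1 : ℕ) : ZMod p) := if_pos hm
      rw [h1, Ne, ZMod.natCast_eq_zero_iff]
      intro h2
      have h3 : m / (d + 1) < (p - 1) / 2 := Nat.div_lt_of_lt_mul (by
        rw [mul_comm]; exact hm)
      have h4 := Nat.le_of_dvd (Nat.succ_pos _) h2
      generalize m / (d + 1) = q at h3 h4
      omega
    · have h1 : e m = 1 := if_neg hm
      rw [h1]
      exact one_ne_zero
  have hcl : ∀ c : Fin (k + 1), 2 * p ≤ (Finset.univ.filter (fun x : X => cl x = c)).card + 1 := by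
    intro c
    have h1 : (C c).card ≤ (Finset.univ.filter (fun x : X => cl x = c)).card := by
      have h2 : (C c).attach.card ≤ (Finset.univ.filter (fun x : X => cl x = c)).card := by
        refine Finset.card_le_card_of_injOn (fun y => (⟨c, y⟩ : X)) ?_ ?_
        · intro y _
          simp [cl]
        · intro y _ z _ hyz
          have := Sigma.mk.inj hyz
          exact eq_of_heq this.2
      rwa [Finset.card_attach] at h2
    have h2 := hcard c
    omega
  obtain ⟨w, hw, lam, hlam0, hlam1, hlam⟩ := hZ p hp2 X (Fin (k + 1)) cl hcl n hn e he f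
  obtain ⟨hw1, hw2, -, -⟩ := hw
  rw [List.map_ofFn, List.nodup_ofFn] at hw1 hw2
  -- the label sums
  have hsum : ∀ l : ℕ, l ≤ d → ∀ i j : ZMod p,
      ∑ s ∈ Finset.univ.filter (fun s => (w s).2 = i), lam s * co (w s).1 l =
        ∑ s ∈ Finset.univ.filter (fun s => (w s).2 = j), lam s * co (w s).1 l := by
    intro l hl
    refine label_sums hF p hp2 (fun s => (w s).2) lam (fun s => co (w s).1 l) ?_
    intro a ha1 ha2
    have hm : (a - 1) * (d + 1) + l < n := by
      show _ < (p - 1) / 2 * (d + 1)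
      calc (a - 1) * (d + 1) + l < (a - 1) * (d + 1) + (d + 1) := by omega
        _ = (a - 1 + 1) * (d + 1) := by ring
        _ ≤ (p - 1) / 2 * (d + 1) := Nat.mul_le_mul_right _ (by omega)
    have h1 := hlam _ hm
    rw [← h1]
    refine Finset.sum_congr rfl fun s _ => ?_
    have h2 : e ((a - 1) * (d + 1) + l) = (a : ZMod p) := by
      have h3 : e ((a - 1) * (d + 1) + l) =
        ((((a - 1) * (d + 1) + l) / (d + 1) + 1 : ℕ) : ZMod p) := if_pos hm
      rw [h3]
      congr 1
      have h4 : ((a - 1) * (d + 1) + l) / (d + 1) = a - 1 := by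
        rw [Nat.add_comm, Nat.add_mul_div_right _ _ (by omega), Nat.div_eq_of_lt (by omega)]
        omega
      rw [h4]
      omega
    have h3 : ((a - 1) * (d + 1) + l) % (d + 1) = l := by
      rw [Nat.add_comm, Nat.add_mul_mod_self_right, Nat.mod_eq_of_lt (by omega)]
    unfold FF
    rw [h2]
    show _ = (lam s : ℂ) * (zt p ((a : ZMod p) * (w s).2) *
      ((co (w s).1 (((a - 1) * (d + 1) + l) % (d + 1)) : ℝ) : ℂ))
    rw [h3]
  -- the points
  let P : Fin (2 * n + 1) → EuclideanSpace ℝ (Fin d) := fun s => ((w s).1.2 : _)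
  let Y : ZMod p → EuclideanSpace ℝ (Fin d) := fun i =>
    ∑ s ∈ Finset.univ.filter (fun s => (w s).2 = i), lam s • P s
  let Lam : ZMod p → ℝ := fun i => ∑ s ∈ Finset.univ.filter (fun s => (w s).2 = i), lam s
  have hY : ∀ i j, Y i = Y j := by
    intro i j
    ext l
    have h1 := hsum l.1 l.2.le i j
    have h2 : ∀ i, (Y i) l = ∑ s ∈ Finset.univ.filter (fun s => (w s).2 = i),
        lam s * co (w s).1 l.1 := by
      intro i
      show (∑ s ∈ Finset.univ.filter (fun s => (w s).2 = i), lam s • P s) l = _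
      rw [WithLp.ofLp_sum, Finset.sum_apply]
      refine Finset.sum_congr rfl fun s _ => ?_
      have h3 : co (w s).1 l.1 = P s l := dif_pos l.2
      rw [h3]
      rfl
    rw [h2, h2, h1]
  have hLam : ∀ i j, Lam i = Lam j := by
    intro i j
    have h1 := hsum d le_rfl i j
    have h2 : ∀ x : X, co x d = 1 := fun x => dif_neg (lt_irrefl d)
    simp only [h2, mul_one] at h1
    exact h1
  have hLam1 : ∑ i, Lam i = 1 := by
    rw [← hlam1, ← Finset.sum_fiberwise Finset.univ (fun s => (w s).2)]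
  have hLam0 : ∀ i, 0 < Lam i := by
    intro i
    have h1 : ∑ j : ZMod p, Lam j = p * Lam i := by
      rw [Finset.sum_congr rfl (fun j _ => hLam j i), Finset.sum_const, Finset.card_univ,
        ZMod.card, nsmul_eq_mul]
    rw [hLam1] at h1
    have h2 : (0 : ℝ) < p := by exact_mod_cast hp.pos
    by_contra h3
    push Not at h3
    nlinarith
  -- completion of the classes
  have hcomp : ∀ c : Fin (k + 1), ∃ g : ZMod p → EuclideanSpace ℝ (Fin d),
      Function.Injective g ∧ (∀ i, g i ∈ C c) ∧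
      ∀ s ∈ Finset.univ.filter (fun s => cl (w s).1 = c), g (w s).2 = P s := by
    intro c
    refine complete p (Finset.univ.filter (fun s => cl (w s).1 = c)) (fun s => (w s).2) P (C c)
      ?_ ?_ ?_ ?_
    · have h1 := hcard c
      have h2 := hp.two_le
      omega
    · intro s hs t ht hst
      apply hw2
      show (cl (w s).1, (w s).2) = (cl (w t).1, (w t).2)
      rw [(Finset.mem_filter.1 hs).2, (Finset.mem_filter.1 ht).2, hst]
    · intro s hs t ht hst
      apply hw1
      show (w s).1 = (w t).1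
      have h1 : cl (w s).1 = cl (w t).1 := by
        rw [(Finset.mem_filter.1 hs).2, (Finset.mem_filter.1 ht).2]
      have h2 : ∀ x y : X, cl x = cl y →
          (x.2 : EuclideanSpace ℝ (Fin d)) = (y.2 : EuclideanSpace ℝ (Fin d)) → x = y := by
        rintro ⟨x1, x2⟩ ⟨y1, y2⟩ h3 h4
        obtain rfl : x1 = y1 := h3
        have h5 : x2 = y2 := Subtype.ext h4
        rw [h5]
      exact h2 _ _ h1 hst
    · intro s hs
      have h1 := (Finset.mem_filter.1 hs).2
      have h2 : P s ∈ C (cl (w s).1) := (w s).1.2.2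
      rwa [h1] at h2
  choose g hg1 hg2 hg3 using hcomp
  refine ⟨fun i j => g j ((i : ℕ) : ZMod p), fun i j => hg2 j _, ?_, ?_⟩
  · rintro ⟨i, j⟩ ⟨i', j'⟩ h
    have h' : g j ((i : ℕ) : ZMod p) = g j' ((i' : ℕ) : ZMod p) := h
    have hj : j = j' := by
      by_contra hne
      have h1 := Finset.disjoint_left.1 (hdisj j j' hne) (hg2 j ((i : ℕ) : ZMod p))
      rw [h'] at h1
      exact h1 (hg2 j' _)
    subst hj
    have h2 := hg1 j h'
    rw [ZMod.natCast_eq_natCast_iff', Nat.mod_eq_of_lt i.2, Nat.mod_eq_of_lt i'.2] at h2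
    have h3 : i = i' := Fin.ext h2
    rw [h3]
  · refine ⟨(Lam 0)⁻¹ • Y 0, ?_⟩
    rw [Set.mem_iInter]
    intro i
    rw [hLam 0 ((i : ℕ) : ZMod p), hY 0 ((i : ℕ) : ZMod p)]
    refine Finset.centerMass_mem_convexHull
      (Finset.univ.filter (fun s => (w s).2 = ((i : ℕ) : ZMod p))) (fun s _ => hlam0 s)
      (hLam0 _) (z := P) ?_
    intro s hs
    refine ⟨cl (w s).1, ?_⟩
    have h1 := hg3 (cl (w s).1) s (by simp)
    rw [(Finset.mem_filter.1 hs).2] at h1
    exact h1

end Pool.Agent.Lib.MP_90aff6_co.CT
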