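import Pool.Agent.Lib.MP_90aff6_co.CT.Iface

set_option autoImplicit false

/-!
ROT: multiplication by unit complex numbers does not change `HH`.
-/

namespace Pool.Agent.Lib.MP_90aff6_co.CT

namespace Rot

/-- The complex coordinates of a real vector. -/
noncomputable def unvec (m : ℕ) (x : Fin (2 * m) → ℝ) : ℕ → ℂ := fun i =>
  if h : i < m then ⟨x ⟨2 * i, by omega⟩, x ⟨2 * i + 1, by omega⟩⟩ else 0

theorem unvec_vec (m : ℕ) (z : ℕ → ℂ) (i : ℕ) (hi : i < m) :
    unvec m (vec (2 * m) z) i = z i := by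
  unfold unvec vec
  rw [dif_pos hi]
  have h1 : (2 * i) % 2 = 0 := by omega
  have h2 : ¬ (2 * i + 1) % 2 = 0 := by omega
  have h3 : (2 * i) / 2 = i := by omega
  have h4 : (2 * i + 1) / 2 = i := by omega
  simp only [h1, h2, h3, h4, if_true, if_false]

theorem vec_congr (m : ℕ) (z w : ℕ → ℂ) (h : ∀ i, i < m → z i = w i) :
    vec (2 * m) z = vec (2 * m) w := by
  funext i
  have hi := i.2
  unfold vec
  rw [h ((i : ℕ) / 2) (by omega)]

theorem vec_unvec (m : ℕ) (x : Fin (2 * m) → ℝ) : vec (2 * m) (unvec m x) = x := by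
  funext i
  have hi := i.2
  have h : (i : ℕ) / 2 < m := by omega
  unfold unvec vec
  simp only [dif_pos h]
  split_ifs with h1
  · congr 1
    apply Fin.ext
    show 2 * ((i : ℕ) / 2) = i
    omega
  · congr 1
    apply Fin.ext
    show 2 * ((i : ℕ) / 2) + 1 = i
    omega

theorem vec_add (m : ℕ) (z w : ℕ → ℂ) :
    vec m (fun i => z i + w i) = vec m z + vec m w := by
  funext i
  unfold vec
  simp only [Pi.add_apply]
  split_ifs <;> simp

theorem unvec_add (m : ℕ) (x y : Fin (2 * m) → ℝ) (i : ℕ) :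
    unvec m (x + y) i = unvec m x i + unvec m y i := by
  unfold unvec
  split_ifs with h
  · apply Complex.ext <;> simp
  · simp

theorem unvec_smul (m : ℕ) (c : ℝ) (x : Fin (2 * m) → ℝ) (i : ℕ) :
    unvec m (c • x) i = (c : ℂ) * unvec m x i := by
  unfold unvec
  split_ifs with h
  · apply Complex.ext <;> simp
  · simp

/-- Multiplication by `u` on real vectors. -/
noncomputable def L (m : ℕ) (u : ℕ → ℂ) : (Fin (2 * m) → ℝ) →ₗ[ℝ] (Fin (2 * m) → ℝ) where
  toFun x := vec (2 * m) (fun i => u i * unvec m x i)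
  map_add' x y := by
    rw [← vec_add]
    apply vec_congr
    intro i _
    rw [unvec_add]
    ring
  map_smul' c x := by
    funext j
    simp only [RingHom.id_apply, Pi.smul_apply, smul_eq_mul]
    unfold vec
    simp only [unvec_smul]
    split_ifs
    · simp
      ring
    · simp
      ring

theorem L_apply (m : ℕ) (u : ℕ → ℂ) (x : Fin (2 * m) → ℝ) :
    L m u x = vec (2 * m) (fun i => u i * unvec m x i) := rfl

theorem L_vec (m : ℕ) (u z : ℕ → ℂ) :
    L m u (vec (2 * m) z) = vec (2 * m) (fun i => u i * z i) := by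
  rw [L_apply]
  apply vec_congr
  intro i hi
  rw [unvec_vec m z i hi]

theorem L_comp (m : ℕ) (u v : ℕ → ℂ) :
    (L m u).comp (L m v) = L m (fun i => u i * v i) := by
  apply LinearMap.ext
  intro x
  rw [LinearMap.comp_apply, L_apply m v, L_vec, L_apply]
  apply vec_congr
  intro i _
  ring

theorem L_one (m : ℕ) : L m (fun _ => 1) = LinearMap.id := by
  apply LinearMap.ext
  intro x
  rw [L_apply, LinearMap.id_apply]
  simp only [one_mul]
  exact vec_unvec m x

theorem det_pos (m : ℕ) (u : ℕ → ℂ) (hu : ∀ i, u i ≠ 0) : 0 < LinearMap.det (L m u) := by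
  have h1 : ∀ i, ∃ z : ℂ, u i = z * z := fun i => IsAlgClosed.exists_eq_mul_self (u i)
  choose v hv using h1
  have h2 : L m u = (L m v).comp (L m v) := by
    rw [L_comp]
    congr 1
    funext i
    exact hv i
  have h3 : (L m v).comp (L m (fun i => (v i)⁻¹)) = LinearMap.id := by
    rw [L_comp, ← L_one]
    congr 1
    funext i
    have : v i ≠ 0 := by
      intro h
      apply hu i
      rw [hv i, h, mul_zero]
    exact mul_inv_cancel₀ this
  have h4 : LinearMap.det (L m v) ≠ 0 := by
    intro h
    have := congrArg LinearMap.det h3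
    rw [LinearMap.det_comp, h, zero_mul, LinearMap.det_id] at this
    exact zero_ne_one this
  rw [h2, LinearMap.det_comp]
  exact mul_self_pos.mpr h4

end Rot

theorem rot (h : HtStatement) : RotStatement := by
  intro m u hu b
  have hu' : ∀ i, u i ≠ 0 := by
    intro i hi
    have := hu i
    rw [hi, norm_zero] at this
    exact zero_ne_one this
  have h1 : 0 < (LinearMap.toMatrix' (Rot.L m u)).det := by
    rw [LinearMap.det_toMatrix']
    exact Rot.det_pos m u hu'
  have h2 := h (2 * m) (LinearMap.toMatrix' (Rot.L m u)) h1 (fun s => vec (2 * m) (b s))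
  rw [← h2]
  congr 1
  funext s
  rw [LinearMap.toMatrix'_mulVec, Rot.L_vec]

end Pool.Agent.Lib.MP_90aff6_co.CT
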