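import Pool.Agent.Lib.MP_90aff6_co.CT.Iface

set_option autoImplicit false

/-!
Board CT, row SEC: the sum over the sectors.
-/

namespace Pool.Agent.Lib.MP_90aff6_co.CT

open scoped BigOperators

namespace SecRow

/-! ### Lists of vectors -/

variable {α : Type}

theorem snoc_cast {n : ℕ} (f : Fin (n + 1) → α) (y : α) (i : Fin (n + 1)) (r : Fin (n + 1)) :
    (Fin.snoc (α := fun _ => α) f y : Fin (n + 1 + 1) → α) ((Fin.castSucc i).succAbove r) =
      (Fin.snoc (α := fun _ => α) (fun r' : Fin n => f (i.succAbove r')) y : Fin (n + 1) → α) r := by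
  induction r using Fin.lastCases with
  | last =>
    have h : Fin.castSucc i ≤ Fin.castSucc (Fin.last n) := by
      rw [Fin.castSucc_le_castSucc_iff]
      exact Fin.le_last i
    rw [Fin.succAbove_of_le_castSucc _ _ h, Fin.succ_last, Fin.snoc_last, Fin.snoc_last]
  | cast r => rw [Fin.castSucc_succAbove_castSucc, Fin.snoc_castSucc, Fin.snoc_castSucc]

theorem snoc_last' {n : ℕ} (f : Fin n → α) (y : α) (r : Fin n) :
    (Fin.snoc (α := fun _ => α) f y : Fin (n + 1) → α) ((Fin.last n).succAbove r) = f r := by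
  rw [Fin.succAbove_last, Fin.snoc_castSucc]

/-! ### Determinants -/

/-- the determinant with the last row `x` -/
noncomputable def Dt (m : ℕ) (b : Fin (2 * m + 1) → ℕ → ℂ) (x : ℕ → ℂ) : ℝ :=
  Matrix.det (Matrix.of fun s : Fin (2 * m + 2) =>
    vec (2 * m + 2) ((Fin.snoc (α := fun _ => ℕ → ℂ) b x : Fin (2 * m + 1 + 1) → ℕ → ℂ) s))

theorem vec_add (q : ℕ) (x y : ℕ → ℂ) : vec q (x + y) = vec q x + vec q y := by
  funext i
  unfold vec
  split_ifs <;> simp [*]

theorem vec_smul (q : ℕ) (t : ℝ) (x : ℕ → ℂ) : vec q (fun i => (t : ℂ) * x i) = t • vec q x := by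
  funext i
  unfold vec
  split_ifs <;> simp [*]

theorem Dt_eq (m : ℕ) (b : Fin (2 * m + 1) → ℕ → ℂ) (x : ℕ → ℂ) :
    Dt m b x = Matrix.det (Matrix.updateRow (Matrix.of fun s : Fin (2 * m + 2) =>
      vec (2 * m + 2) ((Fin.snoc (α := fun _ => ℕ → ℂ) b 0 : Fin (2 * m + 1 + 1) → ℕ → ℂ) s))
      (Fin.last (2 * m + 1)) (vec (2 * m + 2) x)) := by
  unfold Dt
  congr 1
  ext s t
  induction s using Fin.lastCases with
  | last => rw [Matrix.updateRow_self, Matrix.of_apply, Fin.snoc_last]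
  | cast s =>
    rw [Matrix.updateRow_ne (Fin.castSucc_lt_last s).ne, Matrix.of_apply, Matrix.of_apply,
      Fin.snoc_castSucc, Fin.snoc_castSucc]

theorem Dt_add (m : ℕ) (b : Fin (2 * m + 1) → ℕ → ℂ) (x y : ℕ → ℂ) :
    Dt m b (x + y) = Dt m b x + Dt m b y := by
  rw [Dt_eq, Dt_eq, Dt_eq, vec_add, Matrix.det_updateRow_add]

theorem Dt_smul (m : ℕ) (b : Fin (2 * m + 1) → ℕ → ℂ) (t : ℝ) (x : ℕ → ℂ) :
    Dt m b (fun i => (t : ℂ) * x i) = t * Dt m b x := by
  rw [Dt_eq, Dt_eq, vec_smul, Matrix.det_updateRow_smul]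

theorem Dt_neg (m : ℕ) (b : Fin (2 * m + 1) → ℕ → ℂ) (x : ℕ → ℂ) :
    Dt m b (-x) = - Dt m b x := by
  have h := Dt_smul m b (-1) x
  have e : (fun i => ((-1 : ℝ) : ℂ) * x i) = -x := by
    funext i
    simp
  rw [e] at h
  rw [h]
  ring

/-- unit vector in the plane `m` -/
noncomputable def un (m : ℕ) (z : ℂ) : ℕ → ℂ := fun i => if i = m then z else 0

theorem Dt_un (m : ℕ) (b : Fin (2 * m + 1) → ℕ → ℂ) (z : ℂ) :
    Dt m b (un m z) = z.re * Dt m b (un m 1) + z.im * Dt m b (un m Complex.I) := by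
  rw [← Dt_smul, ← Dt_smul, ← Dt_add]
  congr 1
  funext i
  simp only [un, Pi.add_apply]
  split_ifs
  · rw [mul_one, Complex.re_add_im]
  · simp

/-- the block determinant -/
theorem det_block (m : ℕ) (b : Fin (2 * m) → ℕ → ℂ) (z w : ℂ) :
    Matrix.det (Matrix.of fun s : Fin (2 * m + 2) => vec (2 * m + 2)
      ((Fin.snoc (α := fun _ => ℕ → ℂ) (Fin.snoc (α := fun _ => ℕ → ℂ) b (un m z))
        (un m w) : Fin (2 * m + 1 + 1) → ℕ → ℂ) s)) =
      Matrix.det (Matrix.of fun s : Fin (2 * m) => vec (2 * m) (b s)) *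
        (z.re * w.im - z.im * w.re) := by
  set M := (Matrix.of fun s : Fin (2 * m + 2) => vec (2 * m + 2)
      ((Fin.snoc (α := fun _ => ℕ → ℂ) (Fin.snoc (α := fun _ => ℕ → ℂ) b (un m z))
        (un m w) : Fin (2 * m + 1 + 1) → ℕ → ℂ) s)) with hM
  have h1 : ∀ x : ℕ → ℂ, ∀ t : Fin (2 * m), vec (2 * m + 2) x (Fin.castAdd 2 t) =
      vec (2 * m) x t := fun x t => rfl
  have h2 : ∀ z : ℂ, ∀ t : Fin (2 * m), vec (2 * m + 2) (un m z) (Fin.castAdd 2 t) = 0 := by
    intro z t
    have ht : (t : ℕ) / 2 ≠ m := by have := t.2; omega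
    show (if (t : ℕ) % 2 = 0 then (un m z ((t : ℕ) / 2)).re else (un m z ((t : ℕ) / 2)).im) = 0
    unfold un
    rw [if_neg ht]
    simp
  have h3 : ∀ x : ℕ → ℂ, vec (2 * m + 2) x (Fin.natAdd (2 * m) 0) = (x m).re := by
    intro x
    have e1 : ((Fin.natAdd (2 * m) (0 : Fin 2) : Fin (2 * m + 2)) : ℕ) = 2 * m := by simp
    unfold vec
    rw [e1, if_pos (by omega)]
    congr 2
    omega
  have h4 : ∀ x : ℕ → ℂ, vec (2 * m + 2) x (Fin.natAdd (2 * m) 1) = (x m).im := by
    intro x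
    have e1 : ((Fin.natAdd (2 * m) (1 : Fin 2) : Fin (2 * m + 2)) : ℕ) = 2 * m + 1 := by simp
    unfold vec
    rw [e1, if_neg (by omega)]
    congr 2
    omega
  have h5 : ∀ r : Fin (2 * m), ∀ t, M (Fin.castAdd 2 r) t = vec (2 * m + 2) (b r) t := by
    intro r t
    have e1 : (Fin.castAdd 2 r : Fin (2 * m + 2)) = Fin.castSucc (Fin.castSucc r) := rfl
    rw [hM, Matrix.of_apply, e1, Fin.snoc_castSucc, Fin.snoc_castSucc]
  have h6 : ∀ t, M (Fin.natAdd (2 * m) 0) t = vec (2 * m + 2) (un m z) t := by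
    intro t
    have e1 : (Fin.natAdd (2 * m) (0 : Fin 2) : Fin (2 * m + 2)) =
        Fin.castSucc (Fin.last (2 * m)) := by
      apply Fin.ext
      simp
    rw [hM, Matrix.of_apply, e1, Fin.snoc_castSucc, Fin.snoc_last]
  have h7 : ∀ t, M (Fin.natAdd (2 * m) 1) t = vec (2 * m + 2) (un m w) t := by
    intro t
    have e1 : (Fin.natAdd (2 * m) (1 : Fin 2) : Fin (2 * m + 2)) = Fin.last (2 * m + 1) := by
      apply Fin.ext
      simp
    rw [hM, Matrix.of_apply, e1, Fin.snoc_last]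
  have hun : ∀ z : ℂ, un m z m = z := fun z => if_pos rfl
  rw [← Matrix.det_submatrix_equiv_self (finSumFinEquiv (m := 2 * m) (n := 2)) M]
  have h8 : M.submatrix (finSumFinEquiv (m := 2 * m) (n := 2)) finSumFinEquiv =
      Matrix.fromBlocks (Matrix.of fun s : Fin (2 * m) => vec (2 * m) (b s))
        (Matrix.of fun (s : Fin (2 * m)) (t : Fin 2) => M (Fin.castAdd 2 s) (Fin.natAdd (2 * m) t))
        0 !![z.re, z.im; w.re, w.im] := by
    ext s t
    rcases s with s | s <;> rcases t with t | t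
    · rw [Matrix.submatrix_apply, Matrix.fromBlocks_apply₁₁, finSumFinEquiv_apply_left,
        finSumFinEquiv_apply_left, h5, h1, Matrix.of_apply]
    · rw [Matrix.submatrix_apply, Matrix.fromBlocks_apply₁₂, finSumFinEquiv_apply_left,
        finSumFinEquiv_apply_right, Matrix.of_apply]
    · rw [Matrix.submatrix_apply, Matrix.fromBlocks_apply₂₁, finSumFinEquiv_apply_left,
        finSumFinEquiv_apply_right, Matrix.zero_apply]
      fin_cases s
      · exact (h6 _).trans (h2 z t)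
      · exact (h7 _).trans (h2 w t)
    · rw [Matrix.submatrix_apply, Matrix.fromBlocks_apply₂₂, finSumFinEquiv_apply_right,
        finSumFinEquiv_apply_right]
      fin_cases s <;> fin_cases t
      · exact (h6 _).trans ((h3 _).trans (by rw [hun]; rfl))
      · exact (h6 _).trans ((h4 _).trans (by rw [hun]; rfl))
      · exact (h7 _).trans ((h3 _).trans (by rw [hun]; rfl))
      · exact (h7 _).trans ((h4 _).trans (by rw [hun]; rfl))
  rw [h8, Matrix.det_fromBlocks_zero₂₁, Matrix.det_fin_two_of]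

/-! ### The minors -/

/-- the vectors with the two rays -/
noncomputable def aj (m : ℕ) (b : Fin (2 * m + 1) → ℕ → ℂ) (x y : ℕ → ℂ) :
    Fin (2 * m + 2 + 1) → Fin (2 * m + 2) → ℝ := fun s => vec (2 * m + 2)
      ((Fin.snoc (α := fun _ => ℕ → ℂ) (Fin.snoc (α := fun _ => ℕ → ℂ) b x)
        y : Fin (2 * m + 1 + 1 + 1) → ℕ → ℂ) s)

theorem mu_last (m : ℕ) (b : Fin (2 * m + 1) → ℕ → ℂ) (x y : ℕ → ℂ) :
    mu (aj m b x y) (Fin.last (2 * m + 2)) = Dt m b x := by
  unfold mu Dt aj
  have e1 : ((Fin.last (2 * m + 2) : Fin (2 * m + 2 + 1)) : ℕ) = 2 * (m + 1) := by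
    rw [Fin.val_last]; ring
  rw [e1, pow_mul, neg_one_sq, one_pow, one_mul]
  congr 1
  ext r t
  rw [Matrix.of_apply, Matrix.of_apply]
  have e2 := snoc_last' (α := ℕ → ℂ) (n := 2 * m + 2)
    (Fin.snoc (α := fun _ => ℕ → ℂ) b x : Fin (2 * m + 1 + 1) → ℕ → ℂ) y r
  exact congrFun (congrArg (vec (2 * m + 2)) e2) t

theorem mu_pen (m : ℕ) (b : Fin (2 * m + 1) → ℕ → ℂ) (x y : ℕ → ℂ) :
    mu (aj m b x y) (Fin.castSucc (Fin.last (2 * m + 1))) = - Dt m b y := by
  unfold mu Dt aj
  have e1 : ((Fin.castSucc (Fin.last (2 * m + 1)) : Fin (2 * m + 2 + 1)) : ℕ) = 2 * m + 1 := by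
    simp
  rw [e1, pow_succ, pow_mul, neg_one_sq, one_pow, one_mul, neg_one_mul]
  congr 2
  ext r t
  rw [Matrix.of_apply, Matrix.of_apply]
  have e2 := snoc_cast (α := ℕ → ℂ) (n := 2 * m + 1)
    (Fin.snoc (α := fun _ => ℕ → ℂ) b x : Fin (2 * m + 1 + 1) → ℕ → ℂ) y
    (Fin.last (2 * m + 1)) r
  have e3 : (fun r' : Fin (2 * m + 1) => (Fin.snoc (α := fun _ => ℕ → ℂ) b x :
      Fin (2 * m + 1 + 1) → ℕ → ℂ) ((Fin.last (2 * m + 1)).succAbove r')) = b := by
    funext r'
    exact snoc_last' b x r'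
  rw [e3] at e2
  exact congrFun (congrArg (vec (2 * m + 2)) e2) t

theorem mu_cast (m : ℕ) (b : Fin (2 * m + 1) → ℕ → ℂ) (z w : ℂ) (i : Fin (2 * m + 1)) :
    mu (aj m b (un m z) (un m w)) (Fin.castSucc (Fin.castSucc i)) =
      mu (fun s => vec (2 * m) (b s)) i * (z.re * w.im - z.im * w.re) := by
  unfold mu aj
  have e1 : ((Fin.castSucc (Fin.castSucc i) : Fin (2 * m + 2 + 1)) : ℕ) = (i : ℕ) := rfl
  have h := det_block m (fun r => b (i.succAbove r)) z w
  rw [e1, mul_assoc]
  congr 1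
  refine Eq.trans ?_ h
  congr 1
  ext r t
  rw [Matrix.of_apply, Matrix.of_apply]
  have e2 := snoc_cast (α := ℕ → ℂ) (n := 2 * m + 1)
    (Fin.snoc (α := fun _ => ℕ → ℂ) b (un m z) : Fin (2 * m + 1 + 1) → ℕ → ℂ) (un m w)
    (Fin.castSucc i) r
  have e3 : (fun r' : Fin (2 * m + 1) => (Fin.snoc (α := fun _ => ℕ → ℂ) b (un m z) :
      Fin (2 * m + 1 + 1) → ℕ → ℂ) ((Fin.castSucc i).succAbove r')) =
      (Fin.snoc (α := fun _ => ℕ → ℂ) (fun r' : Fin (2 * m) => b (i.succAbove r')) (un m z) :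
        Fin (2 * m + 1) → ℕ → ℂ) := by
    funext r'
    exact snoc_cast b (un m z) i r'
  rw [e3] at e2
  exact congrFun (congrArg (vec (2 * m + 2)) e2) t

/-! ### The roots of unity -/

theorem cross_pos (p : ℕ) [Fact p.Prime] (hp2 : p ≠ 2) (j : ZMod p) :
    0 < (zt p j).re * (zt p (j + 1)).im - (zt p j).im * (zt p (j + 1)).re := by
  have hp : 2 < p := by
    have := (Fact.out : p.Prime).two_le
    omega
  have h1 : zt p (j + 1) = zt p j * zt p 1 := by
    unfold zt
    exact AddChar.map_add_eq_mul _ _ _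
  have h2 : ‖zt p j‖ = 1 := by
    unfold zt
    exact AddChar.norm_apply _ _
  have h3 : zt p 1 = Complex.exp (2 * Real.pi * Complex.I * ((1 : ℤ) : ℂ) / p) := by
    have := ZMod.stdAddChar_coe (N := p) 1
    unfold zt
    rw [← this]
    simp
  have h4 : (zt p 1).im = Real.sin (2 * Real.pi / p) := by
    rw [h3]
    have e : 2 * (Real.pi : ℂ) * Complex.I * ((1 : ℤ) : ℂ) / p =
        ((2 * Real.pi / p : ℝ) : ℂ) * Complex.I := by
      push_cast
      ring
    rw [e, Complex.exp_ofReal_mul_I_im]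
  have h5 : (zt p j).re ^ 2 + (zt p j).im ^ 2 = 1 := by
    have := Complex.sq_norm (zt p j)
    rw [h2, Complex.normSq_apply] at this
    nlinarith
  have h6 : (zt p j).re * (zt p (j + 1)).im - (zt p j).im * (zt p (j + 1)).re =
      (zt p 1).im * ((zt p j).re ^ 2 + (zt p j).im ^ 2) := by
    rw [h1, Complex.mul_re, Complex.mul_im]
    ring
  rw [h6, h5, mul_one, h4]
  have hp' : (2 : ℝ) < p := by exact_mod_cast hp
  apply Real.sin_pos_of_pos_of_lt_pi
  · positivity
  · rw [div_lt_iff₀ (by linarith)]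
    nlinarith [Real.pi_pos]

/-- the sector through the signs -/
theorem plane_sign (hP : PlaneStatement) (p : ℕ) [Fact p.Prime] (hp2 : p ≠ 2) (z : ℂ)
    (hz : ∀ j : ZMod p, z.re * (zt p j).im - z.im * (zt p j).re ≠ 0) :
    ∃! j : ZMod p, z.re * (zt p j).im - z.im * (zt p j).re < 0 ∧
      0 < z.re * (zt p (j + 1)).im - z.im * (zt p (j + 1)).re := by
  have key : ∀ j : ZMod p, (∃ α β : ℝ, 0 < α ∧ 0 < β ∧ z = α * zt p j + β * zt p (j + 1)) ↔
      (z.re * (zt p j).im - z.im * (zt p j).re < 0 ∧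
      0 < z.re * (zt p (j + 1)).im - z.im * (zt p (j + 1)).re) := by
    intro j
    have hS := cross_pos p hp2 j
    constructor
    · rintro ⟨α, β, hα, hβ, h⟩
      have hre : z.re = α * (zt p j).re + β * (zt p (j + 1)).re := by
        rw [h]; simp
      have him : z.im = α * (zt p j).im + β * (zt p (j + 1)).im := by
        rw [h]; simp
      have h1 := mul_pos hα hS
      have h2 := mul_pos hβ hS
      rw [hre, him]
      constructor <;> nlinarith
    · rintro ⟨h1, h2⟩
      set S := (zt p j).re * (zt p (j + 1)).im - (zt p j).im * (zt p (j + 1)).re with hSdef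
      refine ⟨(z.re * (zt p (j + 1)).im - z.im * (zt p (j + 1)).re) / S,
        -(z.re * (zt p j).im - z.im * (zt p j).re) / S, div_pos h2 hS,
        div_pos (by linarith) hS, ?_⟩
      apply Complex.ext
      · rw [Complex.add_re, Complex.re_ofReal_mul, Complex.re_ofReal_mul]
        field_simp
        rw [hSdef]
        ring
      · rw [Complex.add_im, Complex.im_ofReal_mul, Complex.im_ofReal_mul]
        field_simp
        rw [hSdef]
        ring
  obtain ⟨j, hj, hju⟩ := hP p hp2 z hz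
  exact ⟨j, (key j).1 hj, fun j' hj' => hju j' ((key j').2 hj')⟩

theorem forall_split {n : ℕ} (P : Fin (n + 1 + 1) → Prop) :
    (∀ i, P i) ↔ (∀ i : Fin n, P (Fin.castSucc (Fin.castSucc i))) ∧
      P (Fin.castSucc (Fin.last n)) ∧ P (Fin.last (n + 1)) := by
  constructor
  · intro h
    exact ⟨fun i => h _, h _, h _⟩
  · rintro ⟨h1, h2, h3⟩ i
    induction i using Fin.lastCases with
    | last => exact h3
    | cast i =>
      induction i using Fin.lastCases with
      | last => exact h2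
      | cast i => exact h1 i

end SecRow

open SecRow in
theorem sec_proof (hP : PlaneStatement) : SecStatement := by
  classical
  intro p _ hp2 m b _ hD
  set U := Dt m b (un m 1) with hU
  set V := Dt m b (un m Complex.I) with hV
  have hDj : ∀ j : ZMod p, Dt m b (ray p m j) = V * (zt p j).im - (-U) * (zt p j).re := by
    intro j
    have h := Dt_un m b (zt p j)
    have e : ray p m j = un m (zt p j) := rfl
    rw [e, h]
    ring
  have hD' : ∀ j : ZMod p, Dt m b (ray p m j) ≠ 0 := hD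
  have hA : ∃! j : ZMod p, Dt m b (ray p m j) < 0 ∧ 0 < Dt m b (ray p m (j + 1)) := by
    have h := plane_sign hP p hp2 ⟨V, -U⟩ (fun j => by
      have h1 := hD' j
      rw [hDj] at h1
      exact h1)
    simp only [hDj]
    exact h
  have hB : ∃! j : ZMod p, 0 < Dt m b (ray p m j) ∧ Dt m b (ray p m (j + 1)) < 0 := by
    have h := plane_sign hP p hp2 ⟨-V, U⟩ (fun j => by
      have h1 := hD' j
      rw [hDj] at h1
      intro h2
      apply h1
      have h3 : -V * (zt p j).im - U * (zt p j).re = 0 := h2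
      linarith)
    obtain ⟨j, hj, hju⟩ := h
    have key : ∀ j : ZMod p, ((-V * (zt p j).im - U * (zt p j).re < 0 ∧
        0 < -V * (zt p (j + 1)).im - U * (zt p (j + 1)).re) ↔
        (0 < Dt m b (ray p m j) ∧ Dt m b (ray p m (j + 1)) < 0)) := by
      intro j
      rw [hDj, hDj]
      constructor
      · rintro ⟨h1, h2⟩
        constructor <;> linarith
      · rintro ⟨h1, h2⟩
        constructor <;> linarith
    exact ⟨j, (key j).1 hj, fun j' hj' => hju j' ((key j').2 hj')⟩
  set M' : Fin (2 * m + 1) → ℝ := fun i => mu (fun s => vec (2 * m) (b s)) i with hM'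
  have hray : ∀ j : ZMod p, - ray p m j = un m (- zt p j) := by
    intro j
    funext i
    show -(if i = m then zt p j else 0) = if i = m then - zt p j else 0
    split_ifs
    · rfl
    · exact neg_zero
  have h1 : ∀ (j : ZMod p) (i : Fin (2 * m + 1)),
      mu (aj m b (- ray p m j) (- ray p m (j + 1))) (Fin.castSucc (Fin.castSucc i)) =
        M' i * ((zt p j).re * (zt p (j + 1)).im - (zt p j).im * (zt p (j + 1)).re) := by
    intro j i
    rw [hray, hray, mu_cast]
    simp only [Complex.neg_re, Complex.neg_im, hM']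
    ring
  have h2 : ∀ j : ZMod p,
      mu (aj m b (- ray p m j) (- ray p m (j + 1))) (Fin.castSucc (Fin.last (2 * m + 1))) =
        Dt m b (ray p m (j + 1)) := by
    intro j
    rw [mu_pen, Dt_neg, neg_neg]
  have h3 : ∀ j : ZMod p,
      mu (aj m b (- ray p m j) (- ray p m (j + 1))) (Fin.last (2 * m + 2)) =
        - Dt m b (ray p m j) := by
    intro j
    rw [mu_last, Dt_neg]
  have hpos : ∀ j : ZMod p, (∀ i, 0 < mu (aj m b (- ray p m j) (- ray p m (j + 1))) i) ↔
      (∀ i, 0 < M' i) ∧ (Dt m b (ray p m j) < 0 ∧ 0 < Dt m b (ray p m (j + 1))) := by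
    intro j
    have hS := cross_pos p hp2 j
    rw [forall_split (fun i => 0 < mu (aj m b (- ray p m j) (- ray p m (j + 1))) i)]
    simp only [h1, h2, h3]
    constructor
    · rintro ⟨a1, a2, a3⟩
      exact ⟨fun i => (pos_iff_pos_of_mul_pos (a1 i)).2 hS, by linarith, a2⟩
    · rintro ⟨a1, a2, a3⟩
      exact ⟨fun i => mul_pos (a1 i) hS, a3, by linarith⟩
  have hneg : ∀ j : ZMod p, (∀ i, mu (aj m b (- ray p m j) (- ray p m (j + 1))) i < 0) ↔
      (∀ i, M' i < 0) ∧ (0 < Dt m b (ray p m j) ∧ Dt m b (ray p m (j + 1)) < 0) := by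
    intro j
    have hS := cross_pos p hp2 j
    rw [forall_split (fun i => mu (aj m b (- ray p m j) (- ray p m (j + 1))) i < 0)]
    simp only [h1, h2, h3]
    constructor
    · rintro ⟨a1, a2, a3⟩
      refine ⟨fun i => ?_, by linarith, a2⟩
      by_contra h
      push Not at h
      exact absurd (a1 i) (not_lt.2 (mul_nonneg h hS.le))
    · rintro ⟨a1, a2, a3⟩
      exact ⟨fun i => mul_neg_of_neg_of_pos (a1 i) hS, a3, by linarith⟩
  have hHH : ∀ j : ZMod p, HH (aj m b (- ray p m j) (- ray p m (j + 1))) =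
      if (∀ i, 0 < M' i) ∧ (Dt m b (ray p m j) < 0 ∧ 0 < Dt m b (ray p m (j + 1))) then 1 else
      if (∀ i, M' i < 0) ∧ (0 < Dt m b (ray p m j) ∧ Dt m b (ray p m (j + 1)) < 0) then -1
      else 0 := by
    intro j
    unfold HH
    simp only [hpos, hneg]
  show ∑ j : ZMod p, HH (aj m b (- ray p m j) (- ray p m (j + 1))) = _
  rw [Finset.sum_congr rfl fun j _ => hHH j]
  unfold HH
  by_cases c1 : ∀ i, 0 < M' i
  · have c2 : ¬ ∀ i, M' i < 0 := fun h => absurd (h 0) (not_lt.2 (c1 0).le)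
    rw [if_pos (show ∀ i, 0 < mu (fun s => vec (2 * m) (b s)) i from c1)]
    simp only [c1, c2, implies_true, true_and, false_and, if_false]
    obtain ⟨j, hj, hju⟩ := hA
    rw [Finset.sum_eq_single j]
    · rw [if_pos hj]
    · intro j' _ hne
      exact if_neg fun h => hne (hju j' h)
    · intro h
      exact absurd (Finset.mem_univ _) h
  · rw [if_neg (show ¬ ∀ i, 0 < mu (fun s => vec (2 * m) (b s)) i from c1)]
    by_cases c2 : ∀ i, M' i < 0
    · rw [if_pos (show ∀ i, mu (fun s => vec (2 * m) (b s)) i < 0 from c2)]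
      simp only [c1, c2, implies_true, true_and, false_and, if_false]
      obtain ⟨j, hj, hju⟩ := hB
      rw [Finset.sum_eq_single j]
      · rw [if_pos hj]
      · intro j' _ hne
        exact if_neg fun h => hne (hju j' h)
      · intro h
        exact absurd (Finset.mem_univ _) h
    · rw [if_neg (show ¬ ∀ i, mu (fun s => vec (2 * m) (b s)) i < 0 from c2)]
      simp only [c1, c2, false_and, if_false, Finset.sum_const_zero]

end Pool.Agent.Lib.MP_90aff6_co.CT
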