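import Pool.Agent.Lib.MP_90aff6_co.CT.Iface

set_option autoImplicit false

/-!
Board CT, row SPLIT (helper11): splitting a chain for one point or for one slot, cones.
-/

namespace Pool.Agent.Lib.MP_90aff6_co.CT.Split

open scoped BigOperators

open Pool.Agent.Lib.MP_90aff6_co.CT

variable {p : ℕ} {X Q : Type}

theorem word_cons (v : Vx p X) (l : List (Vx p X)) : word (v :: l) = gen v * word l := by
  unfold word
  rw [List.map_cons, List.prod_cons]

theorem word_nil : word ([] : List (Vx p X)) = 1 := rfl

theorem gen_anti (v w : Vx p X) (x : EA p X) : gen v * (gen w * x) = - (gen w * (gen v * x)) := by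
  have h : gen v * gen w + gen w * gen v = 0 := by
    unfold gen
    exact ExteriorAlgebra.ι_add_mul_swap (Finsupp.single v (1 : ZMod p)) (Finsupp.single w (1 : ZMod p))
  have h2 : gen v * gen w = - (gen w * gen v) := eq_neg_of_add_eq_zero_left h
  rw [← mul_assoc, h2, neg_mul, mul_assoc]

theorem lk_one (v : Vx p X) : lk v (1 : EA p X) = 0 := by
  unfold lk
  exact CliffordAlgebra.contractLeft_one
    (Q := (0 : QuadraticForm (ZMod p) (Vx p X →₀ ZMod p))) (Finsupp.lapply v)

/-- the link of a vertex in a word -/
theorem lk_word [DecidableEq X] (h : ExtStatement) (v : Vx p X) : ∀ l : List (Vx p X), l.Nodup →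
    (v ∉ l → lk v (word l) = 0) ∧
    (v ∈ l → ∃ e : ZMod p, lk v (word l) = e • word (l.erase v) ∧
      e • (gen v * word (l.erase v)) = word l) := by
  intro l
  induction l with
  | nil =>
    intro _
    refine ⟨fun _ => ?_, fun hv => absurd hv (by simp)⟩
    rw [word_nil]
    exact lk_one v
  | cons w l ih =>
    intro hnd
    rw [List.nodup_cons] at hnd
    obtain ⟨ih1, ih2⟩ := ih hnd.2
    have e1 := (h p X).2.1 v w (word l)
    constructor
    · intro hv
      rw [List.mem_cons, not_or] at hv
      rw [word_cons, e1, if_neg hv.1, ih1 hv.2, mul_zero, sub_zero]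
    · intro hv
      by_cases hvw : v = w
      · subst hvw
        refine ⟨1, ?_, ?_⟩
        · rw [word_cons, e1, if_pos rfl, ih1 hnd.1, mul_zero, sub_zero, one_smul,
            List.erase_cons_head]
        · rw [one_smul, List.erase_cons_head, word_cons]
      · have hvl : v ∈ l := by
          rcases List.mem_cons.1 hv with h' | h'
          · exact absurd h' hvw
          · exact h'
        obtain ⟨e, he1, he2⟩ := ih2 hvl
        have hne : ¬ (w == v) = true := by
          intro h'
          exact hvw (beq_iff_eq.1 h').symm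
        refine ⟨-e, ?_, ?_⟩
        · rw [word_cons, e1, if_neg hvw, he1, List.erase_cons_tail hne, word_cons, zero_sub,
            mul_smul_comm, neg_smul]
        · rw [List.erase_cons_tail hne, word_cons, word_cons, gen_anti, neg_smul, smul_neg,
            neg_neg, ← mul_smul_comm, he2]

theorem face_perm {cl : X → Q} {A : Finset X} {B : Finset (Q × ZMod p)} {l l' : List (Vx p X)}
    (hp : l.Perm l') (h : IsFace cl A B l) : IsFace cl A B l' :=
  ⟨(hp.map _).nodup_iff.1 h.1, (hp.map _).nodup_iff.1 h.2.1,
    fun v hv => h.2.2.1 v (hp.mem_iff.2 hv), fun v hv => h.2.2.2 v (hp.mem_iff.2 hv)⟩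

theorem face_nodup {cl : X → Q} {A : Finset X} {B : Finset (Q × ZMod p)} {l : List (Vx p X)}
    (h : IsFace cl A B l) : l.Nodup := List.Nodup.of_map _ h.1

theorem face_erase [DecidableEq X] [DecidableEq Q] {cl : X → Q} {A : Finset X}
    {B : Finset (Q × ZMod p)} {l : List (Vx p X)} (h : IsFace cl A B l) {v : Vx p X}
    (hv : v ∈ l) :
    IsFace cl (A.erase v.1) (B.erase (cl v.1, v.2)) (l.erase v) := by
  have h' := face_perm (List.perm_cons_erase hv) h
  obtain ⟨h1, h2, h3, h4⟩ := h'
  rw [List.map_cons, List.nodup_cons] at h1 h2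
  refine ⟨h1.2, h2.2, fun u hu => ?_, fun u hu => ?_⟩
  · refine Finset.mem_erase.2 ⟨fun he => h1.1 ?_, h3 u (List.mem_cons_of_mem _ hu)⟩
    rw [← he]
    exact List.mem_map_of_mem hu
  · refine Finset.mem_erase.2 ⟨fun he => h2.1 ?_, h4 u (List.mem_cons_of_mem _ hu)⟩
    rw [← he]
    exact List.mem_map_of_mem (f := fun v : Vx p X => (cl v.1, v.2)) hu

theorem word_mem {cl : X → Q} {A : Finset X} {B : Finset (Q × ZMod p)} {j : ℕ}
    {l : List (Vx p X)} (h : IsFace cl A B l) (hl : l.length = j) : word l ∈ CC cl A B j :=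
  Submodule.subset_span ⟨l, h, hl, rfl⟩

/-- the general form of the splitting: `T` is a finite set of vertices of which a face contains
at most one -/
theorem split_aux [DecidableEq X] [DecidableEq Q] (h : ExtStatement) (cl : X → Q) (A A' : Finset X)
    (B B' : Finset (Q × ZMod p)) (j : ℕ) {τ : Type} (T : Finset τ) (f : τ → Vx p X)
    (hf : Set.InjOn f T)
    (hT : ∀ l : List (Vx p X), IsFace cl A B l →
      (∃ t ∈ T, f t ∈ l ∧ ∀ s ∈ T, f s ∈ l → f s = f t) ∨
      ((∀ t ∈ T, f t ∉ l) ∧ IsFace cl A' B' l)) (z : EA p X) (hz : z ∈ CC cl A B j) :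
    z - ∑ t ∈ T, gen (f t) * lk (f t) z ∈ CC cl A' B' j := by
  have key : CC cl A B j ≤ (CC cl A' B' j).comap
      (LinearMap.id - ∑ t ∈ T, (LinearMap.mulLeft (ZMod p) (gen (f t))) ∘ₗ lk (f t)) := by
    unfold CC
    rw [Submodule.span_le]
    rintro w ⟨l, hl, hlen, rfl⟩
    rw [SetLike.mem_coe, Submodule.mem_comap, LinearMap.sub_apply, LinearMap.id_apply,
      LinearMap.sum_apply]
    simp only [LinearMap.comp_apply, LinearMap.mulLeft_apply]
    have hnd := face_nodup hl
    rcases hT l hl with ⟨t, ht, htl, huniq⟩ | ⟨hnone, hface⟩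
    · have hsum : ∑ s ∈ T, gen (f s) * lk (f s) (word l) = word l := by
        rw [Finset.sum_eq_single_of_mem t ht]
        · obtain ⟨e, he1, he2⟩ := (lk_word h (f t) l hnd).2 htl
          rw [he1, mul_smul_comm, he2]
        · intro s hs hst
          have : f s ∉ l := fun hsl => hst (hf hs ht (huniq s hs hsl))
          rw [(lk_word h (f s) l hnd).1 this, mul_zero]
      rw [hsum, sub_self]
      exact Submodule.zero_mem _
    · have hsum : ∑ s ∈ T, gen (f s) * lk (f s) (word l) = 0 := by
        apply Finset.sum_eq_zero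
        intro s hs
        rw [(lk_word h (f s) l hnd).1 (hnone s hs), mul_zero]
      rw [hsum, sub_zero]
      exact word_mem hface hlen
  have := key hz
  rw [Submodule.mem_comap, LinearMap.sub_apply, LinearMap.id_apply, LinearMap.sum_apply] at this
  simpa only [LinearMap.comp_apply, LinearMap.mulLeft_apply] using this

theorem split (h : ExtStatement) : SplitStatement := by
  intro p _ X Q _ _ cl A B j z hz
  refine ⟨?_, ?_, ?_, ?_, ?_⟩
  · -- degree zero
    intro v hj
    have key : CC cl A B j ≤ LinearMap.ker (lk v) := by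
      unfold CC
      rw [Submodule.span_le]
      rintro w ⟨l, hl, hlen, rfl⟩
      rw [hj, List.length_eq_zero_iff] at hlen
      subst hlen
      rw [SetLike.mem_coe, LinearMap.mem_ker, word_nil]
      exact lk_one v
    exact LinearMap.mem_ker.1 (key hz)
  · -- the link
    intro v i hj
    have key : CC cl A B j ≤ (CC cl (A.erase v.1) (B.erase (cl v.1, v.2)) i).comap (lk v) := by
      conv_lhs => unfold CC
      rw [Submodule.span_le]
      rintro w ⟨l, hl, hlen, rfl⟩
      rw [SetLike.mem_coe, Submodule.mem_comap]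
      by_cases hv : v ∈ l
      · obtain ⟨e, he1, _⟩ := (lk_word h v l (face_nodup hl)).2 hv
        rw [he1]
        apply Submodule.smul_mem
        apply word_mem (face_erase hl hv)
        rw [List.length_erase_of_mem hv]
        omega
      · rw [(lk_word h v l (face_nodup hl)).1 hv]
        exact Submodule.zero_mem _
    exact key hz
  · -- a point
    intro x hx
    apply split_aux h cl A (A.erase x) B B j (B.filter (fun y => y.1 = cl x))
      (fun y => ((x, y.2) : Vx p X)) _ _ z hz
    · intro y hy y' hy' he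
      rw [Finset.mem_coe, Finset.mem_filter] at hy hy'
      have h2 : y.2 = y'.2 := (Prod.mk.inj he).2
      exact Prod.ext (hy.2.trans hy'.2.symm) h2
    · intro l hl
      by_cases hex : ∃ i, ((x, i) : Vx p X) ∈ l
      · obtain ⟨i, hi⟩ := hex
        left
        refine ⟨(cl x, i), Finset.mem_filter.2 ⟨hl.2.2.2 _ hi, rfl⟩, hi, fun s _ hsl => ?_⟩
        exact List.inj_on_of_nodup_map hl.1 hsl hi rfl
      · push Not at hex
        right
        refine ⟨fun y _ => hex y.2, hl.1, hl.2.1, fun v hv => ?_, hl.2.2.2⟩
        refine Finset.mem_erase.2 ⟨fun he => hex v.2 ?_, hl.2.2.1 v hv⟩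
        rw [← he]
        exact hv
  · -- a slot
    intro y hy
    apply split_aux h cl A A B (B.erase y) j (A.filter (fun x => cl x = y.1))
      (fun x => ((x, y.2) : Vx p X)) _ _ z hz
    · intro x _ x' _ he
      exact (Prod.mk.inj he).1
    · intro l hl
      by_cases hex : ∃ v ∈ l, ((cl v.1, v.2) : Q × ZMod p) = y
      · obtain ⟨v, hv, hvy⟩ := hex
        left
        have e1 : cl v.1 = y.1 := by rw [← hvy]
        have e2 : v.2 = y.2 := by rw [← hvy]
        refine ⟨v.1, Finset.mem_filter.2 ⟨hl.2.2.1 _ hv, e1⟩, ?_, fun s hs hsl => ?_⟩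
        · show ((v.1, y.2) : Vx p X) ∈ l
          rw [← e2]
          exact hv
        · have hs' := (Finset.mem_filter.1 hs).2
          show ((s, y.2) : Vx p X) = (v.1, y.2)
          have := List.inj_on_of_nodup_map hl.2.1 hsl hv (by
            show ((cl s, y.2) : Q × ZMod p) = (cl v.1, v.2)
            rw [hs', e1, e2])
          rw [this]
          exact Prod.ext rfl e2
      · push Not at hex
        right
        refine ⟨fun x hx hxl => hex _ hxl ?_, hl.1, hl.2.1, hl.2.2.1, fun v hv => ?_⟩
        · have hx' := (Finset.mem_filter.1 hx).2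
          show ((cl x, y.2) : Q × ZMod p) = y
          rw [hx']
        · exact Finset.mem_erase.2 ⟨hex v hv, hl.2.2.2 v hv⟩
  · -- cones
    intro x A' B' i hxA hxB hA hB
    have key : CC cl A B j ≤ (CC cl A' B' (j + 1)).comap
        (LinearMap.mulLeft (ZMod p) (gen ((x, i) : Vx p X))) := by
      conv_lhs => unfold CC
      rw [Submodule.span_le]
      rintro w ⟨l, hl, hlen, rfl⟩
      rw [SetLike.mem_coe, Submodule.mem_comap, LinearMap.mulLeft_apply, ← word_cons]
      apply word_mem _ (by rw [List.length_cons, hlen])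
      refine ⟨?_, ?_, ?_, ?_⟩
      · rw [List.map_cons, List.nodup_cons]
        refine ⟨fun hm => ?_, hl.1⟩
        obtain ⟨v, hv, hvx⟩ := List.mem_map.1 hm
        apply hxA
        have := hl.2.2.1 v hv
        rw [hvx] at this
        exact this
      · rw [List.map_cons, List.nodup_cons]
        refine ⟨fun hm => ?_, hl.2.1⟩
        obtain ⟨v, hv, hvx⟩ := List.mem_map.1 hm
        apply hxB
        have := hl.2.2.2 v hv
        rw [hvx] at this
        exact this
      · intro v hv
        rcases List.mem_cons.1 hv with rfl | hv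
        · exact hA (Finset.mem_insert_self _ _)
        · exact hA (Finset.mem_insert_of_mem (hl.2.2.1 v hv))
      · intro v hv
        rcases List.mem_cons.1 hv with rfl | hv
        · exact hB (Finset.mem_insert_self _ _)
        · exact hB (Finset.mem_insert_of_mem (hl.2.2.2 v hv))
    have := key hz
    rwa [Submodule.mem_comap, LinearMap.mulLeft_apply] at this

end Pool.Agent.Lib.MP_90aff6_co.CT.Split

/-- row SPLIT -/
theorem Pool.Agent.Lib.MP_90aff6_co.CT.split
    (h : Pool.Agent.Lib.MP_90aff6_co.CT.ExtStatement) :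
    Pool.Agent.Lib.MP_90aff6_co.CT.SplitStatement :=
  Pool.Agent.Lib.MP_90aff6_co.CT.Split.split h
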