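import Pool.Agent.Lib.MP_90aff6_co.CT.Iface

set_option autoImplicit false

/-!
ZERO: every test map has a zero (from IND and GEN, by compactness of the simplex).
-/

namespace Pool.Agent.Lib.MP_90aff6_co.CT

open scoped BigOperators

namespace Zero

variable {p : ℕ} [NeZero p] {X : Type}

/-- The set of pairs (parameter, weights) for which the test map of `w` has a zero. -/
def Z (e : ℕ → ZMod p) (n : ℕ) (f g : X → ℕ → ℂ) (w : Fin (2 * n + 1) → Vx p X) :
    Set (ℝ × stdSimplex ℝ (Fin (2 * n + 1))) :=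
  {q | ∀ m < n, ∑ i, ((q.2.1 i : ℝ) : ℂ) *
    FF e (fun x m => f x m + (q.1 : ℂ) * g x m) (w i) m = 0}

theorem Z_closed (e : ℕ → ZMod p) (n : ℕ) (f g : X → ℕ → ℂ) (w : Fin (2 * n + 1) → Vx p X) :
    IsClosed (Z e n f g w) := by
  have h : Z e n f g w = ⋂ m : ℕ, ⋂ _ : m < n, {q : ℝ × stdSimplex ℝ (Fin (2 * n + 1)) |
      ∑ i, ((q.2.1 i : ℝ) : ℂ) *
        FF e (fun x m => f x m + (q.1 : ℂ) * g x m) (w i) m = 0} := by
    ext q
    simp only [Z, Set.mem_setOf_eq, Set.mem_iInter]
  rw [h]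
  refine isClosed_iInter fun m => isClosed_iInter fun _ => ?_
  refine isClosed_eq ?_ continuous_const
  refine continuous_finset_sum _ fun i _ => ?_
  have h1 : Continuous fun q : ℝ × stdSimplex ℝ (Fin (2 * n + 1)) => q.2.1 i :=
    (continuous_apply i).comp (continuous_subtype_val.comp continuous_snd)
  refine (Complex.continuous_ofReal.comp h1).mul ?_
  unfold FF
  have h2 : Continuous fun q : ℝ × stdSimplex ℝ (Fin (2 * n + 1)) => (q.1 : ℂ) :=
    Complex.continuous_ofReal.comp continuous_fst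
  exact continuous_const.mul (continuous_const.add (h2.mul continuous_const))

end Zero

theorem zero (h1 : IndStatement) (h2 : GenStatement) : ZeroStatement := by
  intro p _ hp2 X Q _ _ _ _ _ cl hcl n hn e he f
  obtain ⟨g, hg⟩ := h2 p X Q cl n e f
  let S : Set ℝ := ⋃ w : {w : Fin (2 * n + 1) → Vx p X //
    IsFace cl Finset.univ Finset.univ (List.ofFn w)}, Prod.fst '' Zero.Z e n f g w.1
  have hS : IsClosed S := by
    refine isClosed_iUnion_of_finite fun w => ?_
    exact isClosedMap_fst_of_compactSpace _ (Zero.Z_closed e n f g w.1)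
  have h0 : (0 : ℝ) ∈ closure S := by
    rw [Metric.mem_closure_iff]
    intro δ hδ
    obtain ⟨t, ht0, htδ, hgen⟩ := hg δ hδ
    refine ⟨t, ?_, ?_⟩
    · obtain ⟨w, hw, lam, hlam, hz⟩ := h1 p hp2 X Q cl hcl n hn e he _ hgen
      have hs : 0 < ∑ i, lam i :=
        Finset.sum_pos (fun i _ => hlam i) ⟨0, Finset.mem_univ _⟩
      refine Set.mem_iUnion.mpr ⟨⟨w, hw⟩, ?_⟩
      refine ⟨(t, ⟨fun i => lam i / ∑ j, lam j, ?_, ?_⟩), ?_, rfl⟩
      · intro i
        exact div_nonneg (hlam i).le hs.le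
      · rw [← Finset.sum_div]
        exact div_self hs.ne'
      · intro m hm
        have h3 := hz m hm
        have h4 : ∀ i, (((lam i / ∑ j, lam j : ℝ)) : ℂ) *
            FF e (fun x m => f x m + (t : ℂ) * g x m) (w i) m =
            ((∑ j, lam j : ℝ) : ℂ)⁻¹ * ((lam i : ℂ) *
              FF e (fun x m => f x m + (t : ℂ) * g x m) (w i) m) := by
          intro i
          rw [Complex.ofReal_div]
          ring
        show ∑ i, (((lam i / ∑ j, lam j : ℝ)) : ℂ) *
            FF e (fun x m => f x m + (t : ℂ) * g x m) (w i) m = 0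
        rw [Finset.sum_congr rfl fun i _ => h4 i, ← Finset.mul_sum, h3, mul_zero]
    · rw [Real.dist_eq, zero_sub, abs_neg, abs_of_pos ht0]
      exact htδ
  rw [hS.closure_eq] at h0
  obtain ⟨⟨w, hw⟩, h3⟩ := Set.mem_iUnion.mp h0
  obtain ⟨⟨t, lam⟩, hq, ht⟩ := h3
  have ht' : t = 0 := ht
  subst ht'
  refine ⟨w, hw, lam.1, lam.2.1, lam.2.2, ?_⟩
  intro m hm
  have h5 := hq m hm
  simp only [Complex.ofReal_zero, zero_mul, add_zero] at h5
  exact h5

end Pool.Agent.Lib.MP_90aff6_co.CT
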