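import Pool.Agent.Lib.MP_90aff6_co.CT.Iface
import Pool.Agent.Lib.MP_90aff6_co.CT.Ext
import Pool.Agent.Lib.MP_90aff6_co.CT.Split
import Pool.Agent.Lib.MP_90aff6_co.CT.Dec
import Pool.Agent.Lib.MP_90aff6_co.CT.Acy
import Pool.Agent.Lib.MP_90aff6_co.CT.Chn
import Pool.Agent.Lib.MP_90aff6_co.CT.Ev
import Pool.Agent.Lib.MP_90aff6_co.CT.Hc
import Pool.Agent.Lib.MP_90aff6_co.CT.Ha
import Pool.Agent.Lib.MP_90aff6_co.CT.Rot
import Pool.Agent.Lib.MP_90aff6_co.CT.Plane
import Pool.Agent.Lib.MP_90aff6_co.CT.Sec
import Pool.Agent.Lib.MP_90aff6_co.CT.Gen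
import Pool.Agent.Lib.MP_90aff6_co.CT.Fou
import Pool.Agent.Lib.MP_90aff6_co.CT.Zero
import Pool.Agent.Lib.MP_90aff6_co.CT.Prime
import Pool.Agent.Lib.MP_90aff6_co.CT.Ind

set_option autoImplicit false

/-!
Assembly: the coloured Tverberg theorem for odd primes, `p (d - k) ≤ d`, affine form.
-/

namespace Pool.Agent.Lib.MP_90aff6_co.CT

/-- The splitting statement. -/
theorem splitS : SplitStatement := Split.split Ext.ext

/-- The decomposition statement. -/
theorem decS : DecStatement := dec Ext.ext splitS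

/-- The acyclicity statement. -/
theorem acyS : AcyStatement := acy Ext.ext splitS decS

/-- The chains. -/
theorem chnS : ChnStatement := chn Ext.ext acyS

/-- Rotations. -/
theorem rotS : RotStatement := rot ht

/-- Sectors. -/
theorem secS : SecStatement := sec_proof plane

/-- Generic zeros. -/
theorem indS : IndStatement := ind Ext.ext chnS ev hc ha hr rotS secS

/-- Zeros. -/
theorem zeroS : ZeroStatement := zero indS gen'

/-- The coloured Tverberg theorem for odd primes. -/
theorem primeTheorem : PrimeStatement := prime_proof zeroS fou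

end Pool.Agent.Lib.MP_90aff6_co.CT
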