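import Pool.Agent.Lib.MP_90aff6_co.CT.Iface

set_option autoImplicit false

/-!
Board CT, row GEN: generic directions.
-/

namespace Pool.Agent.Lib.MP_90aff6_co.CT.GenRow

open Pool.Agent.Lib.MP_90aff6_co.CT

/-! ### Polynomials on lines -/

/-- finitely many nonzero polynomials have a common nonroot in every nonempty open interval -/
theorem exists_nonroot {κ : Type} [Finite κ] (q : κ → Polynomial ℝ) (hq : ∀ c, q c ≠ 0)
    (a b : ℝ) (hab : a < b) : ∃ t, a < t ∧ t < b ∧ ∀ c, (q c).eval t ≠ 0 := by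
  classical
  have hfin : (⋃ c, {t : ℝ | (q c).IsRoot t}).Finite := by
    apply Set.finite_iUnion
    intro c
    exact Polynomial.finite_setOfPred_isRoot (hq c)
  have hinf : (Set.Ioo a b).Infinite := Set.Ioo_infinite hab
  obtain ⟨t, ht, ht'⟩ := hinf.exists_notMem_finite hfin
  refine ⟨t, ht.1, ht.2, ?_⟩
  intro c hc
  exact ht' (Set.mem_iUnion.mpr ⟨c, hc⟩)

variable {V : Type} [AddCommGroup V] [Module ℝ V]

theorem exists_all {κ : Type} (s : Finset κ) (D : κ → V → ℝ)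
    (hP : ∀ c f g, ∃ q : Polynomial ℝ, ∀ t : ℝ, D c (f + t • g) = q.eval t)
    (hN : ∀ c, ∃ h, D c h ≠ 0) : ∃ h, ∀ c ∈ s, D c h ≠ 0 := by
  classical
  induction s using Finset.induction_on with
  | empty => exact ⟨0, fun c hc => absurd hc (Finset.notMem_empty c)⟩
  | insert c s hc ih =>
    obtain ⟨h, hh⟩ := ih
    obtain ⟨h', hh'⟩ := hN c
    choose q hq using fun c' : κ => hP c' h (h' - h)
    have hne : ∀ c' : {c' // c' ∈ insert c s}, q c'.1 ≠ 0 := by
      rintro ⟨c', hc'⟩ h0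
      rcases Finset.mem_insert.mp hc' with rfl | hs
      · have h1 := hq c' 1
        rw [h0, Polynomial.eval_zero, one_smul, add_sub_cancel] at h1
        exact hh' h1
      · have h1 := hq c' 0
        rw [h0, Polynomial.eval_zero, zero_smul, add_zero] at h1
        exact hh c' hs h1
    obtain ⟨t, -, -, ht⟩ := exists_nonroot (fun c' : {c' // c' ∈ insert c s} => q c'.1) hne 0 1
      zero_lt_one
    refine ⟨h + t • (h' - h), ?_⟩
    intro c' hc'
    rw [hq c' t]
    exact ht ⟨c', hc'⟩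

theorem generic {κ : Type} [Finite κ] (D : κ → V → ℝ)
    (hP : ∀ c f g, ∃ q : Polynomial ℝ, ∀ t : ℝ, D c (f + t • g) = q.eval t)
    (hN : ∀ c, ∃ h, D c h ≠ 0) (f : V) :
    ∃ g : V, ∀ δ : ℝ, 0 < δ → ∃ t : ℝ, 0 < t ∧ t < δ ∧ ∀ c, D c (f + t • g) ≠ 0 := by
  classical
  have : Fintype κ := Fintype.ofFinite κ
  obtain ⟨h, hh⟩ := exists_all Finset.univ D hP hN
  refine ⟨h - f, ?_⟩
  choose q hq using fun c : κ => hP c f (h - f)
  have hne : ∀ c : κ, q c ≠ 0 := by
    intro c h0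
    have h1 := hq c 1
    rw [h0, Polynomial.eval_zero, one_smul, add_sub_cancel] at h1
    exact hh c (Finset.mem_univ c) h1
  intro δ hδ
  obtain ⟨t, ht0, ht1, ht⟩ := exists_nonroot q hne 0 δ hδ
  refine ⟨t, ht0, ht1, ?_⟩
  intro c
  rw [hq c t]
  exact ht c

/-- the determinant is polynomial on lines -/
theorem det_line {q : ℕ} (A B : Matrix (Fin q) (Fin q) ℝ) :
    ∃ P : Polynomial ℝ, ∀ t : ℝ, (Matrix.of fun r i => A r i + t * B r i).det = P.eval t := by
  refine ⟨(Matrix.of fun r i => Polynomial.C (A r i) + Polynomial.X * Polynomial.C (B r i) :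
    Matrix (Fin q) (Fin q) (Polynomial ℝ)).det, ?_⟩
  intro t
  have h1 := RingHom.map_det (Polynomial.evalRingHom t) (Matrix.of fun r i =>
    Polynomial.C (A r i) + Polynomial.X * Polynomial.C (B r i) :
      Matrix (Fin q) (Fin q) (Polynomial ℝ))
  rw [Polynomial.coe_evalRingHom] at h1
  rw [h1]
  congr 1
  ext r i
  simp
  ring

/-! ### Rows in one plane -/

theorem vec_add (q : ℕ) (z z' : ℕ → ℂ) (t : ℝ) (i : Fin q) :
    vec q (fun m => z m + (t : ℂ) * z' m) i = vec q z i + t * vec q z' i := by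
  unfold vec
  split_ifs
  · simp
  · simp

theorem sum_plane (q : ℕ) (j : ℕ) (h : 2 * j + 1 < q) (ζ : ℂ) (v : Fin q → ℝ) :
    ∑ i : Fin q, vec q (fun l => if l = j then ζ else 0) i * v i =
      ζ.re * v ⟨2 * j, by omega⟩ + ζ.im * v ⟨2 * j + 1, h⟩ := by
  classical
  have hne : (⟨2 * j, by omega⟩ : Fin q) ≠ ⟨2 * j + 1, h⟩ := by
    intro h'
    rw [Fin.mk.injEq] at h'
    omega
  rw [← Finset.sum_subset (Finset.subset_univ {(⟨2 * j, by omega⟩ : Fin q), ⟨2 * j + 1, h⟩}),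
    Finset.sum_pair hne]
  · unfold vec
    have h1 : 2 * j % 2 = 0 := by omega
    have h2 : (2 * j + 1) % 2 ≠ 0 := by omega
    have h3 : 2 * j / 2 = j := by omega
    have h4 : (2 * j + 1) / 2 = j := by omega
    simp only [h1, h2, h3, h4, if_true, if_false]
  · intro i _ hi
    have h5 : (i : ℕ) / 2 ≠ j := by
      intro h6
      apply hi
      rw [Finset.mem_insert, Finset.mem_singleton]
      rcases Nat.mod_two_eq_zero_or_one (i : ℕ) with h7 | h7
      · left
        apply Fin.ext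
        show (i : ℕ) = 2 * j
        omega
      · right
        apply Fin.ext
        show (i : ℕ) = 2 * j + 1
        omega
    unfold vec
    simp [h5]

theorem det_plane (q M : ℕ) (hq : q = 2 * M) (ζ : ℕ → ℂ)
    (h : ∀ j < M, (ζ (2 * j)).re * (ζ (2 * j + 1)).im - (ζ (2 * j)).im * (ζ (2 * j + 1)).re ≠ 0) :
    (Matrix.of fun r : Fin q => vec q (fun l => if l = (r : ℕ) / 2 then ζ r else 0)).det ≠ 0 := by
  subst hq
  intro hdet
  obtain ⟨v, hv, hMv⟩ := Matrix.exists_mulVec_eq_zero_iff.mpr hdet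
  apply hv
  have hrow : ∀ r : Fin (2 * M), ∀ hr : 2 * ((r : ℕ) / 2) + 1 < 2 * M,
      (ζ r).re * v ⟨2 * ((r : ℕ) / 2), by omega⟩ +
        (ζ r).im * v ⟨2 * ((r : ℕ) / 2) + 1, hr⟩ = 0 := by
    intro r hr
    have h1 := congrFun hMv r
    rw [Matrix.mulVec, dotProduct] at h1
    rw [← sum_plane (2 * M) ((r : ℕ) / 2) hr (ζ r) v]
    exact h1
  have hpl : ∀ j, ∀ hj : j < M, v ⟨2 * j, by omega⟩ = 0 ∧ v ⟨2 * j + 1, by omega⟩ = 0 := by
    intro j hj
    have e1 := hrow ⟨2 * j, by omega⟩ (by show 2 * (2 * j / 2) + 1 < 2 * M; omega)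
    have e2 := hrow ⟨2 * j + 1, by omega⟩ (by show 2 * ((2 * j + 1) / 2) + 1 < 2 * M; omega)
    have h3 : 2 * j / 2 = j := by omega
    have h4 : (2 * j + 1) / 2 = j := by omega
    simp only [h3, h4] at e1 e2
    set x := v ⟨2 * j, by omega⟩
    set y := v ⟨2 * j + 1, by omega⟩
    have hx : ((ζ (2 * j)).re * (ζ (2 * j + 1)).im - (ζ (2 * j)).im * (ζ (2 * j + 1)).re) * x = 0 := by
      linear_combination (ζ (2 * j + 1)).im * e1 - (ζ (2 * j)).im * e2
    have hy : ((ζ (2 * j)).re * (ζ (2 * j + 1)).im - (ζ (2 * j)).im * (ζ (2 * j + 1)).re) * y = 0 := by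
      linear_combination (ζ (2 * j)).re * e2 - (ζ (2 * j + 1)).re * e1
    exact ⟨(mul_eq_zero.mp hx).resolve_left (h j hj), (mul_eq_zero.mp hy).resolve_left (h j hj)⟩
  funext i
  rcases Nat.mod_two_eq_zero_or_one (i : ℕ) with h7 | h7
  · have h8 : i = ⟨2 * ((i : ℕ) / 2), by omega⟩ := by
      apply Fin.ext
      show (i : ℕ) = 2 * ((i : ℕ) / 2)
      omega
    rw [h8]
    exact (hpl ((i : ℕ) / 2) (by omega)).1
  · have h8 : i = ⟨2 * ((i : ℕ) / 2) + 1, by omega⟩ := by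
      apply Fin.ext
      show (i : ℕ) = 2 * ((i : ℕ) / 2) + 1
      omega
    rw [h8]
    exact (hpl ((i : ℕ) / 2) (by omega)).2

/-! ### The test map -/

section test

variable {p : ℕ} [NeZero p] {X : Type}

theorem zt_norm (j : ZMod p) : ‖zt p j‖ = 1 := by
  unfold zt
  exact AddChar.norm_apply _ j

theorem zt_ne (j : ZMod p) : zt p j ≠ 0 := by
  intro h
  have h1 := zt_norm j
  rw [h, norm_zero] at h1
  exact zero_ne_one h1

/-- the images of distinct points are arbitrary -/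
theorem exists_f {q : ℕ} (e : ℕ → ZMod p) (w : Fin q → Vx p X)
    (hw : Function.Injective (fun r => (w r).1)) (T : Fin q → ℕ → ℂ) :
    ∃ f : X → ℕ → ℂ, ∀ r, FF e f (w r) = T r := by
  classical
  refine ⟨fun x m => if h : ∃ r, (w r).1 = x then
    (zt p (e m * (w h.choose).2))⁻¹ * T h.choose m else 0, ?_⟩
  intro r
  funext m
  have h : ∃ r', (w r').1 = (w r).1 := ⟨r, rfl⟩
  have hr : h.choose = r := hw h.choose_spec
  show zt p (e m * (w r).2) * (if h : ∃ r', (w r').1 = (w r).1 then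
    (zt p (e m * (w h.choose).2))⁻¹ * T h.choose m else 0) = T r m
  rw [dif_pos h, hr, ← mul_assoc, mul_inv_cancel₀ (zt_ne _), one_mul]

theorem FF_line (e : ℕ → ZMod p) (f g : X → ℕ → ℂ) (t : ℝ) (v : Vx p X) :
    FF e (f + t • g) v = fun m => FF e f v m + (t : ℂ) * FF e g v m := by
  funext m
  unfold FF
  show zt p (e m * v.2) * (f v.1 m + t • g v.1 m) = _
  rw [Complex.real_smul]
  ring

theorem inj_of_face {Q : Type} [Fintype X] [Fintype Q] {q : ℕ} {cl : X → Q}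
    {w : Fin q → Vx p X} (h : IsFace cl Finset.univ Finset.univ (List.ofFn w)) :
    Function.Injective (fun r => (w r).1) := by
  have h1 := h.1
  rw [List.map_ofFn] at h1
  exact List.nodup_ofFn.mp h1

end test

section main

variable {p : ℕ} [NeZero p] {X Q : Type} [Fintype X] [Fintype Q]

/-- the index set of the conditions -/
abbrev Idx (cl : X → Q) (n : ℕ) (p : ℕ) [NeZero p] : Type :=
  (Σ m : Fin (n + 1), {w : Fin (2 * (m : ℕ)) → Vx p X //
    IsFace cl Finset.univ Finset.univ (List.ofFn w)}) ⊕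
  (Σ m : Fin n, {w : Fin (2 * (m : ℕ) + 1) → Vx p X //
    IsFace cl Finset.univ Finset.univ (List.ofFn w)} × ZMod p)

/-- the conditions -/
noncomputable def DD (cl : X → Q) (n : ℕ) (e : ℕ → ZMod p) : Idx cl n p → (X → ℕ → ℂ) → ℝ
  | Sum.inl c => fun f => Matrix.det (Matrix.of fun r => vec (2 * (c.1 : ℕ)) (FF e f (c.2.1 r)))
  | Sum.inr c => fun f => Matrix.det (Matrix.of fun s : Fin (2 * (c.1 : ℕ) + 2) =>
      vec (2 * (c.1 : ℕ) + 2)
      ((Fin.snoc (α := fun _ => ℕ → ℂ) (fun r => FF e f (c.2.1.1 r)) (ray p c.1 c.2.2) :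
        Fin (2 * (c.1 : ℕ) + 1 + 1) → ℕ → ℂ) s))

theorem DD_line (cl : X → Q) (n : ℕ) (e : ℕ → ZMod p) (c : Idx cl n p) (f g : X → ℕ → ℂ) :
    ∃ P : Polynomial ℝ, ∀ t : ℝ, DD cl n e c (f + t • g) = P.eval t := by
  rcases c with c | c
  · obtain ⟨P, hP⟩ := det_line (Matrix.of fun r => vec (2 * (c.1 : ℕ)) (FF e f (c.2.1 r)))
      (Matrix.of fun r => vec (2 * (c.1 : ℕ)) (FF e g (c.2.1 r)))
    refine ⟨P, ?_⟩
    intro t
    rw [← hP t]
    show Matrix.det _ = _
    congr 1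
    ext r i
    show vec (2 * (c.1 : ℕ)) (FF e (f + t • g) (c.2.1 r)) i = _
    rw [FF_line, vec_add]
    rfl
  · obtain ⟨P, hP⟩ := det_line (Matrix.of fun s : Fin (2 * (c.1 : ℕ) + 2) =>
      vec (2 * (c.1 : ℕ) + 2)
      ((Fin.snoc (α := fun _ => ℕ → ℂ) (fun r => FF e f (c.2.1.1 r)) (ray p c.1 c.2.2) :
        Fin (2 * (c.1 : ℕ) + 1 + 1) → ℕ → ℂ) s)) (Matrix.of fun s : Fin (2 * (c.1 : ℕ) + 2) =>
      vec (2 * (c.1 : ℕ) + 2)
      ((Fin.snoc (α := fun _ => ℕ → ℂ) (fun r => FF e g (c.2.1.1 r)) 0 :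
        Fin (2 * (c.1 : ℕ) + 1 + 1) → ℕ → ℂ) s))
    refine ⟨P, ?_⟩
    intro t
    rw [← hP t]
    show Matrix.det _ = _
    congr 1
    ext s i
    show vec (2 * (c.1 : ℕ) + 2)
      ((Fin.snoc (α := fun _ => ℕ → ℂ) (fun r => FF e (f + t • g) (c.2.1.1 r))
        (ray p c.1 c.2.2) : Fin (2 * (c.1 : ℕ) + 1 + 1) → ℕ → ℂ) s) i =
      vec (2 * (c.1 : ℕ) + 2)
      ((Fin.snoc (α := fun _ => ℕ → ℂ) (fun r => FF e f (c.2.1.1 r)) (ray p c.1 c.2.2) :
        Fin (2 * (c.1 : ℕ) + 1 + 1) → ℕ → ℂ) s) i + t * vec (2 * (c.1 : ℕ) + 2)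
      ((Fin.snoc (α := fun _ => ℕ → ℂ) (fun r => FF e g (c.2.1.1 r)) 0 :
        Fin (2 * (c.1 : ℕ) + 1 + 1) → ℕ → ℂ) s) i
    rw [← vec_add]
    congr 1
    refine Fin.lastCases ?_ (fun r => ?_) s
    · rw [Fin.snoc_last, Fin.snoc_last, Fin.snoc_last]
      funext m
      simp
    · rw [Fin.snoc_castSucc, Fin.snoc_castSucc, Fin.snoc_castSucc, FF_line]

theorem DD_ne (cl : X → Q) (n : ℕ) (e : ℕ → ZMod p) (c : Idx cl n p) :
    ∃ f, DD cl n e c f ≠ 0 := by
  rcases c with ⟨m, w, hw⟩ | ⟨m, ⟨w, hw⟩, j⟩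
  · obtain ⟨f, hf⟩ := exists_f e w (inj_of_face hw)
      (fun r l => if l = (r : ℕ) / 2 then (if (r : ℕ) % 2 = 0 then (1 : ℂ) else Complex.I) else 0)
    refine ⟨f, ?_⟩
    have h1 := det_plane (2 * (m : ℕ)) m rfl (fun r => if r % 2 = 0 then (1 : ℂ) else Complex.I)
      (by
        intro j _
        have h1 : 2 * j % 2 = 0 := by omega
        simp [h1])
    show Matrix.det (Matrix.of fun r => vec (2 * (m : ℕ)) (FF e f (w r))) ≠ 0
    simp only [hf]
    exact h1
  · obtain ⟨f, hf⟩ := exists_f e w (inj_of_face hw)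
      (fun r l => if l = (r : ℕ) / 2 then (if (r : ℕ) = 2 * m then Complex.I * zt p j else
        if (r : ℕ) % 2 = 0 then (1 : ℂ) else Complex.I) else 0)
    refine ⟨f, ?_⟩
    have h1 := det_plane (2 * (m : ℕ) + 2) (m + 1) rfl (fun r => if r = 2 * m then
      Complex.I * zt p j else if r = 2 * m + 1 then zt p j else
        if r % 2 = 0 then (1 : ℂ) else Complex.I)
      (by
        intro l hl
        have h1 : 2 * l % 2 = 0 := by omega
        have h2 : (2 * l + 1) % 2 ≠ 0 := by omega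
        by_cases h3 : l = m
        · subst h3
          have h4 : ¬ (2 * (m : ℕ) + 1 = 2 * (m : ℕ)) := by omega
          simp only [if_true, h4, if_false]
          have h5 := zt_norm (p := p) j
          have h6 : (zt p j).re * (zt p j).re + (zt p j).im * (zt p j).im = 1 := by
            rw [← Complex.normSq_apply, Complex.normSq_eq_norm_sq, h5]
            norm_num
          intro h7
          simp at h7
          nlinarith
        · have h4 : ¬ (2 * l = 2 * (m : ℕ)) := by omega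
          have h5 : ¬ (2 * l = 2 * (m : ℕ) + 1) := by omega
          have h6 : ¬ (2 * l + 1 = 2 * (m : ℕ)) := by omega
          have h7 : ¬ (2 * l + 1 = 2 * (m : ℕ) + 1) := by omega
          simp only [h4, h5, h6, h7, if_false, h1, h2, if_true]
          simp)
    show Matrix.det (Matrix.of fun s : Fin (2 * (m : ℕ) + 2) => vec (2 * (m : ℕ) + 2)
      ((Fin.snoc (α := fun _ => ℕ → ℂ) (fun r => FF e f (w r)) (ray p m j) :
        Fin (2 * (m : ℕ) + 1 + 1) → ℕ → ℂ) s)) ≠ 0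
    have h2 : (Matrix.of fun s : Fin (2 * (m : ℕ) + 2) => vec (2 * (m : ℕ) + 2)
      ((Fin.snoc (α := fun _ => ℕ → ℂ) (fun r => FF e f (w r)) (ray p m j) :
        Fin (2 * (m : ℕ) + 1 + 1) → ℕ → ℂ) s)) = (Matrix.of fun r : Fin (2 * (m : ℕ) + 2) =>
        vec (2 * (m : ℕ) + 2) (fun l => if l = (r : ℕ) / 2 then (fun r => if r = 2 * (m : ℕ) then
      Complex.I * zt p j else if r = 2 * m + 1 then zt p j else
        if r % 2 = 0 then (1 : ℂ) else Complex.I) (r : ℕ) else 0)) := by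
      ext s i
      rw [Matrix.of_apply, Matrix.of_apply]
      congr 1
      refine Fin.lastCases ?_ (fun r => ?_) s
      · rw [Fin.snoc_last]
        funext l
        unfold ray
        have h3 : ((Fin.last (2 * (m : ℕ) + 1) : Fin (2 * (m : ℕ) + 1 + 1)) : ℕ) =
          2 * m + 1 := rfl
        have h4 : (2 * (m : ℕ) + 1) / 2 = m := by omega
        have h5 : ¬ (2 * (m : ℕ) + 1 = 2 * (m : ℕ)) := by omega
        simp only [h3, h4, h5, if_false, if_true]
      · rw [Fin.snoc_castSucc, hf]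
        funext l
        have h3 : ((Fin.castSucc r : Fin (2 * (m : ℕ) + 1 + 1)) : ℕ) = r := rfl
        have h4 : ¬ ((r : ℕ) = 2 * (m : ℕ) + 1) := by omega
        simp only [h3, h4, if_false]
    rw [h2]
    exact h1

end main

theorem gen' : GenStatement := by
  intro p _ X Q _ _ _ _ cl n e f
  have : NeZero p := ⟨(Fact.out : p.Prime).ne_zero⟩
  obtain ⟨g, hg⟩ := generic (DD cl n e) (DD_line cl n e) (DD_ne cl n e) f
  refine ⟨g, ?_⟩
  intro δ hδ
  obtain ⟨t, ht0, ht1, ht⟩ := hg δ hδ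
  refine ⟨t, ht0, ht1, ?_⟩
  have hfg : (fun x m => f x m + (t : ℂ) * g x m) = f + t • g := by
    funext x m
    show _ = f x m + t • g x m
    rw [Complex.real_smul]
  rw [hfg]
  refine ⟨?_, ?_⟩
  · intro m hm w hw
    exact ht (Sum.inl ⟨⟨m, by omega⟩, w, hw⟩)
  · intro m hm w hw j
    exact ht (Sum.inr ⟨⟨m, hm⟩, ⟨w, hw⟩, j⟩)

end Pool.Agent.Lib.MP_90aff6_co.CT.GenRow

namespace Pool.Agent.Lib.MP_90aff6_co.CT

theorem gen' : GenStatement := GenRow.gen'

end Pool.Agent.Lib.MP_90aff6_co.CT
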