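import Mathlib

set_option autoImplicit false

/-!
Interface of the board CT: the coloured Tverberg theorem for odd primes (type A and B, affine form).
-/

namespace Pool.Agent.Lib.MP_90aff6_co.CT

open scoped BigOperators

section Chains

/-- Vertices: a point with a label in `ZMod p`. -/
abbrev Vx (p : ℕ) (X : Type) : Type := X × ZMod p

/-- The exterior algebra on the vertices with coefficients in `ZMod p`. -/
abbrev EA (p : ℕ) (X : Type) : Type := ExteriorAlgebra (ZMod p) (Vx p X →₀ ZMod p)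

variable {p : ℕ} {X Q : Type}

/-- The generator of a vertex. -/
noncomputable def gen (v : Vx p X) : EA p X :=
  ExteriorAlgebra.ι (ZMod p) (Finsupp.single v (1 : ZMod p))

/-- The augmentation functional. -/
noncomputable def eps (p : ℕ) (X : Type) : Module.Dual (ZMod p) (Vx p X →₀ ZMod p) :=
  Finsupp.linearCombination (ZMod p) (fun _ => (1 : ZMod p))

/-- The boundary: contraction with the augmentation. -/
noncomputable def bd (p : ℕ) (X : Type) : EA p X →ₗ[ZMod p] EA p X :=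
  CliffordAlgebra.contractLeft (Q := (0 : QuadraticForm (ZMod p) (Vx p X →₀ ZMod p))) (eps p X)

/-- The link operator of a vertex: contraction with the coordinate functional. -/
noncomputable def lk (v : Vx p X) : EA p X →ₗ[ZMod p] EA p X :=
  CliffordAlgebra.contractLeft (Q := (0 : QuadraticForm (ZMod p) (Vx p X →₀ ZMod p)))
    (Finsupp.lapply v)

/-- The product of the generators of a list of vertices. -/
noncomputable def word (l : List (Vx p X)) : EA p X := (l.map gen).prod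

/-- `l` is a face: no point and no slot (class, label) is used twice; points from `A`, slots
from `B`. -/
def IsFace (cl : X → Q) (A : Finset X) (B : Finset (Q × ZMod p)) (l : List (Vx p X)) : Prop :=
  (l.map Prod.fst).Nodup ∧ (l.map fun v => (cl v.1, v.2)).Nodup ∧
    (∀ v ∈ l, v.1 ∈ A) ∧ ∀ v ∈ l, (cl v.1, v.2) ∈ B

/-- Chains on faces with `j` vertices. -/
noncomputable def CC (cl : X → Q) (A : Finset X) (B : Finset (Q × ZMod p)) (j : ℕ) :
    Submodule (ZMod p) (EA p X) :=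
  Submodule.span (ZMod p) {z | ∃ l : List (Vx p X), IsFace cl A B l ∧ l.length = j ∧ z = word l}

/-- The shift of all labels by `a`. -/
def sh (a : ZMod p) (v : Vx p X) : Vx p X := (v.1, v.2 + a)

/-- The action of `a : ZMod p` on chains. -/
noncomputable def act (a : ZMod p) : EA p X →ₗ[ZMod p] EA p X :=
  (ExteriorAlgebra.map (Finsupp.lmapDomain (ZMod p) (ZMod p) (sh (X := X) a))).toLinearMap

end Chains

/-! ### EXT : calculus of words -/

/-- Boundary and link of a product with a generator in front. -/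
def ExtStatement : Prop :=
  ∀ (p : ℕ) (X : Type) [DecidableEq X],
    (∀ (v : Vx p X) (x : EA p X), bd p X (gen v * x) = x - gen v * bd p X x) ∧
    (∀ (v w : Vx p X) (x : EA p X),
      lk v (gen w * x) = (if v = w then x else 0) - gen w * lk v x) ∧
    (∀ (v : Vx p X) (x : EA p X), lk v (bd p X x) = - bd p X (lk v x)) ∧
    (∀ x : EA p X, bd p X (bd p X x) = 0) ∧
    (∀ (a : ZMod p) (x : EA p X), act a (bd p X x) = bd p X (act a x)) ∧
    (∀ (a b : ZMod p) (x : EA p X), act a (act b x) = act (a + b) x) ∧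
    (∀ x : EA p X, act 0 x = x) ∧
    (∀ (a : ZMod p) (l : List (Vx p X)), act a (word l) = word (l.map (sh a))) ∧
    (∀ (n : ℕ) (w : Fin (n + 1) → Vx p X), bd p X (word (List.ofFn w)) =
      ∑ i : Fin (n + 1), (-1 : ZMod p) ^ (i : ℕ) • word (List.ofFn (w ∘ i.succAbove)))

/-- Splitting a chain: for one point `x` (`PT`) and for one slot `y` (`SL`). -/
def SplitStatement : Prop :=
  ∀ (p : ℕ) [NeZero p] (X Q : Type) [DecidableEq X] [DecidableEq Q] (cl : X → Q) (A : Finset X)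
    (B : Finset (Q × ZMod p)) (j : ℕ) (z : EA p X), z ∈ CC cl A B j →
    -- the link of a vertex; it is `0` in degree 0, and lowers the degree by one
    (∀ v : Vx p X, j = 0 → lk v z = 0) ∧
    (∀ (v : Vx p X) (i : ℕ), j = i + 1 →
      lk v z ∈ CC cl (A.erase v.1) (B.erase (cl v.1, v.2)) i) ∧
    -- splitting off a point
    (∀ x ∈ A, z - ∑ y ∈ B.filter (fun y => y.1 = cl x), gen (x, y.2) * lk (x, y.2) z
      ∈ CC cl (A.erase x) B j) ∧
    -- splitting off a slot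
    (∀ y ∈ B, z - ∑ x ∈ A.filter (fun x => cl x = y.1), gen (x, y.2) * lk (x, y.2) z
      ∈ CC cl A (B.erase y) j) ∧
    -- cones
    (∀ (x : X) (A' : Finset X) (B' : Finset (Q × ZMod p)) (i : ZMod p), x ∉ A → (cl x, i) ∉ B →
      insert x A ⊆ A' → insert (cl x, i) B ⊆ B' → gen (x, i) * z ∈ CC cl A' B' (j + 1))

/-- DEC: top cycles are sums of cycles that miss `s` points of a class. -/
def DecStatement : Prop :=
  ∀ (p : ℕ) [NeZero p] (X Q : Type) [DecidableEq X] [DecidableEq Q] (cl : X → Q) (c : Q)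
    (A : Finset X) (B : Finset (Q × ZMod p)) (s : ℕ) (z : EA p X),
    2 * (B.filter (fun y => y.1 = c)).card + s ≤ (A.filter (fun x => cl x = c)).card →
    z ∈ CC cl A B B.card → bd p X z = 0 →
    z ∈ Submodule.span (ZMod p) {u : EA p X | bd p X u = 0 ∧
      ∃ S : Finset X, S ⊆ A.filter (fun x => cl x = c) ∧ S.card = s ∧ u ∈ CC cl (A \ S) B B.card}

/-- ACY: cycles with fewer vertices than slots are boundaries. -/
def AcyStatement : Prop :=
  ∀ (p : ℕ) [NeZero p] (X Q : Type) [DecidableEq X] [DecidableEq Q] (cl : X → Q)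
    (A : Finset X) (B : Finset (Q × ZMod p)) (j : ℕ) (z : EA p X),
    (∀ y ∈ B, 2 * (B.filter (fun y' => y'.1 = y.1)).card ≤
      (A.filter (fun x => cl x = y.1)).card + 1) →
    j + 1 ≤ B.card → z ∈ CC cl A B j → bd p X z = 0 →
    ∃ w ∈ CC cl A B (j + 1), bd p X w = z

/-- CHN: the chains of the periodic resolution. -/
def ChnStatement : Prop :=
  ∀ (p : ℕ) [Fact p.Prime] (X Q : Type) [Fintype X] [Fintype Q] [DecidableEq X] [DecidableEq Q]
    [Nonempty Q] (cl : X → Q),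
    (∀ c : Q, 2 * p ≤ (Finset.univ.filter (fun x => cl x = c)).card + 1) →
    ∃ c : ℕ → EA p X, bd p X (c 0) = 1 ∧
      (∀ j, j + 1 ≤ p * Fintype.card Q → c j ∈ CC cl Finset.univ Finset.univ (j + 1)) ∧
      (∀ i, 2 * i + 2 ≤ p * Fintype.card Q →
        bd p X (c (2 * i + 1)) = act 1 (c (2 * i)) - c (2 * i)) ∧
      (∀ i, 2 * i + 3 ≤ p * Fintype.card Q →
        bd p X (c (2 * i + 2)) = ∑ a : ZMod p, act a (c (2 * i + 1)))

/-- EV: an alternating function on tuples of vertices is evaluated on chains. -/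
def EvStatement : Prop :=
  ∀ (p : ℕ) [NeZero p] (X : Type) [Fintype X] [DecidableEq X] (q : ℕ)
    (g : (Fin q → Vx p X) → ZMod p),
    (∀ (w : Fin q → Vx p X) (σ : Equiv.Perm (Fin q)),
      g (w ∘ σ) = ((Equiv.Perm.sign σ : ℤ) : ZMod p) * g w) →
    (∀ w : Fin q → Vx p X, ¬ Function.Injective w → g w = 0) →
    ∃ φ : EA p X →ₗ[ZMod p] ZMod p, ∀ w : Fin q → Vx p X, φ (word (List.ofFn w)) = g w

/-! ### Geometry -/

/-- The minors of `q + 1` vectors in `ℝ ^ q`, with signs. -/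
noncomputable def mu {q : ℕ} (a : Fin (q + 1) → Fin q → ℝ) (i : Fin (q + 1)) : ℝ :=
  (-1 : ℝ) ^ (i : ℕ) * Matrix.det (Matrix.of fun r => a (i.succAbove r))

open Classical in
/-- The signed indicator of `0` in the interior of the simplex. -/
noncomputable def HH {q : ℕ} (a : Fin (q + 1) → Fin q → ℝ) : ℤ :=
  if ∀ i, 0 < mu a i then 1 else if ∀ i, mu a i < 0 then -1 else 0

/-- HC: the cocycle identity. -/
def HcStatement : Prop :=
  ∀ (q : ℕ) (a : Fin (q + 2) → Fin q → ℝ),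
    (∀ s : Fin q → Fin (q + 2), Function.Injective s →
      Matrix.det (Matrix.of fun r => a (s r)) ≠ 0) →
    ∑ i : Fin (q + 2), (-1 : ℤ) ^ (i : ℕ) * HH (fun r => a (i.succAbove r)) = 0

/-- HA: alternation. -/
def HaStatement : Prop :=
  ∀ (q : ℕ) (a : Fin (q + 1) → Fin q → ℝ) (σ : Equiv.Perm (Fin (q + 1))),
    HH (fun i => a (σ i)) = (Equiv.Perm.sign σ : ℤ) * HH a

/-- HT: invariance under linear maps of positive determinant. -/
def HtStatement : Prop :=
  ∀ (q : ℕ) (T : Matrix (Fin q) (Fin q) ℝ), 0 < T.det → ∀ a : Fin (q + 1) → Fin q → ℝ,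
    HH (fun i => T.mulVec (a i)) = HH a

/-- HR: a nonzero value gives a positive relation. -/
def HrStatement : Prop :=
  ∀ (q : ℕ) (a : Fin (q + 1) → Fin q → ℝ), HH a ≠ 0 →
    ∃ lam : Fin (q + 1) → ℝ, (∀ i, 0 < lam i) ∧ ∀ r : Fin q, ∑ i, lam i * a i r = 0

/-- The real coordinates of a sequence of complex numbers. -/
noncomputable def vec (q : ℕ) (z : ℕ → ℂ) : Fin q → ℝ :=
  fun i => if (i : ℕ) % 2 = 0 then (z ((i : ℕ) / 2)).re else (z ((i : ℕ) / 2)).im

/-- The root of unity `exp (2 π i j / p)`. -/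
noncomputable def zt (p : ℕ) [NeZero p] (j : ZMod p) : ℂ := ZMod.stdAddChar (N := p) j

/-- The `j`-th ray in the plane number `m`. -/
noncomputable def ray (p : ℕ) [NeZero p] (m : ℕ) (j : ZMod p) : ℕ → ℂ :=
  fun i => if i = m then zt p j else 0

/-- PLANE: the open sectors between consecutive rays tile the plane. -/
def PlaneStatement : Prop :=
  ∀ (p : ℕ) [Fact p.Prime], p ≠ 2 → ∀ z : ℂ,
    (∀ j : ZMod p, z.re * (zt p j).im - z.im * (zt p j).re ≠ 0) →
    ∃! j : ZMod p, ∃ α β : ℝ, 0 < α ∧ 0 < β ∧ z = α * zt p j + β * zt p (j + 1)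

/-- SEC: the sum over the sectors. -/
def SecStatement : Prop :=
  ∀ (p : ℕ) [Fact p.Prime], p ≠ 2 → ∀ (m : ℕ) (b : Fin (2 * m + 1) → ℕ → ℂ),
    (∀ i, mu (fun s => vec (2 * m) (b s)) i ≠ 0) →
    (∀ j : ZMod p, Matrix.det (Matrix.of fun s : Fin (2 * m + 2) =>
      vec (2 * m + 2) ((Fin.snoc (α := fun _ => ℕ → ℂ) b (ray p m j) :
        Fin (2 * m + 1 + 1) → ℕ → ℂ) s)) ≠ 0) →
    ∑ j : ZMod p, HH (fun s : Fin (2 * m + 2 + 1) => vec (2 * m + 2)
      ((Fin.snoc (α := fun _ => ℕ → ℂ) (Fin.snoc (α := fun _ => ℕ → ℂ) b (- ray p m j))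
        (- ray p m (j + 1)) : Fin (2 * m + 1 + 1 + 1) → ℕ → ℂ) s)) =
      HH (fun s => vec (2 * m) (b s))

/-- ROT: multiplication by unit complex numbers does not change `HH`. -/
def RotStatement : Prop :=
  ∀ (m : ℕ) (u : ℕ → ℂ), (∀ i, ‖u i‖ = 1) → ∀ b : Fin (2 * m + 1) → ℕ → ℂ,
    HH (fun s => vec (2 * m) (fun i => u i * b s i)) = HH (fun s => vec (2 * m) (b s))

/-- The test map: the vertex `(x, i)` goes to `zt (e m * i) * f x m` in the plane `m`. -/
noncomputable def FF {p : ℕ} [NeZero p] {X : Type} (e : ℕ → ZMod p) (f : X → ℕ → ℂ)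
    (v : Vx p X) : ℕ → ℂ := fun m => zt p (e m * v.2) * f v.1 m

/-- Genericity of `f` in the first `n` planes. -/
def Gen {p : ℕ} [NeZero p] {X Q : Type} [Fintype X] [Fintype Q] (cl : X → Q) (e : ℕ → ZMod p)
    (n : ℕ) (f : X → ℕ → ℂ) : Prop :=
  (∀ m, m ≤ n → ∀ w : Fin (2 * m) → Vx p X,
    IsFace cl Finset.univ Finset.univ (List.ofFn w) →
    Matrix.det (Matrix.of fun r => vec (2 * m) (FF e f (w r))) ≠ 0) ∧
  (∀ m, m < n → ∀ w : Fin (2 * m + 1) → Vx p X,
    IsFace cl Finset.univ Finset.univ (List.ofFn w) → ∀ j : ZMod p,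
    Matrix.det (Matrix.of fun s : Fin (2 * m + 2) => vec (2 * m + 2)
      ((Fin.snoc (α := fun _ => ℕ → ℂ) (fun r => FF e f (w r)) (ray p m j) :
        Fin (2 * m + 1 + 1) → ℕ → ℂ) s)) ≠ 0)

/-- IND: a generic test map has a zero. -/
def IndStatement : Prop :=
  ∀ (p : ℕ) [Fact p.Prime], p ≠ 2 → ∀ (X Q : Type) [Fintype X] [Fintype Q] [DecidableEq X]
    [DecidableEq Q] [Nonempty Q] (cl : X → Q),
    (∀ c : Q, 2 * p ≤ (Finset.univ.filter (fun x => cl x = c)).card + 1) →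
    ∀ (n : ℕ), 2 * n + 1 ≤ p * Fintype.card Q → ∀ e : ℕ → ZMod p, (∀ m, e m ≠ 0) →
    ∀ f : X → ℕ → ℂ, Gen cl e n f →
    ∃ w : Fin (2 * n + 1) → Vx p X, IsFace cl Finset.univ Finset.univ (List.ofFn w) ∧
      ∃ lam : Fin (2 * n + 1) → ℝ, (∀ i, 0 < lam i) ∧
        ∀ m < n, ∑ i, (lam i : ℂ) * FF e f (w i) m = 0

/-- GEN: generic directions. -/
def GenStatement : Prop :=
  ∀ (p : ℕ) [Fact p.Prime] (X Q : Type) [Fintype X] [Fintype Q] [DecidableEq X] [DecidableEq Q]
    (cl : X → Q) (n : ℕ) (e : ℕ → ZMod p) (f : X → ℕ → ℂ),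
    ∃ g : X → ℕ → ℂ, ∀ δ : ℝ, 0 < δ → ∃ t : ℝ, 0 < t ∧ t < δ ∧
      Gen cl e n (fun x m => f x m + (t : ℂ) * g x m)

/-- ZERO: every test map has a zero. -/
def ZeroStatement : Prop :=
  ∀ (p : ℕ) [Fact p.Prime], p ≠ 2 → ∀ (X Q : Type) [Fintype X] [Fintype Q] [DecidableEq X]
    [DecidableEq Q] [Nonempty Q] (cl : X → Q),
    (∀ c : Q, 2 * p ≤ (Finset.univ.filter (fun x => cl x = c)).card + 1) →
    ∀ (n : ℕ), 2 * n + 1 ≤ p * Fintype.card Q → ∀ e : ℕ → ZMod p, (∀ m, e m ≠ 0) →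
    ∀ f : X → ℕ → ℂ,
    ∃ w : Fin (2 * n + 1) → Vx p X, IsFace cl Finset.univ Finset.univ (List.ofFn w) ∧
      ∃ lam : Fin (2 * n + 1) → ℝ, (∀ i, 0 ≤ lam i) ∧ ∑ i, lam i = 1 ∧
        ∀ m < n, ∑ i, (lam i : ℂ) * FF e f (w i) m = 0

/-- FOU: real vectors `Y i`, `i : ZMod p`, whose Fourier coefficients at `1, .., (p - 1) / 2`
vanish, are all equal. -/
def FouStatement : Prop :=
  ∀ (p : ℕ) [Fact p.Prime], p ≠ 2 → ∀ Y : ZMod p → ℝ,
    (∀ a : ℕ, 1 ≤ a → a ≤ (p - 1) / 2 → ∑ i : ZMod p, zt p ((a : ZMod p) * i) * (Y i : ℂ) = 0) →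
    ∀ i j, Y i = Y j

/-- The property inside the frozen statement (as in the hand-in StableInequality). -/
def Works (t r k d : ℕ) : Prop :=
  ∀ C : Fin (k + 1) → Finset (EuclideanSpace ℝ (Fin d)),
    (∀ i j, i ≠ j → Disjoint (C i) (C j)) →
    (∀ i, t ≤ (C i).card) →
    ∃ a : Fin r → Fin (k + 1) → EuclideanSpace ℝ (Fin d),
      (∀ i j, a i j ∈ C j) ∧
      Function.Injective (fun p : Fin r × Fin (k + 1) => a p.1 p.2) ∧
      (⋂ i, convexHull ℝ (Set.range (a i))).Nonempty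

/-- PRIME: the coloured Tverberg theorem for odd primes, `p (d - k) ≤ d`. -/
def PrimeStatement : Prop :=
  ∀ p : ℕ, p.Prime → p ≠ 2 → ∀ k d : ℕ, p * d ≤ d + p * k → Works (2 * p - 1) p k d

end Pool.Agent.Lib.MP_90aff6_co.CT
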