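import Pool.Agent.Lib.MP_90aff6_co.CT.Iface

set_option autoImplicit false

/-! Auxiliary lemmas for IND. -/

namespace Pool.Agent.Lib.MP_90aff6_co.CT

open scoped BigOperators

/-! ### Algebra in `ZMod p` -/

lemma sum_alpha {p : ℕ} [Fact p.Prime] (α β : ZMod p → ZMod p) (e : ZMod p)
    (h : ∀ j, α j - α (j + 1) = β (j - e) - β j) : ∑ j, α j = e * ∑ j, β j := by
  classical
  -- `k : ℕ` represents `e`
  obtain ⟨k, rfl⟩ : ∃ k : ℕ, (k : ZMod p) = e := ⟨e.val, by simp⟩
  set γ : ZMod p → ZMod p := fun j => α j - ∑ i ∈ Finset.range k, β (j - (i + 1 : ℕ)) with hγ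
  have h1 : ∀ j, γ (j + 1) = γ j := by
    intro j
    have e1 : ∑ i ∈ Finset.range k, β (j + 1 - (i + 1 : ℕ)) =
        ∑ i ∈ Finset.range k, β (j - (i + 1 : ℕ)) + β j - β (j - k) := by
      have a1 : ∑ i ∈ Finset.range k, β (j + 1 - (i + 1 : ℕ)) =
          ∑ i ∈ Finset.range k, β (j - (i : ℕ)) := by
        refine Finset.sum_congr rfl (fun i _ => ?_)
        congr 1; push_cast; ring
      have a2 : ∑ i ∈ Finset.range k, β (j - (i : ℕ)) + β (j - (k : ℕ)) =
          ∑ i ∈ Finset.range k, β (j - (i + 1 : ℕ)) + β j := by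
        rw [← Finset.sum_range_succ (fun i : ℕ => β (j - (i : ℕ))) k,
          Finset.sum_range_succ' (fun i : ℕ => β (j - (i : ℕ))) k]
        simp
      rw [a1]
      linear_combination a2
    have e2 := h j
    simp only [hγ]
    rw [e1]
    linear_combination -e2
  have h2 : ∀ j, γ j = γ 0 := by
    intro j
    obtain ⟨n, rfl⟩ : ∃ n : ℕ, (n : ZMod p) = j := ⟨j.val, by simp⟩
    induction n with
    | zero => simp
    | succ n ih => rw [Nat.cast_succ, h1, ih]
  have h3 : ∑ j, γ j = 0 := by
    rw [Finset.sum_congr rfl (fun j _ => h2 j)]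
    simp
  have h4 : ∑ j, γ j = ∑ j, α j - (k : ZMod p) * ∑ j, β j := by
    simp only [hγ, Finset.sum_sub_distrib]
    congr 1
    rw [Finset.sum_comm]
    have : ∀ i ∈ Finset.range k, ∑ j, β (j - ((i + 1 : ℕ) : ZMod p)) = ∑ j, β j := by
      intro i _
      exact Equiv.sum_comp (Equiv.subRight ((i + 1 : ℕ) : ZMod p)) β
    rw [Finset.sum_congr rfl this]
    simp
  rw [h3] at h4
  linear_combination -h4

/-! ### Functionals on chains -/

lemma CC_ext {p : ℕ} {X Q : Type} [Fintype X] [Fintype Q] [NeZero p] {cl : X → Q} {q : ℕ}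
    (φ ψ : EA p X →ₗ[ZMod p] ZMod p)
    (h : ∀ w : Fin q → Vx p X, IsFace cl Finset.univ Finset.univ (List.ofFn w) →
      φ (word (List.ofFn w)) = ψ (word (List.ofFn w))) :
    ∀ z ∈ CC cl Finset.univ Finset.univ q, φ z = ψ z := by
  intro z hz
  refine LinearMap.eqOn_span (f := φ) (g := ψ) ?_ hz
  rintro z ⟨l, hl, hlen, rfl⟩
  subst hlen
  have h1 : List.ofFn l.get = l := List.ofFn_get l
  have := h l.get (by rw [h1]; exact hl)
  rwa [h1] at this

/-! ### Alternating functions -/

lemma zero_of_alt {V : Type} {q : ℕ} (G : (Fin q → V) → ℤ)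
    (hG : ∀ (w : Fin q → V) (σ : Equiv.Perm (Fin q)), G (w ∘ σ) = (Equiv.Perm.sign σ : ℤ) * G w)
    (w : Fin q → V) (hw : ¬ Function.Injective w) : G w = 0 := by
  classical
  rw [Function.Injective] at hw
  push Not at hw
  obtain ⟨i, j, hij, hne⟩ := hw
  have h1 : w ∘ (Equiv.swap i j) = w := by
    funext s
    simp only [Function.comp_apply]
    rcases eq_or_ne s i with rfl | hsi
    · rw [Equiv.swap_apply_left, hij]
    · rcases eq_or_ne s j with rfl | hsj
      · rw [Equiv.swap_apply_right, hij]
      · rw [Equiv.swap_apply_of_ne_of_ne hsi hsj]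
  have h2 := hG w (Equiv.swap i j)
  rw [h1, Equiv.Perm.sign_swap hne] at h2
  simp at h2
  omega

/-- Extend a permutation of `Fin N` to `Fin (N + 1)` fixing the last element. -/
lemma exists_extend {N : ℕ} (σ : Equiv.Perm (Fin N)) : ∃ τ : Equiv.Perm (Fin (N + 1)),
    Equiv.Perm.sign τ = Equiv.Perm.sign σ ∧ (∀ i, τ (Fin.castSucc i) = Fin.castSucc (σ i)) ∧
    τ (Fin.last N) = Fin.last N := by
  classical
  refine ⟨σ.extendDomain (finSuccAboveEquiv (Fin.last N)), ?_, ?_, ?_⟩
  · exact Equiv.Perm.sign_extendDomain _ _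
  · intro i
    have h := Equiv.Perm.extendDomain_apply_image σ (finSuccAboveEquiv (Fin.last N)) i
    simpa [finSuccAboveEquiv_apply] using h
  · exact Equiv.Perm.extendDomain_apply_not_subtype σ _ (by simp)

lemma snoc_perm {α : Type} {N : ℕ} (b : Fin N → α) (x : α) (σ : Equiv.Perm (Fin N))
    (τ : Equiv.Perm (Fin (N + 1))) (h1 : ∀ i, τ (Fin.castSucc i) = Fin.castSucc (σ i))
    (h2 : τ (Fin.last N) = Fin.last N) :
    (Fin.snoc (α := fun _ => α) (b ∘ σ) x : Fin (N + 1) → α) =
      (Fin.snoc (α := fun _ => α) b x : Fin (N + 1) → α) ∘ τ := by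
  funext i
  refine Fin.lastCases ?_ (fun i => ?_) i
  · simp [h2]
  · simp [h1]

/-- Removing an index of the front part of a `snoc`. -/
lemma snoc_succAbove {α : Type} {N : ℕ} (b : Fin (N + 1) → α) (x : α) (i : Fin (N + 1)) :
    (fun r : Fin (N + 1) => (Fin.snoc (α := fun _ => α) b x : Fin (N + 2) → α)
      (i.castSucc.succAbove r)) =
      (Fin.snoc (α := fun _ => α) (fun r => b (i.succAbove r)) x : Fin (N + 1) → α) := by
  funext r
  refine Fin.lastCases ?_ (fun r => ?_) r
  · have : i.castSucc.succAbove (Fin.last N) = Fin.last (N + 1) := by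
      rw [Fin.succAbove_of_le_castSucc _ _ (by
        rw [Fin.le_iff_val_le_val]
        have := i.2
        simp only [Fin.val_castSucc, Fin.val_last]
        omega)]
      simp
    simp [this]
  · rw [Fin.castSucc_succAbove_castSucc]
    simp

/-! ### General position -/

lemma gp_snoc {K N : ℕ} (b : Fin N → Fin (K + 1) → ℝ) (x : Fin (K + 1) → ℝ)
    (h1 : ∀ t : Fin (K + 1) → Fin N, Function.Injective t →
      Matrix.det (Matrix.of fun r => b (t r)) ≠ 0)
    (h2 : ∀ t : Fin K → Fin N, Function.Injective t →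
      Matrix.det (Matrix.of (Fin.snoc (α := fun _ => Fin (K + 1) → ℝ) (fun r => b (t r)) x)) ≠ 0)
    (s : Fin (K + 1) → Fin (N + 1)) (hs : Function.Injective s) :
    Matrix.det (Matrix.of fun r => (Fin.snoc (α := fun _ => Fin (K + 1) → ℝ) b x :
      Fin (N + 1) → Fin (K + 1) → ℝ) (s r)) ≠ 0 := by
  classical
  by_cases hl : ∃ r, s r = Fin.last N
  · obtain ⟨r0, hr0⟩ := hl
    set τ := Equiv.swap r0 (Fin.last K) with hτ
    have hτl : s (τ (Fin.last K)) = Fin.last N := by rw [hτ, Equiv.swap_apply_right, hr0]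
    have hne : ∀ r : Fin K, s (τ (Fin.castSucc r)) ≠ Fin.last N := by
      intro r h
      rw [← hτl] at h
      have := τ.injective (hs h)
      exact (Fin.castSucc_lt_last r).ne this
    set t : Fin K → Fin N := fun r => (s (τ (Fin.castSucc r))).castPred (hne r) with ht
    have htinj : Function.Injective t := by
      intro r r' h
      have h3 : s (τ (Fin.castSucc r)) = s (τ (Fin.castSucc r')) := by
        have := congrArg Fin.castSucc h
        simpa [ht] using this
      exact Fin.castSucc_injective _ (τ.injective (hs h3))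
    have h3 := h2 t htinj
    have h4 : (Matrix.of (Fin.snoc (α := fun _ => Fin (K + 1) → ℝ) (fun r => b (t r)) x)) =
        (Matrix.of fun r => (Fin.snoc (α := fun _ => Fin (K + 1) → ℝ) b x :
          Fin (N + 1) → Fin (K + 1) → ℝ) (s r)).submatrix τ id := by
      ext r c
      simp only [Matrix.of_apply, Matrix.submatrix_apply, id]
      refine Fin.lastCases ?_ (fun r => ?_) r
      · rw [hτl]; simp
      · have h5 : s (τ (Fin.castSucc r)) = Fin.castSucc (t r) := by simp [ht]
        rw [h5]
        simp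
    rw [h4, Matrix.det_permute] at h3
    exact right_ne_zero_of_mul h3
  · push Not at hl
    set t : Fin (K + 1) → Fin N := fun r => (s r).castPred (hl r) with ht
    have htinj : Function.Injective t := by
      intro r r' h
      have h3 : s r = s r' := by
        have := congrArg Fin.castSucc h
        simpa [ht] using this
      exact hs h3
    have h3 := h1 t htinj
    have h4 : (fun r => b (t r)) = fun r => (Fin.snoc (α := fun _ => Fin (K + 1) → ℝ) b x :
        Fin (N + 1) → Fin (K + 1) → ℝ) (s r) := by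
      funext r
      have h5 : s r = Fin.castSucc (t r) := by simp [ht]
      rw [h5]
      simp
    rw [h4] at h3
    exact h3

/-- The second version: the last row is fixed. -/
lemma gp_snoc2 {K N : ℕ} (b : Fin N → Fin (K + 2) → ℝ) (x y : Fin (K + 2) → ℝ)
    (h1 : ∀ t : Fin (K + 1) → Fin N, Function.Injective t →
      Matrix.det (Matrix.of (Fin.snoc (α := fun _ => Fin (K + 2) → ℝ) (fun r => b (t r)) y)) ≠ 0)
    (h2 : ∀ t : Fin K → Fin N, Function.Injective t →
      Matrix.det (Matrix.of (Fin.snoc (α := fun _ => Fin (K + 2) → ℝ)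
        (Fin.snoc (α := fun _ => Fin (K + 2) → ℝ) (fun r => b (t r)) x) y)) ≠ 0)
    (s : Fin (K + 1) → Fin (N + 1)) (hs : Function.Injective s) :
    Matrix.det (Matrix.of (Fin.snoc (α := fun _ => Fin (K + 2) → ℝ) (fun r =>
      (Fin.snoc (α := fun _ => Fin (K + 2) → ℝ) b x :
      Fin (N + 1) → Fin (K + 2) → ℝ) (s r)) y)) ≠ 0 := by
  classical
  by_cases hl : ∃ r, s r = Fin.last N
  · obtain ⟨r0, hr0⟩ := hl
    set τ := Equiv.swap r0 (Fin.last K) with hτ
    have hτl : s (τ (Fin.last K)) = Fin.last N := by rw [hτ, Equiv.swap_apply_right, hr0]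
    have hne : ∀ r : Fin K, s (τ (Fin.castSucc r)) ≠ Fin.last N := by
      intro r h
      rw [← hτl] at h
      have := τ.injective (hs h)
      exact (Fin.castSucc_lt_last r).ne this
    set t : Fin K → Fin N := fun r => (s (τ (Fin.castSucc r))).castPred (hne r) with ht
    have htinj : Function.Injective t := by
      intro r r' h
      have h3 : s (τ (Fin.castSucc r)) = s (τ (Fin.castSucc r')) := by
        have := congrArg Fin.castSucc h
        simpa [ht] using this
      exact Fin.castSucc_injective _ (τ.injective (hs h3))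
    have h3 := h2 t htinj
    obtain ⟨τ', -, hτ1, hτ2⟩ := exists_extend τ
    have h4 : (Matrix.of (Fin.snoc (α := fun _ => Fin (K + 2) → ℝ)
        (Fin.snoc (α := fun _ => Fin (K + 2) → ℝ) (fun r => b (t r)) x) y)) =
        (Matrix.of (Fin.snoc (α := fun _ => Fin (K + 2) → ℝ) (fun r =>
          (Fin.snoc (α := fun _ => Fin (K + 2) → ℝ) b x :
          Fin (N + 1) → Fin (K + 2) → ℝ) (s r)) y)).submatrix τ' id := by
      ext r c
      simp only [Matrix.of_apply, Matrix.submatrix_apply, id]
      refine Fin.lastCases ?_ (fun r => ?_) r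
      · rw [hτ2]; simp
      · rw [hτ1]
        simp only [Fin.snoc_castSucc]
        refine Fin.lastCases ?_ (fun r => ?_) r
        · rw [hτl]; simp
        · have h5 : s (τ (Fin.castSucc r)) = Fin.castSucc (t r) := by simp [ht]
          rw [h5]
          simp
    rw [h4, Matrix.det_permute] at h3
    exact right_ne_zero_of_mul h3
  · push Not at hl
    set t : Fin (K + 1) → Fin N := fun r => (s r).castPred (hl r) with ht
    have htinj : Function.Injective t := by
      intro r r' h
      have h3 : s r = s r' := by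
        have := congrArg Fin.castSucc h
        simpa [ht] using this
      exact hs h3
    have h3 := h1 t htinj
    have h4 : (fun r => b (t r)) = fun r => (Fin.snoc (α := fun _ => Fin (K + 2) → ℝ) b x :
        Fin (N + 1) → Fin (K + 2) → ℝ) (s r) := by
      funext r
      have h5 : s r = Fin.castSucc (t r) := by simp [ht]
      rw [h5]
      simp
    rw [h4] at h3
    exact h3

end Pool.Agent.Lib.MP_90aff6_co.CT
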