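import Pool.Agent.Lib.MP_90aff6_co.CT.PntC
import Pool.Agent.Lib.MP_6bc78b_nt.SW.H23.Per
import Pool.Agent.Lib.MP_6bc78b_nt.SW.H76.Uns

/-! Row PNT of the board ctv_modules (MP_90aff6_co): the prime number theorem, as
`|ψ(x) - x| ≤ C x (log x)^(-1/2)`, and a prime in every `[r, (1 + ε) r]`, `r` large. -/

set_option autoImplicit false

open Complex Finset

namespace Pool.Agent.Lib.MP_90aff6_co.CT.Pnt

open Pool.Agent.Lib.MP_6bc78b_nt Pool.Agent.Lib.MP_6bc78b_nt.SW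

/-- `Λ(n) - 1` for `n ≥ 2`, and 0 for `n ≤ 1`. -/
noncomputable def bb (n : ℕ) : ℂ :=
  if n ≤ 1 then 0 else ((ArithmeticFunction.vonMangoldt n - 1 : ℝ) : ℂ)

lemma bb_le (n : ℕ) : ‖bb n‖ ≤ Real.log n := by
  unfold bb
  split_ifs with h
  · rw [norm_zero]; exact Real.log_natCast_nonneg n
  · have hn : 2 ≤ n := by omega
    rw [Complex.norm_real, Real.norm_eq_abs, abs_le]
    have h1 : ArithmeticFunction.vonMangoldt n ≤ Real.log n :=
      ArithmeticFunction.vonMangoldt_le_log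
    have h0 : 0 ≤ ArithmeticFunction.vonMangoldt n := ArithmeticFunction.vonMangoldt_nonneg
    have h2 := Real.log_two_gt_d9
    rcases Nat.lt_or_ge n 3 with h3 | h3
    · have : n = 2 := by omega
      subst this
      rw [ArithmeticFunction.vonMangoldt_apply_prime Nat.prime_two]
      push_cast
      constructor <;> linarith
    · have h4 : (1 : ℝ) ≤ Real.log n := by
        have h5 : (3 : ℝ) ≤ n := by exact_mod_cast h3
        rw [Real.le_log_iff_exp_le (by linarith)]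
        have := Real.exp_one_lt_d9
        linarith
      constructor <;> linarith

lemma bb_aa (n : ℕ) : bb n * ((Real.log n ^ 2 : ℝ) : ℂ) = aa n := by
  rw [aa_eq]
  unfold bb
  split_ifs with h
  · have : n = 0 ∨ n = 1 := by omega
    rcases this with rfl | rfl <;> simp
  · rfl

lemma summable_aa {s : ℂ} (hs : 1 < s.re) : LSeriesSummable aa s :=
  (H38.vmLog_summable ch1 2 hs).sub (H38.chiLog_summable ch1 2 hs)

/-- Perron. -/
lemma perron_aa : ∃ K : ℝ, 1 ≤ K ∧ ∀ x : ℝ, 1 ≤ x →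
    ‖∑ n ∈ Icc 1 ⌊x⌋₊, bb n * ((Real.log n ^ 2 : ℝ) : ℂ) * (1 - (n : ℂ) / x)‖ ≤ K * x := by
  obtain ⟨K, hK0, hK⟩ := aa_le
  obtain ⟨C2, hC2, hP'⟩ := per
  refine ⟨1 + 3 * C2 * K, by
    have : 0 ≤ 3 * C2 * K := by positivity
    linarith, ?_⟩
  intro x hx
  have hl : 0 ≤ Real.log x := Real.log_nonneg hx
  have hc1 : 1 < 1 + 1 / (1 + Real.log x) := by
    have : 0 < 1 / (1 + Real.log x) := by positivity
    linarith
  have hc2 : 1 + 1 / (1 + Real.log x) ≤ 2 := by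
    have : 1 / (1 + Real.log x) ≤ 1 := by
      rw [div_le_one (by linarith)]
      linarith
    linarith
  have h1 := hP' aa (1 + 1 / (1 + Real.log x)) K hc1 hc2 hK0.le
    (summable_aa (s := ((1 + 1 / (1 + Real.log x) : ℝ) : ℂ)) (by
      rw [Complex.ofReal_re]; exact hc1))
    (fun t => hK _ t hc1 hc2) x hx
  have h2 : ∑ n ∈ Icc 1 ⌊x⌋₊, bb n * ((Real.log n ^ 2 : ℝ) : ℂ) * (1 - (n : ℂ) / x) =
      ∑ n ∈ Icc 1 ⌊x⌋₊, aa n * (1 - (n : ℂ) / x) := by
    apply Finset.sum_congr rfl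
    intro n _
    rw [bb_aa]
  rw [h2]
  calc ‖∑ n ∈ Icc 1 ⌊x⌋₊, aa n * (1 - (n : ℂ) / x)‖
      ≤ C2 * K * x ^ (1 + 1 / (1 + Real.log x)) := h1
    _ ≤ C2 * K * (3 * x) := by
      apply mul_le_mul_of_nonneg_left (H93.rpow_le_three_mul x hx) (by positivity)
    _ ≤ (1 + 3 * C2 * K) * x := by nlinarith

lemma sum_bb (x : ℝ) (hx : 1 ≤ x) : ∑ n ∈ Icc 1 ⌊x⌋₊, bb n =
    ((Chebyshev.psi x - (⌊x⌋₊ - 1) : ℝ) : ℂ) := by
  have h1 : 1 ≤ ⌊x⌋₊ := Nat.le_floor (by simpa using hx)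
  have h2 : ∀ N : ℕ, 1 ≤ N → ∑ n ∈ Icc 1 N, bb n =
      ((∑ n ∈ Icc 1 N, ArithmeticFunction.vonMangoldt n - (N - 1) : ℝ) : ℂ) := by
    intro N hN
    induction N, hN using Nat.le_induction with
    | base => simp [bb]
    | succ N hN ih =>
      rw [Finset.sum_Icc_succ_top (by omega), ih, Finset.sum_Icc_succ_top (by omega)]
      have : bb (N + 1) = ((ArithmeticFunction.vonMangoldt (N + 1) - 1 : ℝ) : ℂ) := by
        unfold bb
        rw [if_neg (by omega)]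
      rw [this]
      push_cast
      ring
  rw [h2 _ h1]
  rfl

/-- The prime number theorem with a weak error term. -/
theorem psi_bound : ∃ C : ℝ, 0 < C ∧ ∀ x : ℝ, 3 ≤ x →
    |Chebyshev.psi x - x| ≤ C * x * Real.log x ^ (-(1 / 2) : ℝ) + 2 := by
  obtain ⟨K, hK1, hK⟩ := perron_aa
  obtain ⟨C, hC, hU⟩ := H76.uns 2 (by norm_num)
  refine ⟨C * Real.sqrt K, by positivity, ?_⟩
  intro x hx
  have h1 := hU bb K x hK1 hx (fun n _ => bb_le n) (fun y hy _ => hK y hy)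
  rw [sum_bb x (by linarith), Complex.norm_real, Real.norm_eq_abs] at h1
  have e : (-((((2 : ℕ) : ℝ) - 1) / 2) : ℝ) = (-(1 / 2) : ℝ) := by norm_num
  rw [e] at h1
  have h2 : (⌊x⌋₊ : ℝ) ≤ x := Nat.floor_le (by linarith)
  have h3 : x < (⌊x⌋₊ : ℝ) + 1 := Nat.lt_floor_add_one x
  rw [abs_le] at h1 ⊢
  constructor <;> linarith [h1.1, h1.2]

/-- The prime number theorem for `θ`. -/
theorem theta_asymp (δ : ℝ) (hδ : 0 < δ) : ∃ x0 : ℝ, ∀ x : ℝ, x0 ≤ x →
    |Chebyshev.theta x - x| ≤ δ * x := by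
  obtain ⟨C, hC, h⟩ := psi_bound
  obtain ⟨C', h'⟩ := Chebyshev.psi_sub_theta_le_mul_sqrt
  have hl : Filter.Tendsto (fun x : ℝ => Real.log x ^ (-(1 / 2) : ℝ)) Filter.atTop (nhds 0) :=
    (tendsto_rpow_neg_atTop (by norm_num)).comp Real.tendsto_log_atTop
  have hl2 : Filter.Tendsto (fun x : ℝ => C * Real.log x ^ (-(1 / 2) : ℝ)) Filter.atTop
      (nhds 0) := by
    simpa using hl.const_mul C
  have hi : Filter.Tendsto (fun x : ℝ => 2 * x⁻¹) Filter.atTop (nhds 0) := by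
    simpa using (tendsto_inv_atTop_zero (𝕜 := ℝ)).const_mul 2
  have hs : Filter.Tendsto (fun x : ℝ => |C'| * x ^ (-(1 / 2) : ℝ)) Filter.atTop (nhds 0) := by
    simpa using (tendsto_rpow_neg_atTop (y := 1 / 2) (by norm_num)).const_mul |C'|
  have hev := ((hl2.eventually_lt_const (show (0 : ℝ) < δ / 3 by positivity)).and
    ((hi.eventually_lt_const (show (0 : ℝ) < δ / 3 by positivity)).and
    (hs.eventually_lt_const (show (0 : ℝ) < δ / 3 by positivity)))).and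
    (Filter.eventually_ge_atTop (3 : ℝ))
  obtain ⟨x0, hx0⟩ := Filter.eventually_atTop.1 hev
  refine ⟨x0, fun x hx => ?_⟩
  obtain ⟨⟨g1, g2, g3⟩, g4⟩ := hx0 x hx
  have hx1 : 0 < x := by linarith
  have p1 := h x g4
  have p2 := h' x
  have p3 := Chebyshev.theta_le_psi x
  have q1 : C * x * Real.log x ^ (-(1 / 2) : ℝ) ≤ δ / 3 * x := by
    have := mul_le_mul_of_nonneg_right g1.le hx1.le
    linarith
  have q2 : 2 ≤ δ / 3 * x := by
    have := mul_le_mul_of_nonneg_right g2.le hx1.le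
    rwa [mul_assoc, inv_mul_cancel₀ hx1.ne', mul_one] at this
  have q3 : C' * Real.sqrt x ≤ δ / 3 * x := by
    have h5 := mul_le_mul_of_nonneg_right g3.le hx1.le
    have h6 : x ^ (-(1 / 2) : ℝ) * x = Real.sqrt x := by
      rw [Real.sqrt_eq_rpow]
      nth_rewrite 2 [← Real.rpow_one x]
      rw [← Real.rpow_add hx1]
      norm_num
    rw [mul_assoc, h6] at h5
    exact (mul_le_mul_of_nonneg_right (le_abs_self C') (Real.sqrt_nonneg x)).trans h5
  rw [abs_le] at p1 ⊢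
  constructor <;> linarith [p1.1, p1.2]

end Pool.Agent.Lib.MP_90aff6_co.CT.Pnt

namespace Pool.Agent.Lib.MP_90aff6_co.CT

/-- PNT row: for every `ε > 0` and every large real `r` there is a prime in `(r, (1 + ε) r]`. -/
theorem prime_between (ε : ℝ) (hε : 0 < ε) : ∃ r0 : ℝ, ∀ r : ℝ, r0 ≤ r →
    ∃ p : ℕ, p.Prime ∧ r < (p : ℝ) ∧ (p : ℝ) ≤ (1 + ε) * r := by
  set δ : ℝ := ε / (4 + 2 * ε) with hδ
  have hδ0 : 0 < δ := by positivity
  obtain ⟨x0, h⟩ := Pnt.theta_asymp δ hδ0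
  refine ⟨max x0 1, fun r hr => ?_⟩
  have hr1 : 1 ≤ r := (le_max_right _ _).trans hr
  have hrx : x0 ≤ r := (le_max_left _ _).trans hr
  have hr2 : r ≤ (1 + ε) * r := by nlinarith
  have a1 := h r hrx
  have a2 := h ((1 + ε) * r) (hrx.trans hr2)
  rw [abs_le] at a1 a2
  by_contra hcon
  push_neg at hcon
  have heq : Chebyshev.theta ((1 + ε) * r) = Chebyshev.theta r := by
    unfold Chebyshev.theta
    symm
    apply Finset.sum_subset
    · intro n hn
      rw [Finset.mem_filter, Finset.mem_Ioc] at hn ⊢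
      exact ⟨⟨hn.1.1, hn.1.2.trans (Nat.floor_mono hr2)⟩, hn.2⟩
    · intro n hn hn2
      exfalso
      rw [Finset.mem_filter, Finset.mem_Ioc] at hn hn2
      have h1 : (n : ℝ) ≤ (1 + ε) * r := (Nat.le_floor_iff (by linarith)).1 hn.1.2
      have h2 : r < (n : ℝ) := by
        by_contra h3
        push_neg at h3
        exact hn2 ⟨⟨hn.1.1, Nat.le_floor h3⟩, hn.2⟩
      exact absurd h1 (not_le.2 (hcon n hn.2 h2))
  have h3 : ε * r ≤ δ * r + δ * ((1 + ε) * r) := by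
    linarith [a1.2, a2.1]
  have h4 : δ * (4 + 2 * ε) = ε := by
    rw [hδ]; field_simp
  have h5 : ε * r ≤ ε * r / 2 := by
    have : δ * r + δ * ((1 + ε) * r) = (δ * (4 + 2 * ε)) * r / 2 := by ring_nf
    nlinarith
  have h6 : 0 < ε * r := by positivity
  linarith

end Pool.Agent.Lib.MP_90aff6_co.CT
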