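import Pool.Agent.Lib.MP_6bc78b_nt.ZetaApprox
import Pool.Agent.Lib.MP_6bc78b_nt.SW.UBN

/-! Row PNT of the board ctv_modules (MP_90aff6_co), part A: bounds for the derivatives of
`ζ` to the right of the line `Re s = 1`, away from the pole. -/

set_option autoImplicit false

open Complex Finset

namespace Pool.Agent.Lib.MP_90aff6_co.CT.Pnt

open Pool.Agent.Lib.MP_6bc78b_nt Pool.Agent.Lib.MP_6bc78b_nt.SW

lemma summable_c0 : Summable fun k : ℕ => ((1 + k : ℕ) : ℝ) ^ (-(6 / 5 : ℝ)) := by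
  have h := (Real.summable_nat_rpow (p := -(6 / 5 : ℝ))).2 (by norm_num)
  have := (summable_nat_add_iff 1).2 h
  simpa [add_comm] using this

lemma norm_natCast_cpow {n : ℕ} (hn : 1 ≤ n) (w : ℂ) : ‖(n : ℂ) ^ w‖ = (n : ℝ) ^ w.re := by
  have hn0 : (0 : ℝ) < n := by exact_mod_cast hn
  have : (n : ℂ) = ((n : ℝ) : ℂ) := by push_cast; rfl
  rw [this, Complex.norm_cpow_eq_rpow_re_of_pos hn0]

lemma zeta_le : ∃ C : ℝ, 0 < C ∧ ∀ (w : ℂ) (x : ℝ), 3 ≤ x → 1 / 2 ≤ |w.im| → ‖w‖ ≤ x →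
    1 - 1 / Real.log x ≤ w.re → 3 / 5 ≤ w.re → ‖riemannZeta w‖ ≤ C * Real.log x := by
  set C0 : ℝ := ∑' k : ℕ, ((1 + k : ℕ) : ℝ) ^ (-(6 / 5 : ℝ)) with hC0
  have hC00 : 0 ≤ C0 := tsum_nonneg fun k => by positivity
  refine ⟨Real.exp 6 * 7 + 2 * Real.exp 6 + C0, by positivity, ?_⟩
  intro w x hx him hwx hre hre2
  have hx0 : 0 < x := by linarith
  have hlx : 1 ≤ Real.log x := by
    rw [Real.le_log_iff_exp_le hx0]
    have := Real.exp_one_lt_d9
    linarith
  have hlx0 : 0 < Real.log x := by linarith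
  have hw1 : w ≠ 1 := by
    rintro rfl
    simp at him
    norm_num at him
  have hw10 : 0 < ‖w - 1‖ := norm_pos_iff.2 (sub_ne_zero.2 hw1)
  have hw1' : 1 / 2 ≤ ‖w - 1‖ := by
    refine him.trans ?_
    have := Complex.abs_im_le_norm (w - 1)
    simpa using this
  set M : ℕ := ⌈x⌉₊ with hM
  have hMx : x ≤ M := Nat.le_ceil x
  have hMx2 : (M : ℝ) ≤ x ^ 2 := by
    have := Nat.ceil_lt_add_one hx0.le
    nlinarith
  set N : ℕ := M ^ 3 with hN
  have hNx : x ^ 3 ≤ (N : ℝ) := by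
    rw [hN]; push_cast
    exact pow_le_pow_left₀ hx0.le hMx 3
  have hNx6 : (N : ℝ) ≤ x ^ 6 := by
    rw [hN]; push_cast
    calc (M : ℝ) ^ 3 ≤ (x ^ 2) ^ 3 := pow_le_pow_left₀ (by positivity) hMx2 3
      _ = x ^ 6 := by ring
  have hN27 : (27 : ℝ) ≤ N := by
    refine le_trans ?_ hNx
    calc (27 : ℝ) = 3 ^ 3 := by norm_num
      _ ≤ x ^ 3 := pow_le_pow_left₀ (by norm_num) hx 3
  have hN1 : 1 ≤ N := by
    have : (1 : ℝ) ≤ N := by linarith
    exact_mod_cast this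
  have hN0 : (0 : ℝ) < N := by linarith
  have hlN : Real.log N ≤ 6 * Real.log x := by
    calc Real.log N ≤ Real.log (x ^ 6) := Real.log_le_log hN0 hNx6
      _ = 6 * Real.log x := by rw [Real.log_pow]; norm_num
  -- the key bound for the terms
  have hpw : ∀ n : ℕ, 1 ≤ n → n ≤ N → (n : ℝ) ^ (1 - w.re) ≤ Real.exp 6 := by
    intro n hn hnN
    have hn0 : (0 : ℝ) < n := by exact_mod_cast hn
    have hn1 : (1 : ℝ) ≤ n := by exact_mod_cast hn
    have hnN' : (n : ℝ) ≤ N := by exact_mod_cast hnN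
    rcases le_total 1 w.re with h | h
    · calc (n : ℝ) ^ (1 - w.re) ≤ (n : ℝ) ^ (0 : ℝ) :=
            Real.rpow_le_rpow_of_exponent_le hn1 (by linarith)
        _ = 1 := Real.rpow_zero _
        _ ≤ Real.exp 6 := Real.one_le_exp (by norm_num)
    · calc (n : ℝ) ^ (1 - w.re) ≤ (N : ℝ) ^ (1 - w.re) :=
            Real.rpow_le_rpow hn0.le hnN' (by linarith)
        _ = Real.exp (Real.log N * (1 - w.re)) := by rw [Real.rpow_def_of_pos hN0]
        _ ≤ Real.exp 6 := by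
          refine Real.exp_le_exp.2 ?_
          have h1 : 1 - w.re ≤ 1 / Real.log x := by linarith
          calc Real.log N * (1 - w.re) ≤ (6 * Real.log x) * (1 / Real.log x) :=
                mul_le_mul hlN h1 (by linarith) (by positivity)
            _ = 6 := by field_simp
  have hsum : ‖∑ n ∈ Ico 1 N, (n : ℂ) ^ (-w)‖ ≤ Real.exp 6 * (1 + 6 * Real.log x) := by
    calc ‖∑ n ∈ Ico 1 N, (n : ℂ) ^ (-w)‖
        ≤ ∑ n ∈ Ico 1 N, ‖(n : ℂ) ^ (-w)‖ := norm_sum_le _ _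
      _ ≤ ∑ n ∈ Ico 1 N, Real.exp 6 * ((n : ℝ))⁻¹ := by
          refine Finset.sum_le_sum fun n hn => ?_
          have hn1 : 1 ≤ n := (Finset.mem_Ico.1 hn).1
          have hn0 : (0 : ℝ) < n := by exact_mod_cast hn1
          rw [norm_natCast_cpow hn1, Complex.neg_re]
          have e1 : (n : ℝ) ^ (-w.re) = (n : ℝ) ^ (1 - w.re) * ((n : ℝ))⁻¹ := by
            rw [sub_eq_add_neg, Real.rpow_add hn0, Real.rpow_one]
            field_simp
          rw [e1]
          exact mul_le_mul_of_nonneg_right (hpw n hn1 (Finset.mem_Ico.1 hn).2.le) (by positivity)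
      _ ≤ ∑ n ∈ Icc 1 N, Real.exp 6 * ((n : ℝ))⁻¹ := by
          refine Finset.sum_le_sum_of_subset_of_nonneg Finset.Ico_subset_Icc_self ?_
          intro n _ _
          positivity
      _ = Real.exp 6 * ∑ n ∈ Icc 1 N, ((n : ℝ))⁻¹ := by rw [Finset.mul_sum]
      _ ≤ Real.exp 6 * (1 + 6 * Real.log x) := by
          refine mul_le_mul_of_nonneg_left ?_ (Real.exp_pos 6).le
          have h2 := harmonic_le_one_add_log N
          rw [harmonic_eq_sum_Icc] at h2
          push_cast at h2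
          linarith
  have htail : ‖∑' k : ℕ, bt (N + k) w‖ ≤ ‖w - 1‖ * C0 := by
    have hb : ∀ k : ℕ, ‖bt (N + k) w‖ ≤ ‖w - 1‖ * ((1 + k : ℕ) : ℝ) ^ (-(6 / 5 : ℝ)) := by
      intro k
      have hk1 : 1 ≤ N + k := by omega
      refine (norm_bt_le hk1 (by linarith)).trans ?_
      have hNk1 : (1 : ℝ) ≤ ((N + k : ℕ) : ℝ) := by exact_mod_cast hk1
      have hNk0 : (0 : ℝ) < ((N + k : ℕ) : ℝ) := by linarith
      have h1 : ((N + k : ℕ) : ℝ) ^ (-w.re - 1) ≤
          ((N + k : ℕ) : ℝ) ^ (-(1 / 3 : ℝ) + -(6 / 5 : ℝ)) :=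
        Real.rpow_le_rpow_of_exponent_le hNk1 (by linarith)
      rw [Real.rpow_add hNk0] at h1
      have h2 : ((N + k : ℕ) : ℝ) ^ (-(1 / 3 : ℝ)) ≤ x⁻¹ := by
        have h3 : x ^ 3 ≤ ((N + k : ℕ) : ℝ) := by
          refine hNx.trans ?_
          push_cast
          linarith [(Nat.cast_nonneg k : (0 : ℝ) ≤ k)]
        calc ((N + k : ℕ) : ℝ) ^ (-(1 / 3 : ℝ)) ≤ (x ^ 3) ^ (-(1 / 3 : ℝ)) :=
              Real.rpow_le_rpow_of_nonpos (by positivity) h3 (by norm_num)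
          _ = x⁻¹ := by
              rw [← Real.rpow_natCast x 3, ← Real.rpow_mul hx0.le]
              norm_num
              rw [Real.rpow_neg_one]
      have h4 : ((N + k : ℕ) : ℝ) ^ (-(6 / 5 : ℝ)) ≤ ((1 + k : ℕ) : ℝ) ^ (-(6 / 5 : ℝ)) := by
        refine Real.rpow_le_rpow_of_nonpos (by positivity) ?_ (by norm_num)
        exact_mod_cast Nat.add_le_add_right hN1 k
      have h5 : ((N + k : ℕ) : ℝ) ^ (-w.re - 1) ≤ x⁻¹ * ((1 + k : ℕ) : ℝ) ^ (-(6 / 5 : ℝ)) :=
        h1.trans (mul_le_mul h2 h4 (by positivity) (by positivity))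
      calc ‖w‖ * ‖w - 1‖ * ((N + k : ℕ) : ℝ) ^ (-w.re - 1)
          ≤ x * ‖w - 1‖ * (x⁻¹ * ((1 + k : ℕ) : ℝ) ^ (-(6 / 5 : ℝ))) := by
            apply mul_le_mul _ h5 (by positivity) (by positivity)
            exact mul_le_mul_of_nonneg_right hwx (norm_nonneg _)
        _ = ‖w - 1‖ * ((1 + k : ℕ) : ℝ) ^ (-(6 / 5 : ℝ)) := by
            field_simp
    have h1 : Summable fun k : ℕ => ‖w - 1‖ * ((1 + k : ℕ) : ℝ) ^ (-(6 / 5 : ℝ)) :=
      summable_c0.mul_left _
    refine (tsum_of_norm_bounded h1.hasSum hb).trans ?_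
    rw [tsum_mul_left]
  have hZ := riemannZeta₁_eq_sum (s := w) (by linarith) hN1
  have hz : riemannZeta w = ∑ n ∈ Ico 1 N, (n : ℂ) ^ (-w) +
      (w - 1)⁻¹ * ((N : ℂ) ^ (1 - w) + ∑' k : ℕ, bt (N + k) w) := by
    rw [riemannZeta_eq_inv_sub_mul hw1, hZ]
    have : w - 1 ≠ 0 := sub_ne_zero.2 hw1
    field_simp
    ring
  rw [hz]
  have hmid : ‖(w - 1)⁻¹ * ((N : ℂ) ^ (1 - w) + ∑' k : ℕ, bt (N + k) w)‖ ≤
      2 * Real.exp 6 + C0 := by
    rw [norm_mul, norm_inv]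
    have h1 : ‖(N : ℂ) ^ (1 - w) + ∑' k : ℕ, bt (N + k) w‖ ≤ Real.exp 6 + ‖w - 1‖ * C0 := by
      refine (norm_add_le _ _).trans (add_le_add ?_ htail)
      rw [norm_natCast_cpow hN1]
      simpa using hpw N hN1 le_rfl
    calc ‖w - 1‖⁻¹ * ‖(N : ℂ) ^ (1 - w) + ∑' k : ℕ, bt (N + k) w‖
        ≤ ‖w - 1‖⁻¹ * (Real.exp 6 + ‖w - 1‖ * C0) :=
          mul_le_mul_of_nonneg_left h1 (by positivity)
      _ = ‖w - 1‖⁻¹ * Real.exp 6 + C0 := by field_simp
      _ ≤ 2 * Real.exp 6 + C0 := by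
          have : ‖w - 1‖⁻¹ ≤ 2 := by
            rw [inv_le_comm₀ hw10 (by norm_num)]
            linarith
          have := mul_le_mul_of_nonneg_right this (Real.exp_pos 6).le
          linarith
  refine (norm_add_le _ _).trans ((add_le_add hsum hmid).trans ?_)
  have he := Real.exp_pos 6
  nlinarith

/-- `ζ^(j)` for `|t| ≥ 1`. -/
lemma chiLog_le (j : ℕ) : ∃ C : ℝ, 0 < C ∧ ∀ σ t : ℝ, 1 < σ → σ ≤ 2 → 1 ≤ |t| →
    ‖LSeries (chiLog (1 : DirichletCharacter ℂ 1) j) (σ + t * I)‖ ≤ C * LL 1 t ^ (j + 1) := by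
  obtain ⟨C, hC, hz⟩ := zeta_le
  refine ⟨j.factorial * C * 4 ^ j, by positivity, ?_⟩
  intro σ t hσ hσ2 ht
  have hs : 1 < ((σ : ℂ) + t * I).re := by simpa using hσ
  have him : ((σ : ℂ) + t * I).im = t := by simp
  have hre : ((σ : ℂ) + t * I).re = σ := by simp
  set s : ℂ := (σ : ℂ) + t * I with hs'
  rw [LSeries_chiLog j hs, norm_mul, norm_pow, norm_neg, norm_one, one_pow, one_mul,
    DirichletCharacter.LFunction_modOne_eq]
  have hL : 1 ≤ LL 1 t := one_le_LL le_rfl t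
  have hL0 : 0 < LL 1 t := by linarith
  have hLe : LL 1 t = Real.log (|t| + 3) := by unfold LL; norm_num
  set R : ℝ := 1 / (4 * LL 1 t) with hR
  have hR0 : 0 < R := by positivity
  have hR4 : R ≤ 1 / 4 := by
    rw [hR]
    exact one_div_le_one_div_of_le (by norm_num) (by linarith)
  have hclose : ∀ w : ℂ, ‖w - s‖ ≤ R → |w.im - t| ≤ R ∧ |w.re - σ| ≤ R := by
    intro w hw
    constructor
    · have := Complex.abs_im_le_norm (w - s)
      rw [Complex.sub_im, him] at this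
      exact this.trans hw
    · have := Complex.abs_re_le_norm (w - s)
      rw [Complex.sub_re, hre] at this
      exact this.trans hw
  have hge : ∀ w : ℂ, ‖w - s‖ ≤ R → 1 / 2 ≤ |w.im| := by
    intro w hw
    have h1 := (hclose w hw).1
    have h2 : |t| ≤ |w.im| + |w.im - t| := by
      have : t = w.im - (w.im - t) := by ring
      calc |t| = |w.im - (w.im - t)| := by rw [← this]
        _ ≤ |w.im| + |w.im - t| := abs_sub _ _
    linarith
  have hdiff : DiffContOnCl ℂ riemannZeta (Metric.ball s R) := by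
    apply DifferentiableOn.diffContOnCl
    intro w hw
    have hw2 : w ∈ Metric.closedBall s R := Metric.closure_ball_subset_closedBall hw
    rw [Metric.mem_closedBall, dist_eq_norm] at hw2
    refine (differentiableAt_riemannZeta ?_).differentiableWithinAt
    rintro rfl
    have := hge 1 hw2
    simp at this
    norm_num at this
  have hC : ∀ w ∈ Metric.sphere s R, ‖riemannZeta w‖ ≤ C * LL 1 t := by
    intro w hw
    have hw2 : ‖w - s‖ ≤ R := by
      rw [Metric.mem_sphere, dist_eq_norm] at hw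
      exact hw.le
    obtain ⟨h1, h2⟩ := hclose w hw2
    rw [abs_le] at h2
    rw [hLe]
    refine hz w (|t| + 3) (by linarith) (hge w hw2) ?_ ?_ (by linarith)
    · have h3 : ‖w‖ ≤ ‖s‖ + ‖w - s‖ := by
        have := norm_add_le s (w - s)
        rwa [add_sub_cancel] at this
      have h4 : ‖s‖ ≤ |s.re| + |s.im| := Complex.norm_le_abs_re_add_abs_im s
      rw [him, hre, abs_of_pos (by linarith : (0:ℝ) < σ)] at h4
      linarith
    · rw [← hLe]
      have h3 : R ≤ 1 / LL 1 t := by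
        rw [hR]
        exact one_div_le_one_div_of_le hL0 (by linarith)
      linarith
  have h := Complex.norm_iteratedDeriv_le_of_forall_mem_sphere_norm_le j hR0 hdiff hC
  refine h.trans (le_of_eq ?_)
  rw [hR, one_div, inv_pow, div_inv_eq_mul, mul_pow]
  ring

end Pool.Agent.Lib.MP_90aff6_co.CT.Pnt
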