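import Pool.Agent.Lib.MP_90aff6_co.CT.PntA
import Pool.Agent.Lib.MP_6bc78b_nt.SW.H30.Tlb
import Pool.Agent.Lib.MP_6bc78b_nt.SW.H76.Lbc
import Pool.Agent.Lib.MP_6bc78b_nt.SW.H38.Leib
import Pool.Agent.Lib.MP_6bc78b_nt.SW.H64.Der

/-! Row PNT of the board ctv_modules (MP_90aff6_co), part B: lower bound for `ζ` to the right of
the line `Re s = 1` and bounds for the derivatives of `ζ'/ζ`, away from the pole. -/

set_option autoImplicit false

open Complex Finset

namespace Pool.Agent.Lib.MP_90aff6_co.CT.Pnt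

open Pool.Agent.Lib.MP_6bc78b_nt Pool.Agent.Lib.MP_6bc78b_nt.SW

/-- the trivial character modulo 1 -/
noncomputable abbrev ch1 : DirichletCharacter ℂ 1 := 1

lemma low : ∃ c : ℝ, 0 < c ∧ ∀ σ t : ℝ, 1 < σ → σ ≤ 2 → 1 ≤ |t| →
    c ≤ LL 1 t ^ 7 * ‖LSeries (fun n : ℕ => ch1 (n : ZMod 1)) (σ + t * I)‖ := by
  obtain ⟨C2, hC2, hN⟩ := chiLog_le 0
  obtain ⟨C1, hC1, hN1⟩ := chiLog_le 1
  obtain ⟨-, hT2⟩ := H30.tlb
  obtain ⟨κ, hκ0, hκ⟩ : ∃ κ : ℝ, 0 < κ ∧ κ ^ 4 * (16 * C2) ≤ 1 := by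
    refine ⟨min 1 (1 / (16 * C2)), by positivity, ?_⟩
    set m := min (1 : ℝ) (1 / (16 * C2)) with hm
    have h0 : 0 < m := by positivity
    have h1 : m ≤ 1 := min_le_left _ _
    have h2 : m ≤ 1 / (16 * C2) := min_le_right _ _
    have h3 : m ^ 4 ≤ m := by
      calc m ^ 4 ≤ m ^ 1 := pow_le_pow_of_le_one h0.le h1 (by norm_num)
        _ = m := pow_one m
    calc m ^ 4 * (16 * C2) ≤ (1 / (16 * C2)) * (16 * C2) := by
          apply mul_le_mul_of_nonneg_right (h3.trans h2); positivity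
      _ = 1 := by field_simp
  obtain ⟨β, hβ0, hβ1, hβ2⟩ : ∃ β : ℝ, 0 < β ∧ β ≤ 1 ∧ C1 * β ≤ κ / 2 :=
    ⟨min 1 (κ / (2 * C1)), by positivity, min_le_left _ _, by
      have h := min_le_right 1 (κ / (2 * C1))
      calc C1 * min 1 (κ / (2 * C1)) ≤ C1 * (κ / (2 * C1)) := by gcongr
        _ = κ / 2 := by field_simp⟩
  refine ⟨β ^ 3 * (κ / 2), by positivity, ?_⟩
  intro σ t hσ hσ2 ht
  set l : ℝ := LL 1 t with hl
  have hl1 : 1 ≤ l := one_le_LL le_rfl t
  have hl0 : 0 < l := by linarith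
  have e4 : chiLog ch1 0 = fun n : ℕ => ch1 (n : ZMod 1) := by
    funext n
    simp [chiLog]
  have hmain := H76.real_part (C1 := C1) (A := 16 * C2) (κ := κ) (β := β) (l := l)
    hC1 hκ0 hκ hβ0 hβ1 hβ2 hl1
    (fun x => ‖LSeries (fun n : ℕ => ch1 (n : ZMod 1)) ((1 + x : ℝ) + t * I)‖)
    (fun x => norm_nonneg _) ?_ ?_ (σ - 1) (by linarith) (by linarith)
  · have h1 : (1 + (σ - 1) : ℝ) = σ := by ring
    simp only [h1] at hmain
    exact hmain
  · intro x hx hx1
    have h341 := DirichletCharacter.norm_LSeries_product_ge_one ch1 hx t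
    simp only [norm_mul, norm_pow] at h341
    have e1 : (1 + (x : ℂ)) = ((1 + x : ℝ) : ℂ) + (0 : ℝ) * I := by push_cast; ring
    have e2 : (1 + (x : ℂ) + I * t) = ((1 + x : ℝ) : ℂ) + t * I := by push_cast; ring
    have e3 : (1 + (x : ℂ) + 2 * I * t) = ((1 + x : ℝ) : ℂ) + (2 * t : ℝ) * I := by
      push_cast; ring
    have h0 := hT2 1 le_rfl 1 (1 + x) 0 (by linarith) (by linarith)
    have h2t : 1 ≤ |2 * t| := by
      rw [abs_mul, abs_two]; linarith
    have h2 := hN (1 + x) (2 * t) (by linarith) (by linarith) h2t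
    have e5 : ch1 ^ 2 = ch1 := one_pow 2
    rw [e2, e3, e5] at h341
    rw [← e1] at h0
    have h0' : ‖LSeries (fun n : ℕ => (1 : DirichletCharacter ℂ 1) (n : ZMod 1)) (1 + x)‖ ≤
        2 / x := by
      have : (1 + x - 1 : ℝ) = x := by ring
      rwa [this] at h0
    have h2' : ‖LSeries (fun n : ℕ => ch1 (n : ZMod 1))
        (((1 + x : ℝ) : ℂ) + (2 * t : ℝ) * I)‖ ≤ 2 * C2 * l := by
      rw [← e4]
      refine h2.trans ?_
      have h3 := H76.LL_two (le_refl 1) t
      rw [zero_add, pow_one]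
      nlinarith
    set P := ‖LSeries (fun n : ℕ => ch1 (n : ZMod 1)) (((1 + x : ℝ) : ℂ) + t * I)‖ with hP
    have hP0 : 0 ≤ P := norm_nonneg _
    have h5 : 1 ≤ (2 / x) ^ 3 * P ^ 4 * (2 * C2 * l) := by
      refine le_trans h341 ?_
      apply mul_le_mul _ h2' (norm_nonneg _) (by positivity)
      apply mul_le_mul_of_nonneg_right _ (by positivity)
      exact pow_le_pow_left₀ (norm_nonneg _) h0' 3
    have h6 : x ^ 3 * ((2 / x) ^ 3 * P ^ 4 * (2 * C2 * l)) = 16 * C2 * l * P ^ 4 := by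
      field_simp
      ring
    calc x ^ 3 = x ^ 3 * 1 := (mul_one _).symm
      _ ≤ x ^ 3 * ((2 / x) ^ 3 * P ^ 4 * (2 * C2 * l)) :=
          mul_le_mul_of_nonneg_left h5 (by positivity)
      _ = _ := h6
  · intro x y hx hxy hy1
    -- mean value inequality
    have hder : ∀ s : ℂ, 1 < s.re → s.re ≤ 2 → s.im = t → HasDerivAt riemannZeta
        (deriv riemannZeta s) s ∧ ‖deriv riemannZeta s‖ ≤ C1 * l ^ 2 := by
      intro s hs hs2 him
      have hs1 : s ≠ 1 := by
        rintro rfl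
        simp at hs
      refine ⟨(differentiableAt_riemannZeta hs1).hasDerivAt, ?_⟩
      have e6 : s = ((s.re : ℝ) : ℂ) + t * I := by rw [← him, Complex.re_add_im]
      have h1 := hN1 s.re t hs hs2 ht
      rw [← e6, LSeries_chiLog 1 hs, norm_mul, norm_pow, norm_neg, norm_one, one_pow, one_mul,
        DirichletCharacter.LFunction_modOne_eq, iteratedDeriv_one] at h1
      exact h1
    set S : Set ℂ := {s : ℂ | 1 < s.re} ∩ {s : ℂ | s.re ≤ 2} ∩ {s : ℂ | s.im = t} with hS
    have hconv : Convex ℝ S := by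
      refine Convex.inter (Convex.inter (convex_halfSpace_re_gt 1) (convex_halfSpace_re_le 2)) ?_
      have : {s : ℂ | s.im = t} = {s : ℂ | t ≤ s.im} ∩ {s : ℂ | s.im ≤ t} := by
        ext s
        constructor
        · intro h
          have h' : s.im = t := h
          exact ⟨h'.ge, h'.le⟩
        · intro h
          exact le_antisymm h.2 h.1
      rw [this]
      exact Convex.inter (convex_halfSpace_im_ge _) (convex_halfSpace_im_le _)
    have hxS : (((1 + x : ℝ) : ℂ) + t * I) ∈ S := by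
      refine ⟨⟨?_, ?_⟩, ?_⟩
      · show 1 < (((1 + x : ℝ) : ℂ) + t * I).re
        simp
        linarith
      · show (((1 + x : ℝ) : ℂ) + t * I).re ≤ 2
        simp
        linarith
      · show (((1 + x : ℝ) : ℂ) + t * I).im = t
        simp
    have hyS : (((1 + y : ℝ) : ℂ) + t * I) ∈ S := by
      refine ⟨⟨?_, ?_⟩, ?_⟩
      · show 1 < (((1 + y : ℝ) : ℂ) + t * I).re
        simp
        linarith
      · show (((1 + y : ℝ) : ℂ) + t * I).re ≤ 2
        simp
        linarith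
      · show (((1 + y : ℝ) : ℂ) + t * I).im = t
        simp
    have h1 := hconv.norm_image_sub_le_of_norm_deriv_le (f := riemannZeta) (C := C1 * l ^ 2)
      (fun s hs => (hder s hs.1.1 hs.1.2 hs.2).1.differentiableAt)
      (fun s hs => (hder s hs.1.1 hs.1.2 hs.2).2) hxS hyS
    have hLz : ∀ s : ℂ, 1 < s.re → LSeries (fun n : ℕ => ch1 (n : ZMod 1)) s = riemannZeta s := by
      intro s hs
      rw [← DirichletCharacter.LFunction_eq_LSeries ch1 hs,
        DirichletCharacter.LFunction_modOne_eq]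
    have h2 : ‖(((1 + y : ℝ) : ℂ) + t * I) - (((1 + x : ℝ) : ℂ) + t * I)‖ = y - x := by
      rw [add_sub_add_right_eq_sub, ← ofReal_sub, Complex.norm_real, Real.norm_eq_abs,
        abs_of_nonneg (by linarith)]
      ring
    rw [h2] at h1
    show ‖LSeries (fun n : ℕ => ch1 (n : ZMod 1)) ((1 + y : ℝ) + t * I)‖ -
      ‖LSeries (fun n : ℕ => ch1 (n : ZMod 1)) ((1 + x : ℝ) + t * I)‖ ≤ _
    rw [hLz _ hyS.1.1, hLz _ hxS.1.1]
    refine (norm_sub_norm_le _ _).trans (h1.trans (le_of_eq ?_))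
    ring

/-- bounds for the derivatives of `ζ'/ζ` -/
lemma vmLog_le (k : ℕ) : ∃ (C : ℝ) (E : ℕ), 0 < C ∧ ∀ σ t : ℝ, 1 < σ → σ ≤ 2 → 1 ≤ |t| →
    ‖LSeries (vmLog ch1 k) (σ + t * I)‖ ≤ C * LL 1 t ^ E := by
  have hU := chiLog_le
  choose CU hCU hU' using hU
  obtain ⟨c, hc, hlo⟩ := low
  induction k using Nat.strong_induction_on with
  | _ k ih =>
    have ih' : ∀ j : ℕ, ∃ (C : ℝ) (E : ℕ), 0 < C ∧ (j < k → ∀ σ t : ℝ, 1 < σ → σ ≤ 2 → 1 ≤ |t| →
        ‖LSeries (vmLog ch1 j) (σ + t * I)‖ ≤ C * LL 1 t ^ E) := by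
      intro j
      by_cases h : j < k
      · obtain ⟨C, E, h1, h2⟩ := ih j h
        exact ⟨C, E, h1, fun _ => h2⟩
      · exact ⟨1, 0, one_pos, fun h' => absurd h' h⟩
    choose C' E' hC' hI using ih'
    set S : ℕ := ∑ j ∈ range k, (E' j + (k - j + 1)) with hS
    set D : ℝ := CU (k + 1) + ∑ j ∈ range k, (k.choose j : ℝ) * (C' j * CU (k - j)) with hD
    have hD0 : 0 < D := by
      have : 0 ≤ ∑ j ∈ range k, (k.choose j : ℝ) * (C' j * CU (k - j)) :=
        Finset.sum_nonneg fun j _ => by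
          have := hC' j
          have := hCU (k - j)
          positivity
      have := hCU (k + 1)
      linarith
    refine ⟨D / c, (S + (k + 2)) + 7, div_pos hD0 hc, ?_⟩
    intro σ t h1 h2 ht
    have hl := one_le_LL (le_refl 1) t
    have hl0 : (0 : ℝ) < LL 1 t := by linarith
    set s : ℂ := (σ : ℂ) + t * I with hs
    have hre : 1 < s.re := by simp [hs, h1]
    have key : ‖LSeries (vmLog ch1 k) s‖ * ‖LSeries (fun n : ℕ => ch1 (n : ZMod 1)) s‖ ≤
        D * LL 1 t ^ (S + (k + 2)) := by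
      have hleib := (leib 1 le_rfl ch1 k s hre).2
      rw [Finset.sum_range_succ, Nat.choose_self, Nat.sub_self, H64.chiLog_zero, Nat.cast_one,
        one_mul] at hleib
      have e1 : LSeries (vmLog ch1 k) s * LSeries (fun n : ℕ => ch1 (n : ZMod 1)) s =
          LSeries (chiLog ch1 (k + 1)) s - ∑ j ∈ range k,
            (k.choose j : ℂ) * LSeries (vmLog ch1 j) s * LSeries (chiLog ch1 (k - j)) s := by
        rw [hleib]; ring
      rw [← norm_mul, e1]
      have b1 : ‖LSeries (chiLog ch1 (k + 1)) s‖ ≤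
          CU (k + 1) * LL 1 t ^ (S + (k + 2)) := by
        refine (hU' (k + 1) σ t h1 h2 ht).trans ?_
        refine mul_le_mul_of_nonneg_left ?_ (hCU _).le
        exact pow_le_pow_right₀ hl (by omega)
      have b2 : ∀ j ∈ range k,
          ‖(k.choose j : ℂ) * LSeries (vmLog ch1 j) s * LSeries (chiLog ch1 (k - j)) s‖ ≤
          ((k.choose j : ℝ) * (C' j * CU (k - j))) * LL 1 t ^ (S + (k + 2)) := by
        intro j hj
        have hjk := Finset.mem_range.1 hj
        have v1 := hI j hjk σ t h1 h2 ht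
        have v2 := hU' (k - j) σ t h1 h2 ht
        have hE : E' j + (k - j + 1) ≤ S :=
          Finset.single_le_sum (f := fun j => E' j + (k - j + 1)) (fun _ _ => Nat.zero_le _) hj
        rw [norm_mul, norm_mul, Complex.norm_natCast]
        have p1 := hC' j
        have p2 := hCU (k - j)
        calc (k.choose j : ℝ) * ‖LSeries (vmLog ch1 j) s‖ * ‖LSeries (chiLog ch1 (k - j)) s‖
            ≤ (k.choose j : ℝ) * (C' j * LL 1 t ^ E' j) *
              (CU (k - j) * LL 1 t ^ (k - j + 1)) := by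
              gcongr
          _ = ((k.choose j : ℝ) * (C' j * CU (k - j))) *
              (LL 1 t ^ (E' j + (k - j + 1))) := by
              rw [pow_add]; ring
          _ ≤ _ := by
              refine mul_le_mul_of_nonneg_left ?_ (by positivity)
              exact pow_le_pow_right₀ hl (by omega)
      calc ‖LSeries (chiLog ch1 (k + 1)) s - ∑ j ∈ range k,
            (k.choose j : ℂ) * LSeries (vmLog ch1 j) s * LSeries (chiLog ch1 (k - j)) s‖
          ≤ ‖LSeries (chiLog ch1 (k + 1)) s‖ + ‖∑ j ∈ range k,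
            (k.choose j : ℂ) * LSeries (vmLog ch1 j) s * LSeries (chiLog ch1 (k - j)) s‖ :=
            norm_sub_le _ _
        _ ≤ CU (k + 1) * LL 1 t ^ (S + (k + 2)) +
            ∑ j ∈ range k, ((k.choose j : ℝ) * (C' j * CU (k - j))) *
            LL 1 t ^ (S + (k + 2)) :=
            add_le_add b1 ((norm_sum_le _ _).trans (Finset.sum_le_sum b2))
        _ = D * LL 1 t ^ (S + (k + 2)) := by
            rw [← Finset.sum_mul, ← add_mul, ← hD]
    have hlo' := hlo σ t h1 h2 ht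
    have hV := norm_nonneg (LSeries (vmLog ch1 k) s)
    have fin : c * ‖LSeries (vmLog ch1 k) s‖ ≤ D * LL 1 t ^ (S + (k + 2) + 7) := by
      calc c * ‖LSeries (vmLog ch1 k) s‖
          ≤ (LL 1 t ^ 7 * ‖LSeries (fun n : ℕ => ch1 (n : ZMod 1)) s‖) *
            ‖LSeries (vmLog ch1 k) s‖ :=
            mul_le_mul_of_nonneg_right hlo' hV
        _ = LL 1 t ^ 7 * (‖LSeries (vmLog ch1 k) s‖ *
            ‖LSeries (fun n : ℕ => ch1 (n : ZMod 1)) s‖) := by ring
        _ ≤ LL 1 t ^ 7 * (D * LL 1 t ^ (S + (k + 2))) := by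
            gcongr
        _ = _ := by rw [pow_add _ (S + (k + 2)) 7]; ring
    rw [div_mul_eq_mul_div, le_div_iff₀ hc]
    linarith [fin]

end Pool.Agent.Lib.MP_90aff6_co.CT.Pnt
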