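import Pool.Agent.Lib.MP_90aff6_co.CT.PntB
import Pool.Agent.Lib.MP_6bc78b_nt.SW.H93.Fin

/-! Row PNT of the board ctv_modules (MP_90aff6_co), part C: the second derivative of
`-ζ'/ζ - ζ` is bounded near the pole. -/

set_option autoImplicit false

open Complex Finset

namespace Pool.Agent.Lib.MP_90aff6_co.CT.Pnt

open Pool.Agent.Lib.MP_6bc78b_nt Pool.Agent.Lib.MP_6bc78b_nt.SW

/-- `Λ(n) - 1` -/
noncomputable def ff (n : ℕ) : ℂ := vmLog ch1 0 n - chiLog ch1 0 n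

/-- `(Λ(n) - 1) (log n)^2` -/
noncomputable def aa (n : ℕ) : ℂ := vmLog ch1 2 n - chiLog ch1 2 n

lemma ff_eq (n : ℕ) : ff n = ((ArithmeticFunction.vonMangoldt n - 1 : ℝ) : ℂ) := by
  unfold ff vmLog chiLog
  have : (ch1 (n : ZMod 1)) = 1 := by
    have h : (n : ZMod 1) = 1 := Subsingleton.elim _ _
    rw [h, map_one]
  rw [this]
  push_cast
  ring

lemma aa_eq (n : ℕ) : aa n =
    ((ArithmeticFunction.vonMangoldt n - 1 : ℝ) : ℂ) * ((Real.log n ^ 2 : ℝ) : ℂ) := by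
  unfold aa vmLog chiLog
  have : (ch1 (n : ZMod 1)) = 1 := by
    have h : (n : ZMod 1) = 1 := Subsingleton.elim _ _
    rw [h, map_one]
  rw [this]
  push_cast
  ring

lemma aa_logMul : aa = LSeries.logMul^[2] ff := by
  funext n
  rw [aa_eq, Function.iterate_succ_apply', Function.iterate_one]
  rw [LSeries.logMul, LSeries.logMul, ff_eq, ← Complex.natCast_log]
  push_cast
  ring

/-- `-ζ'/ζ - ζ`, continued. -/
noncomputable def HH (s : ℂ) : ℂ := -(deriv riemannZeta₁ s / riemannZeta₁ s) - riemannZeta₀ s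

lemma LSeries_ff {s : ℂ} (hs : 1 < s.re) : LSeries ff s = HH s := by
  have hs1 : s ≠ 1 := by
    rintro rfl
    simp at hs
  have h1 : LSeries ff s = LSeries (vmLog ch1 0) s - LSeries (chiLog ch1 0) s :=
    LSeries_sub (H38.vmLog_summable ch1 0 hs) (H38.chiLog_summable ch1 0 hs)
  have h2 : LSeries (chiLog ch1 0) s = riemannZeta s := by
    rw [H64.chiLog_zero, ← DirichletCharacter.LFunction_eq_LSeries ch1 hs,
      DirichletCharacter.LFunction_modOne_eq]
  have h3 : LSeries (vmLog ch1 0) s = -deriv riemannZeta s / riemannZeta s := by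
    rw [← ArithmeticFunction.LSeries_vonMangoldt_eq_deriv_riemannZeta_div hs]
    apply LSeries_congr
    intro n _
    unfold vmLog
    have : (ch1 (n : ZMod 1)) = 1 := by
      have h : (n : ZMod 1) = 1 := Subsingleton.elim _ _
      rw [h, map_one]
    rw [this]
    simp
  have hz : riemannZeta s ≠ 0 := riemannZeta_ne_zero_of_one_le_re hs.le
  have hs0 : s - 1 ≠ 0 := sub_ne_zero.2 hs1
  have hz1 : riemannZeta₁ s ≠ 0 := by
    intro h
    rw [riemannZeta_eq_inv_sub_mul hs1, h, mul_zero] at hz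
    exact hz rfl
  rw [h1, h3, h2, deriv_riemannZeta_eq_neg_inv_sub_sq_mul_add hs1, HH]
  have e1 : riemannZeta s = (s - 1)⁻¹ * riemannZeta₁ s := riemannZeta_eq_inv_sub_mul hs1
  have e2 : riemannZeta s = (s - 1)⁻¹ + riemannZeta₀ s := riemannZeta_eq_inv_sub_add hs1
  have e3 : riemannZeta₀ s = riemannZeta s - (s - 1)⁻¹ := by rw [e2]; ring
  rw [e3]
  nth_rewrite 1 [e1]
  field_simp
  ring

lemma isOpen_U : IsOpen {s : ℂ | riemannZeta₁ s ≠ 0} :=
  isOpen_ne_fun differentiable_riemannZeta₁.continuous continuous_const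

lemma diff_HH : DifferentiableOn ℂ HH {s : ℂ | riemannZeta₁ s ≠ 0} := by
  intro s hs
  have h1 : DifferentiableAt ℂ (deriv riemannZeta₁) s :=
    (differentiable_riemannZeta₁.deriv) s
  have h2 : DifferentiableAt ℂ riemannZeta₁ s := differentiable_riemannZeta₁ s
  have h3 : DifferentiableAt ℂ riemannZeta₀ s := differentiable_riemannZeta₀ s
  exact ((h1.div h2 hs).neg.sub h3).differentiableWithinAt

lemma aa_le_near : ∃ B : ℝ, 0 < B ∧ ∀ σ t : ℝ, 1 < σ → σ ≤ 2 → |t| ≤ 1 →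
    ‖LSeries aa (σ + t * I)‖ ≤ B := by
  have hc : ContinuousOn (iteratedDeriv 2 HH) {s : ℂ | riemannZeta₁ s ≠ 0} := by
    have h1 := (diff_HH.deriv isOpen_U).deriv isOpen_U
    have e : iteratedDeriv 2 HH = deriv (deriv HH) := by
      rw [iteratedDeriv_succ, iteratedDeriv_one]
    rw [e]
    exact h1.continuousOn
  have hK : IsCompact (Set.Icc (1 : ℝ) 2 ×ℂ Set.Icc (-1 : ℝ) 1) :=
    isCompact_Icc.reProdIm isCompact_Icc
  have hsub : (Set.Icc (1 : ℝ) 2 ×ℂ Set.Icc (-1 : ℝ) 1) ⊆ {s : ℂ | riemannZeta₁ s ≠ 0} := by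
    intro s hs
    rw [Complex.mem_reProdIm] at hs
    show riemannZeta₁ s ≠ 0
    by_cases h : s = 1
    · rw [h]; simp
    · intro h0
      have hz : riemannZeta s ≠ 0 := riemannZeta_ne_zero_of_one_le_re hs.1.1
      rw [riemannZeta_eq_inv_sub_mul h, h0, mul_zero] at hz
      exact hz rfl
  obtain ⟨B, hB⟩ := hK.exists_bound_of_continuousOn (hc.mono hsub)
  refine ⟨|B| + 1, by positivity, ?_⟩
  intro σ t hσ hσ2 ht
  have hs : 1 < ((σ : ℂ) + t * I).re := by simpa using hσ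
  have him : ((σ : ℂ) + t * I).im = t := by simp
  have hre : ((σ : ℂ) + t * I).re = σ := by simp
  set s : ℂ := (σ : ℂ) + t * I with hs'
  have hab : LSeries.abscissaOfAbsConv ff < s.re := by
    have h1 : LSeries.abscissaOfAbsConv ff ≤ (((1 + s.re) / 2 : ℝ) : EReal) := by
      refine LSeries.abscissaOfAbsConv_le_of_forall_lt_LSeriesSummable' ?_
      intro y hy
      have hy1 : 1 < y := by
        have : (1 + s.re) / 2 < y := by exact_mod_cast hy
        linarith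
      have h2 : 1 < ((y : ℝ) : ℂ).re := by simpa using hy1
      exact (H38.vmLog_summable ch1 0 h2).sub (H38.chiLog_summable ch1 0 h2)
    refine h1.trans_lt ?_
    exact_mod_cast (by linarith : (1 + s.re) / 2 < s.re)
  have h1 := LSeries_iteratedDeriv 2 hab
  have h2 : iteratedDeriv 2 (LSeries ff) s = iteratedDeriv 2 HH s := by
    refine Filter.EventuallyEq.iteratedDeriv_eq 2 ?_
    filter_upwards [(isOpen_lt continuous_const continuous_re).mem_nhds hs] with z hz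
    exact LSeries_ff hz
  rw [h2, ← aa_logMul] at h1
  have h3 : LSeries aa s = iteratedDeriv 2 HH s := by rw [h1]; norm_num
  rw [h3]
  have hmem : s ∈ (Set.Icc (1 : ℝ) 2 ×ℂ Set.Icc (-1 : ℝ) 1) := by
    rw [Complex.mem_reProdIm, him, hre]
    rw [abs_le] at ht
    exact ⟨⟨hσ.le, hσ2⟩, ht⟩
  have := hB s hmem
  have := le_abs_self B
  linarith

/-- The bound in the whole strip. -/
lemma aa_le : ∃ K : ℝ, 0 < K ∧ ∀ σ t : ℝ, 1 < σ → σ ≤ 2 →
    ‖LSeries aa (σ + t * I)‖ ≤ K * (1 + |t|) ^ (1 / 2 : ℝ) := by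
  obtain ⟨B, hB0, hB⟩ := aa_le_near
  obtain ⟨C1, E, hC1, h1⟩ := vmLog_le 2
  obtain ⟨C2, hC2, h2⟩ := chiLog_le 2
  have hlp := H93.log_pow_le
  set D1 : ℝ := 2 * (2 * ((E : ℝ) + 1)) ^ E with hD1
  set D2 : ℝ := 2 * (2 * (((3 : ℕ) : ℝ) + 1)) ^ 3 with hD2
  refine ⟨B + C1 * D1 + C2 * D2, by positivity, ?_⟩
  intro σ t hσ hσ2
  have ht0 := abs_nonneg t
  have hp : 1 ≤ (1 + |t|) ^ (1 / 2 : ℝ) := Real.one_le_rpow (by linarith) (by norm_num)
  have hp0 : 0 < (1 + |t|) ^ (1 / 2 : ℝ) := by linarith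
  rcases le_total |t| 1 with ht | ht
  · refine (hB σ t hσ hσ2 ht).trans ?_
    have h5 : 0 ≤ C1 * D1 + C2 * D2 := by positivity
    calc B ≤ (B + C1 * D1 + C2 * D2) * 1 := by linarith
      _ ≤ (B + C1 * D1 + C2 * D2) * (1 + |t|) ^ (1 / 2 : ℝ) :=
        mul_le_mul_of_nonneg_left hp (by linarith)
  · have hs : 1 < ((σ : ℂ) + t * I).re := by simpa using hσ
    have e : LSeries aa (σ + t * I) =
        LSeries (vmLog ch1 2) (σ + t * I) - LSeries (chiLog ch1 2) (σ + t * I) :=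
      LSeries_sub (H38.vmLog_summable ch1 2 hs) (H38.chiLog_summable ch1 2 hs)
    rw [e]
    have hLe : LL 1 t = Real.log (|t| + 3) := by unfold LL; norm_num
    have g1 := h1 σ t hσ hσ2 ht
    have g2 := h2 σ t hσ hσ2 ht
    rw [hLe] at g1 g2
    have g3 := hlp E t
    have g4 := hlp 3 t
    have g5 : C1 * Real.log (|t| + 3) ^ E ≤ C1 * (D1 * (1 + |t|) ^ (1 / 2 : ℝ)) :=
      mul_le_mul_of_nonneg_left g3 hC1.le
    have g6 : C2 * Real.log (|t| + 3) ^ 3 ≤ C2 * (D2 * (1 + |t|) ^ (1 / 2 : ℝ)) :=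
      mul_le_mul_of_nonneg_left g4 hC2.le
    have g7 : 0 ≤ B * (1 + |t|) ^ (1 / 2 : ℝ) := by positivity
    refine (norm_sub_le _ _).trans ?_
    have g8 : C2 * Real.log (|t| + 3) ^ (2 + 1) = C2 * Real.log (|t| + 3) ^ 3 := by norm_num
    rw [g8] at g2
    calc _ ≤ C1 * Real.log (|t| + 3) ^ E + C2 * Real.log (|t| + 3) ^ 3 := add_le_add g1 g2
      _ ≤ C1 * (D1 * (1 + |t|) ^ (1 / 2 : ℝ)) + C2 * (D2 * (1 + |t|) ^ (1 / 2 : ℝ)) :=
          add_le_add g5 g6
      _ ≤ _ := by nlinarith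

end Pool.Agent.Lib.MP_90aff6_co.CT.Pnt
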